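import Pool.Graph.R_pool_sql_team_seeded_5cf16337.K3h92.E2.Cls
import Pool.Graph.R_pool_sql_team_seeded_5cf16337.K3h25.E2.Loc
import Pool.Graph.R_pool_sql_team_seeded_5cf16337.K3h77.E2.Minus
import Pool.Graph.R_pool_sql_team_seeded_5cf16337.K3h30.RS.Act

/-!
# Unramified quadratic extensions: ideals and units
-/

set_option autoImplicit false
set_option linter.unusedSectionVars false

open NumberField IsDedekindDomain
open scoped nonZeroDivisors

noncomputable section

namespace Pool.Agent.Helper9.RS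

open Pool.Agent.K3h30.RS Pool.Agent.K3h56.E2 Pool.Agent.K3h92.E2

section quad

variable {F K : Type} [Field F] [NumberField F] [Field K] [NumberField K] [Algebra F K]

/-- the ring homomorphism `τ` on the integers -/
abbrev sg (τ : K ≃ₐ[F] K) : 𝓞 K →+* 𝓞 K := ((sig τ : 𝓞 K ≃+* 𝓞 K) : 𝓞 K →+* 𝓞 K)

theorem sg_sg {τ : K ≃ₐ[F] K} (hQ : Quad F K τ) (x : 𝓞 K) : sig τ (sig τ x) = x := by
  apply RingOfIntegers.ext
  rw [coe_sig, coe_sig]
  exact (tau_facts τ hQ).1 x

theorem map_sg_sg {τ : K ≃ₐ[F] K} (hQ : Quad F K τ) (I : Ideal (𝓞 K)) :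
    (I.map (sg τ)).map (sg τ) = I := by
  rw [Ideal.map_map]
  have h : (sg τ).comp (sg τ) = RingHom.id (𝓞 K) := RingHom.ext fun x => sg_sg hQ x
  rw [h, Ideal.map_id]

theorem map_sg_ne {τ : K ≃ₐ[F] K} {I : Ideal (𝓞 K)} (h : I ≠ 0) : I.map (sg τ) ≠ 0 := fun h0 =>
  h ((Ideal.map_eq_bot_iff_of_injective (sig τ).injective).1 h0)

theorem map_span_sg (τ : K ≃ₐ[F] K) (x : 𝓞 K) :
    (Ideal.span {x}).map (sg τ) = Ideal.span {sig τ x} := by
  rw [Ideal.map_span, Set.image_singleton]
  rfl

theorem alg_inj : Function.Injective (algebraMap (𝓞 F) (𝓞 K)) :=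
  FaithfulSMul.algebraMap_injective _ _

theorem map_alg_ne {J : Ideal (𝓞 F)} (h : J ≠ 0) : J.map (algebraMap (𝓞 F) (𝓞 K)) ≠ 0 := fun h0 =>
  h ((Ideal.map_eq_bot_iff_of_injective alg_inj).1 h0)

/-- an ideal which is stable outside `A` comes from `F` -/
theorem descend (hLoc : S_LOC) {τ : K ≃ₐ[F] K} (hQ : Quad F K τ)
    {S : Finset (HeightOneSpectrum (𝓞 F))} {A : Finset (HeightOneSpectrum (𝓞 K))}
    (hA : Over S A) (hunr : ∀ v : HeightOneSpectrum (𝓞 F), v ∉ S →
      Squarefree (v.asIdeal.map (algebraMap (𝓞 F) (𝓞 K)))) (n : ℕ) :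
    ∀ I : Ideal (𝓞 K), Ideal.absNorm I = n → I ≠ 0 → ∀ b b' : Ideal (𝓞 K),
      IsB (A : Set (HeightOneSpectrum (𝓞 K))) b → IsB (A : Set (HeightOneSpectrum (𝓞 K))) b' →
      I.map (sg τ) * b = I * b' →
      ∃ J : Ideal (𝓞 F), J ≠ 0 ∧ ∃ c c' : Ideal (𝓞 K),
        IsB (A : Set (HeightOneSpectrum (𝓞 K))) c ∧ IsB (A : Set (HeightOneSpectrum (𝓞 K))) c' ∧
        J.map (algebraMap (𝓞 F) (𝓞 K)) * c = I * c' := by
  induction n using Nat.strong_induction_on with
  | _ n ih =>
    intro I hn hI b b' hb hb' he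
    by_cases hIB : IsB (A : Set (HeightOneSpectrum (𝓞 K))) I
    · refine ⟨1, one_ne_zero, I, 1, hIB, isB_one _, ?_⟩
      rw [Ideal.one_eq_top, Ideal.map_top, ← Ideal.one_eq_top, one_mul, mul_one]
    · obtain ⟨Q, hQI, hQA⟩ : ∃ Q : HeightOneSpectrum (𝓞 K), Q.asIdeal ∣ I ∧
          Q ∉ (A : Set (HeightOneSpectrum (𝓞 K))) := by
        by_contra hcon
        push Not at hcon
        exact hIB ⟨hI, hcon⟩
      obtain ⟨v, hv⟩ := Pool.Agent.K3h77.E2.exists_under (F := F) Q
      have hvS : v ∉ S := fun hvS => hQA ((hA Q).2 ⟨v, hvS, hv⟩)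
      -- `v` divides `I`
      have hvI : v.asIdeal.map (algebraMap (𝓞 F) (𝓞 K)) ∣ I := by
        by_cases hl : loc K v = 1
        · obtain ⟨P, P', hne, hall, hval, hprod, -, -⟩ := (hLoc F K τ hQ v).1 hl
          have hmem : ∀ x : 𝓞 K, x ∈ P'.asIdeal ↔ sig τ x ∈ P.asIdeal := by
            intro x
            rw [← HeightOneSpectrum.valuation_lt_one_iff_mem (K := K),
              ← HeightOneSpectrum.valuation_lt_one_iff_mem (K := K)]
            have h1 := hval (x : K)
            rw [h1]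
            rfl
          have hP' : P'.asIdeal = P.asIdeal.map (sg τ) := by
            ext x
            rw [hmem, Ideal.mem_map_iff_of_surjective (sg τ) (sig τ).surjective]
            constructor
            · intro h
              exact ⟨sig τ x, h, sg_sg hQ x⟩
            · rintro ⟨y, hy, rfl⟩
              have h1 : sig τ (sg τ y) = y := sg_sg hQ y
              rw [h1]
              exact hy
          have hP : P.asIdeal = P'.asIdeal.map (sg τ) := by rw [hP', map_sg_sg hQ]
          have hvP : Above {v} P := (hall P).2 (Or.inl rfl)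
          have hvP' : Above {v} P' := (hall P').2 (Or.inr rfl)
          have hPA : P ∉ (A : Set (HeightOneSpectrum (𝓞 K))) ∧
              P' ∉ (A : Set (HeightOneSpectrum (𝓞 K))) := by
            have key : ∀ R : HeightOneSpectrum (𝓞 K), Above {v} R →
                R ∉ (A : Set (HeightOneSpectrum (𝓞 K))) := by
              intro R hR hRA
              obtain ⟨v', hv', hR'⟩ := (hA R).1 hRA
              rw [above_singleton] at hR hR'
              exact hvS (by rw [show v = v' from HeightOneSpectrum.ext (hR.symm.trans hR')]; exact hv')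
            exact ⟨key P hvP, key P' hvP'⟩
          have hswap : ∀ R R' : HeightOneSpectrum (𝓞 K), R'.asIdeal = R.asIdeal.map (sg τ) →
              R' ∉ (A : Set (HeightOneSpectrum (𝓞 K))) → R.asIdeal ∣ I → R'.asIdeal ∣ I := by
            intro R R' h1 h2 h3
            have h4 : R'.asIdeal ∣ I * b' := by
              rw [← he]
              refine Dvd.dvd.mul_right ?_ b
              rw [h1]
              obtain ⟨c, hc⟩ := h3
              rw [hc, Ideal.map_mul]
              exact dvd_mul_right _ _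
            rcases R'.prime.dvd_or_dvd h4 with h5 | h5
            · exact h5
            · exact absurd (hb'.2 R' h5) h2
          have hboth : P.asIdeal ∣ I ∧ P'.asIdeal ∣ I := by
            rcases (hall Q).1 hv with h | h
            · rw [h] at hQI
              exact ⟨hQI, hswap P P' hP' hPA.2 hQI⟩
            · rw [h] at hQI
              exact ⟨hswap P' P hP hPA.1 hQI, hQI⟩
          rw [hprod]
          obtain ⟨c, hc⟩ := hboth.1
          have h6 : P'.asIdeal ∣ c := by
            have h7 := hboth.2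
            rw [hc] at h7
            rcases P'.prime.dvd_or_dvd h7 with h8 | h8
            · exfalso
              apply hne
              have h9 := (Prime.dvd_prime_iff_associated P'.prime P.prime).1 h8
              exact (HeightOneSpectrum.ext (associated_iff_eq.1 h9)).symm
            · exact h8
          obtain ⟨c', hc'⟩ := h6
          rw [hc, hc', ← mul_assoc]
          exact dvd_mul_right _ _
        · obtain ⟨P, hall, -, h⟩ := (hLoc F K τ hQ v).2 hl
          have hPQ : Q = P := (hall Q).1 hv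
          rcases h with ⟨-, h1, -⟩ | ⟨-, h1, -⟩
          · rw [h1, ← hPQ]
            exact hQI
          · exfalso
            have h2 := hunr v hvS
            rw [h1] at h2
            exact P.prime.not_isUnit (h2 P.asIdeal (by rw [pow_two]))
      obtain ⟨I₁, hI₁⟩ := hvI
      have hI₁0 : I₁ ≠ 0 := by
        rintro rfl
        rw [mul_zero] at hI₁
        exact hI hI₁
      have hvm : v.asIdeal.map (algebraMap (𝓞 F) (𝓞 K)) ≠ 0 := map_alg_ne v.ne_bot
      have hlt : Ideal.absNorm I₁ < n := by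
        rw [← hn, hI₁, map_mul]
        have h1 : 1 < Ideal.absNorm (v.asIdeal.map (algebraMap (𝓞 F) (𝓞 K))) := by
          have h2 : Ideal.absNorm (v.asIdeal.map (algebraMap (𝓞 F) (𝓞 K))) ≠ 0 := by
            rw [Ne, Ideal.absNorm_eq_zero_iff]
            exact hvm
          have h3 : Ideal.absNorm (v.asIdeal.map (algebraMap (𝓞 F) (𝓞 K))) ≠ 1 := by
            rw [Ne, Ideal.absNorm_eq_one_iff]
            intro h4
            have h5 : v.asIdeal.map (algebraMap (𝓞 F) (𝓞 K)) ≤ Q.asIdeal := by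
              rw [Ideal.map_le_iff_le_comap, (above_singleton.1 hv)]
            rw [h4] at h5
            exact Q.isPrime.ne_top (top_le_iff.1 h5)
          omega
        have h2 : 0 < Ideal.absNorm I₁ := Nat.pos_of_ne_zero (by
          rw [Ne, Ideal.absNorm_eq_zero_iff]; exact hI₁0)
        nlinarith
      have he₁ : I₁.map (sg τ) * b = I₁ * b' := by
        rw [hI₁, Ideal.map_mul, map_sig_map, mul_assoc, mul_assoc] at he
        exact mul_left_cancel₀ hvm he
      obtain ⟨J, hJ, c, c', hc, hc', h⟩ := ih _ hlt I₁ rfl hI₁0 b b' hb hb' he₁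
      refine ⟨v.asIdeal * J, mul_ne_zero v.ne_bot hJ, c, c', hc, hc', ?_⟩
      rw [Ideal.map_mul, mul_assoc, h, hI₁, mul_assoc]

/-- Hilbert 90 -/
theorem hilbert90 {τ : K ≃ₐ[F] K} (hQ : Quad F K τ) {u : Kˣ} (hu : actK τ u = u⁻¹) :
    ∃ α : Kˣ, u = α / actK τ α := by
  have htt := (tau_facts τ hQ).1
  have hu' : (u : K) * τ (u : K) = 1 := by
    have h := congrArg (fun z : Kˣ => (z : K)) hu
    simp only [coe_act, Units.val_inv_eq_inv_val] at h
    rw [h]
    exact mul_inv_cancel₀ u.ne_zero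
  by_cases h1 : (1 : K) + (u : K) = 0
  · -- `u = -1`
    obtain ⟨θ, hθ⟩ : ∃ θ : K, τ θ ≠ θ := by
      by_contra hcon
      push Not at hcon
      exact hQ.ne (AlgEquiv.ext hcon)
    have h2 : θ - τ θ ≠ 0 := sub_ne_zero.2 (Ne.symm hθ)
    refine ⟨Units.mk0 _ h2, ?_⟩
    apply Units.ext
    rw [Units.val_div_eq_div_val, coe_act, Units.val_mk0, map_sub, htt]
    have h3 : τ θ - θ ≠ 0 := sub_ne_zero.2 hθ
    rw [eq_div_iff h3]
    have h4 : (u : K) = -1 := by linear_combination h1
    rw [h4]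
    ring
  · refine ⟨Units.mk0 _ h1, ?_⟩
    apply Units.ext
    have h2 : (1 : K) + τ (u : K) ≠ 0 := by
      intro h3
      have h4 : τ (1 + (u : K)) = 0 := by rw [map_add, map_one]; exact h3
      exact h1 (by rwa [map_eq_zero] at h4)
    rw [Units.val_div_eq_div_val, coe_act, Units.val_mk0, map_add, map_one, eq_div_iff h2]
    linear_combination hu'

/-- every element of `K^*` is a quotient of integers -/
theorem exists_frac (α : Kˣ) : ∃ x y : 𝓞 K, x ≠ 0 ∧ y ≠ 0 ∧ (α : K) * (y : K) = (x : K) := by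
  obtain ⟨s, t, ht, hst⟩ := IsFractionRing.div_surjective (A := 𝓞 K) (α : K)
  have ht' : t ≠ 0 := nonZeroDivisors.ne_zero ht
  have htK : (t : K) ≠ 0 := fun h => ht' (RingOfIntegers.ext h)
  have hs' : s ≠ 0 := by
    rintro rfl
    rw [map_zero, zero_div] at hst
    exact α.ne_zero hst.symm
  refine ⟨s, t, hs', ht', ?_⟩
  rw [← hst]
  exact div_mul_cancel₀ _ htK

/-- from the group of the units outside `A` to ideals -/
theorem exists_isB_of_mem {A : Set (HeightOneSpectrum (𝓞 K))} {u : Kˣ} (hu : u ∈ SU K A)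
    {s t : 𝓞 K} (hs : s ≠ 0) (ht : t ≠ 0) (h : (u : K) * (t : K) = (s : K)) :
    ∃ b b' : Ideal (𝓞 K), IsB A b ∧ IsB A b' ∧ Ideal.span {s} * b = Ideal.span {t} * b' := by
  refine exists_isB A hs ht fun P hP => ?_
  have h1 := hu P hP
  have h2 : P.valuation K (s : K) = P.valuation K (t : K) := by
    rw [← h, map_mul, h1, one_mul]
  rw [show P.valuation K (s : K) = P.intValuation s from P.valuation_of_algebraMap (K := K) s,
    show P.valuation K (t : K) = P.intValuation t from P.valuation_of_algebraMap (K := K) t] at h2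
  exact h2

/-- the relation `Rel` for the elements of the minus part -/
theorem rel_of_minus (hLoc : S_LOC) {τ : K ≃ₐ[F] K} (hQ : Quad F K τ)
    {S : Finset (HeightOneSpectrum (𝓞 F))} {A : Finset (HeightOneSpectrum (𝓞 K))}
    (hA : Over S A) (hunr : ∀ v : HeightOneSpectrum (𝓞 F), v ∉ S →
      Squarefree (v.asIdeal.map (algebraMap (𝓞 F) (𝓞 K)))) {u : Kˣ}
    (hu : u ∈ SU K (A : Set (HeightOneSpectrum (𝓞 K))) ⊓ minus τ) :
    ∃ c : ClassGroup (𝓞 F), Rel τ (A : Set (HeightOneSpectrum (𝓞 K))) c u := by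
  have htt := (tau_facts τ hQ).1
  obtain ⟨α, hα⟩ := hilbert90 hQ hu.2
  obtain ⟨x, y, hx, hy, hxy⟩ := exists_frac α
  have hsx : sig τ x ≠ 0 := fun h => hx ((sig τ).map_eq_zero_iff.1 h)
  have hsy : sig τ y ≠ 0 := fun h => hy ((sig τ).map_eq_zero_iff.1 h)
  have hxK : (x : K) ≠ 0 := fun h => hx (RingOfIntegers.ext h)
  have hyK : (y : K) ≠ 0 := fun h => hy (RingOfIntegers.ext h)
  have hτ : τ (α : K) * τ (y : K) = τ (x : K) := by rw [← map_mul, hxy]
  have hατ : τ (α : K) ≠ 0 := by
    rw [← coe_act]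
    exact Units.ne_zero _
  -- the unit `u = x τ y / (y τ x)`
  obtain ⟨b, b', hb, hb', hbb⟩ := exists_isB_of_mem hu.1 (s := x * sig τ y) (t := y * sig τ x)
    (mul_ne_zero hx hsy) (mul_ne_zero hy hsx) (by
      rw [hα, Units.val_div_eq_div_val, coe_act]
      show (α : K) / τ (α : K) * ((y : K) * τ (x : K)) = (x : K) * τ (y : K)
      rw [← hτ, ← hxy]
      field_simp)
  have hI0 : Ideal.span {y * sig τ x} ≠ (0 : Ideal (𝓞 K)) := by
    rw [Ne, Ideal.zero_eq_bot, Ideal.span_singleton_eq_bot]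
    exact mul_ne_zero hy hsx
  have hσI : (Ideal.span {y * sig τ x}).map (sg τ) * b = Ideal.span {y * sig τ x} * b' := by
    rw [map_span_sg, map_mul, sg_sg hQ, mul_comm (sig τ y) x]
    exact hbb
  obtain ⟨J, hJ, c, c', hc, hc', hJc⟩ := descend hLoc hQ hA hunr _ _ rfl hI0 b b' hb hb' hσI
  -- the element `α / N(x)`
  have hnx : actK τ (Units.mk0 ((x * sig τ x : 𝓞 K) : K)
      (fun h => (mul_ne_zero hx hsx) (RingOfIntegers.ext h))) =
      Units.mk0 ((x * sig τ x : 𝓞 K) : K) (fun h => (mul_ne_zero hx hsx) (RingOfIntegers.ext h)) := by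
    apply Units.ext
    rw [coe_act, Units.val_mk0]
    show τ ((x : K) * τ (x : K)) = (x : K) * τ (x : K)
    rw [map_mul, htt, mul_comm]
  refine ⟨ClassGroup.mk0 ⟨J, mem_nonZeroDivisors_of_ne_zero hJ⟩,
    ⟨J, mem_nonZeroDivisors_of_ne_zero hJ⟩,
    α / Units.mk0 ((x * sig τ x : 𝓞 K) : K) (fun h => (mul_ne_zero hx hsx) (RingOfIntegers.ext h)),
    x, y * (x * sig τ x), c', c, rfl, hx, mul_ne_zero hy (mul_ne_zero hx hsx), ?_, hc', hc, ?_, ?_⟩
  · rw [Units.val_div_eq_div_val, Units.val_mk0]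
    show (α : K) / ((x : K) * τ (x : K)) * ((y : K) * ((x : K) * τ (x : K))) = (x : K)
    have h1 : τ (x : K) ≠ 0 := by
      intro h
      exact hsx (RingOfIntegers.ext h)
    field_simp
    exact hxy
  · show Ideal.span {x} * J.map (algebraMap (𝓞 F) (𝓞 K)) * c = Ideal.span {y * (x * sig τ x)} * c'
    rw [mul_assoc, hJc, ← mul_assoc, Ideal.span_singleton_mul_span_singleton]
    congr 2
    rw [Set.singleton_eq_singleton_iff]
    ring
  · rw [hα, map_div, hnx, div_div_div_cancel_right]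

end quad

end Pool.Agent.Helper9.RS
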