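import Pool.Agent.Helper9.RS.Chev1
import Pool.Graph.R_pool_sql_team_seeded_5cf16337.K3h17.E2.Rank

/-!
# Unramified quadratic extensions: Herbrand quotient
-/

set_option autoImplicit false
set_option linter.unusedSectionVars false

open NumberField IsDedekindDomain
open scoped nonZeroDivisors

noncomputable section

namespace Pool.Agent.Helper9.RS

open Pool.Agent.K3h30.RS Pool.Agent.K3h56.E2 Pool.Agent.K3h92.E2

section group

variable {M : Type} [CommGroup M]

theorem comap_relIndex (φ : M →* M) (U Q R : Subgroup M) (h : Q.comap φ ⊓ U = R) :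
    Q.relIndex (U.map φ) = R.relIndex U := by
  rw [← Subgroup.relIndex_comap, ← h, Subgroup.inf_relIndex_right]

/-- the Herbrand quotient of a group with an involution -/
theorem herbrand (τ : M →* M) (htt : ∀ x, τ (τ x) = x) (U P N : Subgroup M)
    (hU : ∀ x ∈ U, τ x ∈ U) (hP : ∀ x, x ∈ P ↔ x ∈ U ∧ τ x = x)
    (hN : ∀ x, x ∈ N ↔ x ∈ U ∧ τ x = x⁻¹) :
    (U.map (MonoidHom.id M / τ)).relIndex N * (P.map (powMonoidHom 2)).relIndex P =
      (U.map (MonoidHom.id M * τ)).relIndex P * (N.map (powMonoidHom 2)).relIndex N := by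
  have hWP : U.map (MonoidHom.id M * τ) ≤ P := by
    rintro _ ⟨x, hx, rfl⟩
    rw [hP]
    refine ⟨U.mul_mem hx (hU x hx), ?_⟩
    show τ (x * τ x) = x * τ x
    rw [map_mul, htt, mul_comm]
  have hVN : U.map (MonoidHom.id M / τ) ≤ N := by
    rintro _ ⟨x, hx, rfl⟩
    rw [hN]
    refine ⟨U.div_mem hx (hU x hx), ?_⟩
    show τ (x / τ x) = (x / τ x)⁻¹
    rw [map_div, htt, inv_div]
  have hPW : P.map (powMonoidHom 2) ≤ U.map (MonoidHom.id M * τ) := by
    rintro _ ⟨x, hx, rfl⟩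
    refine ⟨x, ((hP x).1 hx).1, ?_⟩
    show x * τ x = x ^ 2
    rw [((hP x).1 hx).2, pow_two]
  have hNV : N.map (powMonoidHom 2) ≤ U.map (MonoidHom.id M / τ) := by
    rintro _ ⟨x, hx, rfl⟩
    refine ⟨x, ((hN x).1 hx).1, ?_⟩
    show x / τ x = x ^ 2
    rw [((hN x).1 hx).2, div_inv_eq_mul, pow_two]
  have c1 : (P.map (powMonoidHom 2)).comap (MonoidHom.id M * τ) ⊓ U = P ⊔ N := by
    apply le_antisymm
    · rintro x ⟨⟨p, hp, hpx⟩, hxU⟩
      have hp' := (hP p).1 hp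
      have hpx' : p ^ 2 = x * τ x := hpx
      have h1 : x / p ∈ N := by
        rw [hN]
        refine ⟨U.div_mem hxU hp'.1, ?_⟩
        rw [map_div, hp'.2, inv_div]
        rw [div_eq_div_iff_mul_eq_mul, mul_comm, ← hpx', pow_two]
      have h2 : x = p * (x / p) := (mul_div_cancel p x).symm
      rw [h2]
      exact Subgroup.mul_mem_sup hp h1
    · refine sup_le ?_ ?_
      · intro p hp
        have hp' := (hP p).1 hp
        refine ⟨⟨p, hp, ?_⟩, hp'.1⟩
        show p ^ 2 = p * τ p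
        rw [hp'.2, pow_two]
      · intro p hp
        have hp' := (hN p).1 hp
        refine ⟨?_, hp'.1⟩
        show p * τ p ∈ P.map (powMonoidHom 2)
        rw [hp'.2, mul_inv_cancel]
        exact Subgroup.one_mem _
  have c2 : (N.map (powMonoidHom 2)).comap (MonoidHom.id M / τ) ⊓ U = P ⊔ N := by
    apply le_antisymm
    · rintro x ⟨⟨p, hp, hpx⟩, hxU⟩
      have hp' := (hN p).1 hp
      have hpx' : p ^ 2 = x / τ x := hpx
      have h1 : x / p ∈ P := by
        rw [hP]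
        refine ⟨U.div_mem hxU hp'.1, ?_⟩
        rw [map_div, hp'.2, div_inv_eq_mul, eq_div_iff_mul_eq', mul_assoc, ← pow_two, hpx',
          mul_div_cancel]
      have h2 : x = (x / p) * p := (div_mul_cancel x p).symm
      rw [h2]
      exact Subgroup.mul_mem_sup h1 hp
    · refine sup_le ?_ ?_
      · intro p hp
        have hp' := (hP p).1 hp
        refine ⟨?_, hp'.1⟩
        show p / τ p ∈ N.map (powMonoidHom 2)
        rw [hp'.2, div_self']
        exact Subgroup.one_mem _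
      · intro p hp
        have hp' := (hN p).1 hp
        refine ⟨⟨p, hp, ?_⟩, hp'.1⟩
        show p ^ 2 = p / τ p
        rw [hp'.2, div_inv_eq_mul, pow_two]
  have d1 := comap_relIndex _ _ _ _ c1
  have d2 := comap_relIndex _ _ _ _ c2
  have e1 := Subgroup.relIndex_mul_relIndex _ _ _ hPW hWP
  have e2 := Subgroup.relIndex_mul_relIndex _ _ _ hNV hVN
  rw [← e1, ← e2, d1, d2]
  ring

end group

section quad

variable {F K : Type} [Field F] [NumberField F] [Field K] [NumberField K] [Algebra F K]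

/-- the multiplicative inverse of the relation -/
theorem rel_inv {τ : K ≃ₐ[F] K} (A : Set (HeightOneSpectrum (𝓞 K))) (c : ClassGroup (𝓞 F))
    (m : Kˣ) (h : Rel τ A c m) : Rel τ A c⁻¹ m⁻¹ := by
  obtain ⟨J, α, x, y, b, b', h1, hx, hy, hxy, hb, hb', he, hm⟩ := h
  obtain ⟨J', hJ'⟩ := ClassGroup.mk0_surjective (c⁻¹ : ClassGroup (𝓞 F))
  -- `J J' = (n)`
  have h2 : ClassGroup.mk0 (J * J') = 1 := by rw [map_mul, h1, hJ', mul_inv_cancel]
  have h3 := (ClassGroup.mk0_eq_one_iff (J * J').2).1 h2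
  obtain ⟨n, hn⟩ := h3
  have hJJ : ((J : Ideal (𝓞 F)) * (J' : Ideal (𝓞 F))) = Ideal.span {n} := by
    rw [← Submonoid.coe_mul]
    exact hn
  have hn0 : n ≠ 0 := by
    rintro rfl
    rw [Ideal.span_singleton_eq_bot.2 rfl] at hJJ
    exact nonZeroDivisors.ne_zero (J * J').2 hJJ
  set n' := algebraMap (𝓞 F) (𝓞 K) n with hn'
  have hn'0 : n' ≠ 0 := fun h => hn0 (alg_inj (by rw [← hn', h, map_zero]))
  have hnK : (n' : K) ≠ 0 := fun h => hn'0 (RingOfIntegers.ext h)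
  have hxK : (x : K) ≠ 0 := fun h => hx (RingOfIntegers.ext h)
  have hyK : (y : K) ≠ 0 := fun h => hy (RingOfIntegers.ext h)
  refine ⟨J', (α * Units.mk0 (n' : K) hnK)⁻¹, y, x * n', b', b, hJ', hy, mul_ne_zero hx hn'0, ?_,
    hb', hb, ?_, ?_⟩
  · rw [Units.val_inv_eq_inv_val, Units.val_mul, Units.val_mk0]
    show ((α : K) * (n' : K))⁻¹ * ((x : K) * (n' : K)) = (y : K)
    rw [← hxy]
    have := α.ne_zero
    field_simp
  · have h4 : (J : Ideal (𝓞 F)).map (algebraMap (𝓞 F) (𝓞 K)) ≠ 0 :=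
      map_alg_ne (nonZeroDivisors.ne_zero J.2)
    apply mul_left_cancel₀ h4
    have h5 := congrArg (Ideal.map (algebraMap (𝓞 F) (𝓞 K))) hJJ
    rw [Ideal.map_mul, Ideal.map_span, Set.image_singleton, ← hn'] at h5
    rw [← Ideal.span_singleton_mul_span_singleton]
    calc (J : Ideal (𝓞 F)).map (algebraMap (𝓞 F) (𝓞 K)) *
          (Ideal.span {y} * (J' : Ideal (𝓞 F)).map (algebraMap (𝓞 F) (𝓞 K)) * b) =
          ((J : Ideal (𝓞 F)).map (algebraMap (𝓞 F) (𝓞 K)) *
            (J' : Ideal (𝓞 F)).map (algebraMap (𝓞 F) (𝓞 K))) * (Ideal.span {y} * b) := by ring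
      _ = Ideal.span {n'} * (Ideal.span {x} *
            (J : Ideal (𝓞 F)).map (algebraMap (𝓞 F) (𝓞 K)) * b') := by rw [h5, he]
      _ = _ := by ring
  · have h6 : actK τ (Units.mk0 (n' : K) hnK) = Units.mk0 (n' : K) hnK := by
      apply Units.ext
      rw [coe_act, Units.val_mk0]
      exact congrArg (fun z : 𝓞 K => (z : K)) (sig_alg τ n)
    rw [hm, map_inv, map_mul, h6, inv_div_inv, mul_div_mul_right_eq_div, inv_div]

/-- the minus part modulo the `x / τ x` embeds in the capitulation kernel -/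
theorem minus_dvd (hLoc : S_LOC) {τ : K ≃ₐ[F] K} (hQ : Quad F K τ)
    {S : Finset (HeightOneSpectrum (𝓞 F))} {A : Finset (HeightOneSpectrum (𝓞 K))}
    (hA : Over S A) (hunr : ∀ v : HeightOneSpectrum (𝓞 F), v ∉ S →
      Squarefree (v.asIdeal.map (algebraMap (𝓞 F) (𝓞 K)))) :
    ((SU K (A : Set (HeightOneSpectrum (𝓞 K)))).map ((MonoidHom.id Kˣ) / actK τ)).relIndex
        (SU K (A : Set (HeightOneSpectrum (𝓞 K))) ⊓ minus τ) ∣
      (CA (S : Set (HeightOneSpectrum (𝓞 F)))).relIndex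
        ((CA (A : Set (HeightOneSpectrum (𝓞 K)))).comap (ClassGroup.extendedHom (𝓞 F) (𝓞 K))) := by
  refine relIndex_dvd _ _ _ _ (fun u c => Rel τ (A : Set (HeightOneSpectrum (𝓞 K))) c u)
    (fun u hu => rel_of_minus hLoc hQ hA hunr hu) (fun u c u' c' h h' => rel_mul τ _ c u c' u' h h')
    ?_ ?_ ?_
  · rintro u c ⟨J, α, x, y, b, b', h1, hx, hy, hxy, hb, hb', he, hm⟩
    rw [Subgroup.mem_comap, ← h1, ClassGroup.extendedHom_mk0]
    have hb0 : b ∈ (Ideal (𝓞 K))⁰ := mem_nonZeroDivisors_of_ne_zero hb.1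
    have hb0' : b' ∈ (Ideal (𝓞 K))⁰ := mem_nonZeroDivisors_of_ne_zero hb'.1
    have hJ0 : (J : Ideal (𝓞 F)).map (algebraMap (𝓞 F) (𝓞 K)) ∈ (Ideal (𝓞 K))⁰ :=
      mem_nonZeroDivisors_of_ne_zero (map_alg_ne (nonZeroDivisors.ne_zero J.2))
    have h2 : ClassGroup.mk0 (⟨_, hJ0⟩ * ⟨b', hb0'⟩ : (Ideal (𝓞 K))⁰) =
        ClassGroup.mk0 (⟨b, hb0⟩ : (Ideal (𝓞 K))⁰) := by
      rw [ClassGroup.mk0_eq_mk0_iff]
      refine ⟨x, y, hx, hy, ?_⟩
      rw [Submonoid.coe_mul, ← mul_assoc]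
      exact he
    rw [map_mul] at h2
    have h3 : ClassGroup.mk0 (⟨_, hJ0⟩ : (Ideal (𝓞 K))⁰) =
        ClassGroup.mk0 (⟨b, hb0⟩ : (Ideal (𝓞 K))⁰) / ClassGroup.mk0 (⟨b', hb0'⟩ : (Ideal (𝓞 K))⁰) :=
      eq_div_of_mul_eq' h2
    rw [h3]
    exact Subgroup.div_mem _ (cls_mem b hb hb0) (cls_mem b' hb' hb0')
  · intro u c c' h h'
    have h1 := rel_mul τ _ _ _ _ _ (rel_inv _ c u h) h'
    rw [inv_mul_cancel] at h1
    exact rel_ker τ hQ hA _ 1 h1 (Subgroup.one_mem _)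
  · intro u c h hc
    -- `c` has a representative with prime divisors in `S`
    obtain ⟨J, hJ, hJB, rfl⟩ := exists_rep hc
    have h1 : Rel τ (A : Set (HeightOneSpectrum (𝓞 K))) (ClassGroup.mk0 ⟨J, hJ⟩) 1 := by
      refine ⟨⟨J, hJ⟩, 1, 1, 1, J.map (algebraMap (𝓞 F) (𝓞 K)), 1, rfl, one_ne_zero, one_ne_zero,
        ?_, ?_, isB_one _, ?_, ?_⟩
      · rw [Units.val_one, one_mul]
      · refine ⟨map_alg_ne hJB.1, fun P hP => ?_⟩
        obtain ⟨v, hv⟩ := Pool.Agent.K3h77.E2.exists_under (F := F) P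
        refine (hA P).2 ⟨v, hJB.2 v ?_, hv⟩
        rw [Ideal.dvd_iff_le, Ideal.map_le_iff_le_comap, above_singleton.1 hv] at hP
        exact Ideal.dvd_iff_le.2 hP
      · rw [mul_one]
      · rw [map_one, div_one]
    have h2 := rel_uniq τ _ _ _ _ h1 h
    rwa [inv_one, one_mul] at h2

/-- the `S`-units of `F` in `K` -/
theorem plus_iff {τ : K ≃ₐ[F] K} (hQ : Quad F K τ)
    {S : Finset (HeightOneSpectrum (𝓞 F))} {A : Finset (HeightOneSpectrum (𝓞 K))}
    (hA : Over S A) (x : Kˣ) :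
    x ∈ (SU F (S : Set (HeightOneSpectrum (𝓞 F)))).map (Pool.Agent.K3h77.E2.inc F K) ↔
      x ∈ SU K (A : Set (HeightOneSpectrum (𝓞 K))) ∧ actK τ x = x := by
  constructor
  · rintro ⟨y, hy, rfl⟩
    refine ⟨(Pool.Agent.K3h77.E2.inc_mem hA y).2 hy, ?_⟩
    apply Units.ext
    exact τ.commutes (y : F)
  · rintro ⟨h1, h2⟩
    obtain ⟨y, hy⟩ := (tau_facts τ hQ).2 (x : K) (congrArg Units.val h2)
    have hy0 : y ≠ 0 := by
      rintro rfl
      rw [map_zero] at hy
      exact x.ne_zero hy.symm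
    have h3 : Pool.Agent.K3h77.E2.inc F K (Units.mk0 y hy0) = x := Units.ext hy
    refine ⟨Units.mk0 y hy0, ?_, h3⟩
    apply (Pool.Agent.K3h77.E2.inc_mem hA (Units.mk0 y hy0)).1
    rw [h3]
    exact h1

/-- the Herbrand quotient of the units if all places of `S` split -/
theorem herbrand_units {τ : K ≃ₐ[F] K} (hQ : Quad F K τ)
    {S : Finset (HeightOneSpectrum (𝓞 F))} {A : Finset (HeightOneSpectrum (𝓞 K))}
    (hA : Over S A)
    (hcard : Fintype.card (InfinitePlace K) + A.card =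
      2 * (Fintype.card (InfinitePlace F) + S.card)) :
    ((SU K (A : Set (HeightOneSpectrum (𝓞 K)))).map ((MonoidHom.id Kˣ) / actK τ)).relIndex
        (SU K (A : Set (HeightOneSpectrum (𝓞 K))) ⊓ minus τ) =
      2 * ((SU K (A : Set (HeightOneSpectrum (𝓞 K)))).map ((MonoidHom.id Kˣ) * actK τ)).relIndex
        ((SU F (S : Set (HeightOneSpectrum (𝓞 F)))).map (Pool.Agent.K3h77.E2.inc F K)) := by
  have h := herbrand (actK τ) (fun x => Units.ext ((tau_facts τ hQ).1 _))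
    (SU K (A : Set (HeightOneSpectrum (𝓞 K))))
    ((SU F (S : Set (HeightOneSpectrum (𝓞 F)))).map (Pool.Agent.K3h77.E2.inc F K))
    (SU K (A : Set (HeightOneSpectrum (𝓞 K))) ⊓ minus τ)
    (fun x hx => Pool.Agent.K3h77.E2.act_mem hA x hx) (plus_iff hQ hA) (fun x => Iff.rfl)
  have h1 := Pool.Agent.K3h17.E2.t_RANK F K τ hQ S A hA (Fintype.card (InfinitePlace F) + S.card)
    (by omega)
  have h2 := Pool.Agent.K3h17.E2.t_RANK1 F S
  have h3 : (((SU F (S : Set (HeightOneSpectrum (𝓞 F)))).map (Pool.Agent.K3h77.E2.inc F K)).map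
      (powMonoidHom 2)).relIndex
        ((SU F (S : Set (HeightOneSpectrum (𝓞 F)))).map (Pool.Agent.K3h77.E2.inc F K)) =
      2 ^ (Fintype.card (InfinitePlace F) + S.card) := by
    rw [← h2, Subgroup.map_map]
    have h4 : (powMonoidHom 2 : Kˣ →* Kˣ).comp (Pool.Agent.K3h77.E2.inc F K) =
        (Pool.Agent.K3h77.E2.inc F K).comp (powMonoidHom 2) := by
      ext x
      simp
    rw [h4, ← Subgroup.map_map, Subgroup.relIndex_map_map_of_injective _ _
      Pool.Agent.K3h77.E2.inc_inj]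
  rw [h1, h3, pow_succ, ← mul_assoc] at h
  have h5 : 0 < 2 ^ (Fintype.card (InfinitePlace F) + S.card) := by positivity
  have h6 : (2 ^ (Fintype.card (InfinitePlace F) + S.card)) *
      ((SU K (A : Set (HeightOneSpectrum (𝓞 K)))).map ((MonoidHom.id Kˣ) / actK τ)).relIndex
        (SU K (A : Set (HeightOneSpectrum (𝓞 K))) ⊓ minus τ) =
      (2 ^ (Fintype.card (InfinitePlace F) + S.card)) * (2 *
        ((SU K (A : Set (HeightOneSpectrum (𝓞 K)))).map ((MonoidHom.id Kˣ) * actK τ)).relIndex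
        ((SU F (S : Set (HeightOneSpectrum (𝓞 F)))).map (Pool.Agent.K3h77.E2.inc F K))) := by
    rw [mul_comm, h]
    ring
  exact Nat.eq_of_mul_eq_mul_left h5 h6

end quad

end Pool.Agent.Helper9.RS
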