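import Pool.Agent.Helper9.RS.Chev2
import Mathlib.RingTheory.Ideal.Norm.RelNorm

/-!
# Unramified quadratic extensions: norms of classes
-/

set_option autoImplicit false
set_option linter.unusedSectionVars false

open NumberField IsDedekindDomain
open scoped nonZeroDivisors

noncomputable section

namespace Pool.Agent.Helper9.RS

open Pool.Agent.K3h30.RS Pool.Agent.K3h56.E2 Pool.Agent.K3h92.E2

/-- the counting argument -/
theorem count_groups {C C₀ : Type} [CommGroup C] [CommGroup C₀] [Finite C] [Finite C₀]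
    (j : C₀ →* C) (N : C →* C₀) (s : C →* C) (A : Subgroup C) (S : Subgroup C₀) (w : ℕ)
    (hNs : ∀ c, N (s c) = N c) (hNA : ∀ c ∈ A, N c ∈ S) (hsj : ∀ c, s (j c) = j c)
    (hsA : ∀ c ∈ A, s c ∈ A) (hjS : ∀ c ∈ S, j c ∈ A)
    (h1 : (j.range ⊔ A).relIndex (A.comap (MonoidHom.id C / s)) ∣ w)
    (h2 : 2 * w ∣ S.relIndex (A.comap j)) : 2 ∣ (N.range ⊔ S).index := by
  have e1 : S.relIndex (N.range ⊔ S) * (N.range ⊔ S).index = S.index :=
    Subgroup.relIndex_mul_index le_sup_right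
  have e2 : S.relIndex (N.range ⊔ S) = (S.comap N).index := by
    rw [Subgroup.relIndex_sup_right, Subgroup.index_comap]
  have e3 : (S.comap N).index ∣ ((MonoidHom.id C / s).range ⊔ A).index := by
    apply Subgroup.index_dvd_of_le
    refine sup_le ?_ ?_
    · rintro _ ⟨c, rfl⟩
      rw [Subgroup.mem_comap]
      have : N (c / s c) = 1 := by rw [map_div, hNs, div_self']
      show N (c / s c) ∈ S
      rw [this]
      exact S.one_mem
    · intro c hc
      exact hNA c hc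
  have hAE : A ≤ A.comap (MonoidHom.id C / s) := fun c hc => A.div_mem hc (hsA c hc)
  have e4 : (A.comap (MonoidHom.id C / s)).index =
      A.relIndex ((MonoidHom.id C / s).range ⊔ A) := by
    rw [Subgroup.relIndex_sup_right, Subgroup.index_comap]
  have e5 : A.relIndex ((MonoidHom.id C / s).range ⊔ A) *
      ((MonoidHom.id C / s).range ⊔ A).index = A.index := Subgroup.relIndex_mul_index le_sup_right
  have e6 : A.relIndex (A.comap (MonoidHom.id C / s)) * (A.comap (MonoidHom.id C / s)).index =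
      A.index := Subgroup.relIndex_mul_index hAE
  have e7 : ((MonoidHom.id C / s).range ⊔ A).index = A.relIndex (A.comap (MonoidHom.id C / s)) := by
    rw [← e5, ← e4, mul_comm] at e6
    exact (Nat.eq_of_mul_eq_mul_left (Nat.pos_of_ne_zero Subgroup.FiniteIndex.index_ne_zero)
      e6).symm
  have hBE : j.range ⊔ A ≤ A.comap (MonoidHom.id C / s) := by
    refine sup_le ?_ hAE
    rintro _ ⟨c, rfl⟩
    show j c / s (j c) ∈ A
    rw [hsj, div_self']
    exact A.one_mem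
  have e8 : A.relIndex (j.range ⊔ A) * (j.range ⊔ A).relIndex (A.comap (MonoidHom.id C / s)) =
      A.relIndex (A.comap (MonoidHom.id C / s)) :=
    Subgroup.relIndex_mul_relIndex _ _ _ le_sup_right hBE
  have e9 : A.relIndex (j.range ⊔ A) = (A.comap j).index := by
    rw [Subgroup.relIndex_sup_right, Subgroup.index_comap]
  have e10 : S.relIndex (A.comap j) * (A.comap j).index = S.index :=
    Subgroup.relIndex_mul_index fun c hc => hjS c hc
  have hpos : 0 < (S.comap N).index := Nat.pos_of_ne_zero Subgroup.FiniteIndex.index_ne_zero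
  rw [e2] at e1
  rw [e7, ← e8, e9] at e3
  obtain ⟨m, hm⟩ := e3
  obtain ⟨l, hl⟩ := h1
  obtain ⟨k, hk⟩ := h2
  have h3 : (S.comap N).index * (N.range ⊔ S).index = (S.comap N).index * (2 * (k * l * m)) := by
    rw [e1, ← e10, hk]
    calc 2 * w * k * (A.comap j).index = 2 * (k * (l *
          ((A.comap j).index * (j.range ⊔ A).relIndex (A.comap (MonoidHom.id C / s))))) := by
          rw [hl]; ring
      _ = _ := by rw [hm]; ring
  exact ⟨_, Nat.eq_of_mul_eq_mul_left hpos h3⟩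

section lift

variable {R R' : Type} [CommRing R] [IsDedekindDomain R] [CommRing R'] [IsDedekindDomain R']

/-- a homomorphism of the class groups from one of the ideals -/
theorem exists_cls_hom (f : Ideal R →* Ideal R') (hf : ∀ I, I ≠ 0 → f I ≠ 0)
    (hp : ∀ x : R, ∃ y : R', f (Ideal.span {x}) = Ideal.span {y}) :
    ∃ g : ClassGroup R →* ClassGroup R', ∀ (I : Ideal R) (hI : I ∈ (Ideal R)⁰)
      (hfI : f I ∈ (Ideal R')⁰), g (ClassGroup.mk0 ⟨I, hI⟩) = ClassGroup.mk0 ⟨f I, hfI⟩ := by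
  have key : ∀ (I J : (Ideal R)⁰) (hI : f I ∈ (Ideal R')⁰) (hJ : f J ∈ (Ideal R')⁰),
      ClassGroup.mk0 I = ClassGroup.mk0 J →
      ClassGroup.mk0 ⟨f I, hI⟩ = ClassGroup.mk0 ⟨f J, hJ⟩ := by
    intro I J hI hJ h
    obtain ⟨x, y, hx, hy, he⟩ := ClassGroup.mk0_eq_mk0_iff.1 h
    obtain ⟨x', hx'⟩ := hp x
    obtain ⟨y', hy'⟩ := hp y
    have hne : ∀ (z : R) (z' : R'), z ≠ 0 → f (Ideal.span {z}) = Ideal.span {z'} → z' ≠ 0 := by
      rintro z z' hz hz' rfl
      refine hf (Ideal.span {z}) ?_ ?_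
      · rw [Ne, Ideal.zero_eq_bot, Ideal.span_singleton_eq_bot]; exact hz
      · rw [hz']; exact Ideal.span_singleton_eq_bot.2 rfl
    refine ClassGroup.mk0_eq_mk0_iff.2 ⟨x', y', hne _ _ hx hx', hne _ _ hy hy', ?_⟩
    show Ideal.span {x'} * f I = Ideal.span {y'} * f J
    rw [← hx', ← hy', ← map_mul, ← map_mul, he]
  choose rep hrep using (ClassGroup.mk0_surjective (R := R))
  have hmem : ∀ I : (Ideal R)⁰, f I ∈ (Ideal R')⁰ := fun I =>
    mem_nonZeroDivisors_of_ne_zero (hf _ (nonZeroDivisors.ne_zero I.2))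
  refine ⟨MonoidHom.mk' (fun c => ClassGroup.mk0 ⟨f (rep c), hmem (rep c)⟩) ?_, ?_⟩
  · intro a b
    have h1 : (⟨f (rep a), hmem (rep a)⟩ : (Ideal R')⁰) * ⟨f (rep b), hmem (rep b)⟩ =
        ⟨f ((rep a * rep b : (Ideal R)⁰) : Ideal R), hmem (rep a * rep b)⟩ := by
      apply Subtype.ext
      show f (rep a) * f (rep b) = f ((rep a : Ideal R) * (rep b : Ideal R))
      rw [map_mul]
    rw [← map_mul, h1]
    apply key
    rw [hrep, map_mul, hrep, hrep]
  · intro I hI hfI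
    exact key (rep (ClassGroup.mk0 ⟨I, hI⟩)) ⟨I, hI⟩ _ _ (hrep _)

end lift

section quad

variable {F K : Type} [Field F] [NumberField F] [Field K] [NumberField K] [Algebra F K]

/-- the action of `τ` on the ideal classes -/
theorem exists_sigC (τ : K ≃ₐ[F] K) : ∃ s : ClassGroup (𝓞 K) →* ClassGroup (𝓞 K),
    ∀ (I : Ideal (𝓞 K)) (hI : I ∈ (Ideal (𝓞 K))⁰) (hfI : I.map (sg τ) ∈ (Ideal (𝓞 K))⁰),
      s (ClassGroup.mk0 ⟨I, hI⟩) = ClassGroup.mk0 ⟨I.map (sg τ), hfI⟩ :=
  exists_cls_hom (Ideal.mapHom (sg τ) : Ideal (𝓞 K) →* Ideal (𝓞 K)) (fun _ h => map_sg_ne h)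
    (fun x => ⟨sig τ x, map_span_sg τ x⟩)

/-- the norm of the ideals -/
def relN (F K : Type) [Field F] [NumberField F] [Field K] [NumberField K] [Algebra F K] :
    Ideal (𝓞 K) →* Ideal (𝓞 F) := (Ideal.relNorm (𝓞 F) : Ideal (𝓞 K) →*₀ Ideal (𝓞 F))

theorem relN_apply (I : Ideal (𝓞 K)) : relN F K I = Ideal.relNorm (𝓞 F) I := rfl

theorem relN_bot (I : Ideal (𝓞 K)) (h : relN F K I = 0) : I = 0 := by
  rw [relN_apply] at h
  exact Ideal.relNorm_eq_bot_iff.1 h

theorem relN_span (x : 𝓞 K) : ∃ y : 𝓞 F, relN F K (Ideal.span {x}) = Ideal.span {y} := by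
  refine ⟨Algebra.intNorm (𝓞 F) (𝓞 K) x, ?_⟩
  rw [relN_apply]
  exact Ideal.relNorm_singleton (𝓞 F) x

/-- the norm of the ideal classes -/
theorem exists_normC (F K : Type) [Field F] [NumberField F] [Field K] [NumberField K]
    [Algebra F K] : ∃ N : ClassGroup (𝓞 K) →* ClassGroup (𝓞 F),
    ∀ (I : Ideal (𝓞 K)) (hI : I ∈ (Ideal (𝓞 K))⁰) (hfI : relN F K I ∈ (Ideal (𝓞 F))⁰),
      N (ClassGroup.mk0 ⟨I, hI⟩) = ClassGroup.mk0 ⟨relN F K I, hfI⟩ :=
  exists_cls_hom (relN F K) (fun I h h0 => h (relN_bot I h0)) relN_span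

theorem relNorm_sg (τ : K ≃ₐ[F] K) (I : Ideal (𝓞 K)) :
    relN F K (I.map (sg τ)) = relN F K I := by
  rw [relN_apply, relN_apply]
  let e : 𝓞 K ≃ₐ[𝓞 F] 𝓞 K := AlgEquiv.ofRingEquiv (f := sig τ) (fun x => sig_alg τ x)
  exact Ideal.relNorm_map_algEquiv e I

theorem relNorm_prime {v : HeightOneSpectrum (𝓞 F)} {P : HeightOneSpectrum (𝓞 K)}
    (h : Above {v} P) : ∃ n : ℕ, relN F K P.asIdeal = v.asIdeal ^ n := by
  have : P.asIdeal.LiesOver v.asIdeal := ⟨(above_singleton.1 h).symm⟩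
  have := v.isPrime
  exact Ideal.exists_relNorm_eq_pow_of_isPrime P.asIdeal v.asIdeal

theorem relNorm_split {v : HeightOneSpectrum (𝓞 F)} {P : HeightOneSpectrum (𝓞 K)}
    (h : Above {v} P) (hN : Ideal.absNorm P.asIdeal = Ideal.absNorm v.asIdeal) :
    relN F K P.asIdeal = v.asIdeal := by
  obtain ⟨n, hn⟩ := relNorm_prime h
  have h1 : Ideal.absNorm (relN F K P.asIdeal) = Ideal.absNorm P.asIdeal :=
    Ideal.absNorm_relNorm (𝓞 F) (𝓞 K) P.asIdeal
  rw [hn, map_pow, hN] at h1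
  have h2 : 1 < Ideal.absNorm v.asIdeal := by
    have h3 : Ideal.absNorm v.asIdeal ≠ 0 := by
      rw [Ne, Ideal.absNorm_eq_zero_iff]; exact v.ne_bot
    have h4 : Ideal.absNorm v.asIdeal ≠ 1 := by
      rw [Ne, Ideal.absNorm_eq_one_iff]; exact v.isPrime.ne_top
    omega
  have h5 : n = 1 := by
    have := Nat.pow_right_injective h2 (show Ideal.absNorm v.asIdeal ^ n =
      Ideal.absNorm v.asIdeal ^ 1 by rw [h1, pow_one])
    exact this
  rw [hn, h5, pow_one]

end quad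

end Pool.Agent.Helper9.RS
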