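import Pool.Agent.Helper9.RS.Chev3

/-!
# Unramified quadratic extensions: the inequality
-/

set_option autoImplicit false
set_option linter.unusedSectionVars false

open NumberField IsDedekindDomain
open scoped nonZeroDivisors

noncomputable section

namespace Pool.Agent.Helper9.RS

open Pool.Agent.K3h30.RS Pool.Agent.K3h56.E2 Pool.Agent.K3h92.E2

section quad

variable {F K : Type} [Field F] [NumberField F] [Field K] [NumberField K] [Algebra F K]

/-- the relation between the ambiguous classes and the norms -/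
def Rel2 (τ : K ≃ₐ[F] K) (A : Set (HeightOneSpectrum (𝓞 K))) (c : ClassGroup (𝓞 K)) (m : Kˣ) :
    Prop :=
  ∃ (I : (Ideal (𝓞 K))⁰) (β : Kˣ) (x y : 𝓞 K) (b b' : Ideal (𝓞 K)), ClassGroup.mk0 I = c ∧
    x ≠ 0 ∧ y ≠ 0 ∧ (β : K) * (x : K) = (y : K) ∧ IsB A b ∧ IsB A b' ∧
    Ideal.span {x} * (I : Ideal (𝓞 K)) * b = Ideal.span {y} * (I : Ideal (𝓞 K)).map (sg τ) * b' ∧
    m = β * actK τ β

theorem rel2_mul (τ : K ≃ₐ[F] K) (A : Set (HeightOneSpectrum (𝓞 K))) (c : ClassGroup (𝓞 K))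
    (m : Kˣ) (c' : ClassGroup (𝓞 K)) (m' : Kˣ) (h : Rel2 τ A c m) (h' : Rel2 τ A c' m') :
    Rel2 τ A (c * c') (m * m') := by
  obtain ⟨J, α, x, y, b, b₁, h1, h2, h3, h4, h5, h6, h7, h8⟩ := h
  obtain ⟨J', α', x', y', b', b₁', h1', h2', h3', h4', h5', h6', h7', h8'⟩ := h'
  refine ⟨J * J', α * α', x * x', y * y', b * b', b₁ * b₁', by rw [map_mul, h1, h1'],
    mul_ne_zero h2 h2', mul_ne_zero h3 h3', ?_, isB_mul h5 h5', isB_mul h6 h6', ?_, ?_⟩
  · show (α : K) * (α' : K) * ((x : K) * (x' : K)) = (y : K) * (y' : K)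
    rw [← h4, ← h4']
    ring
  · rw [← Ideal.span_singleton_mul_span_singleton, ← Ideal.span_singleton_mul_span_singleton,
      Submonoid.coe_mul, Ideal.map_mul]
    calc _ = (Ideal.span {x} * (J : Ideal (𝓞 K)) * b) *
          (Ideal.span {x'} * (J' : Ideal (𝓞 K)) * b') := by ring
      _ = _ := by rw [h7, h7']; ring
  · rw [h8, h8', map_mul, mul_mul_mul_comm]

/-- the equation for the conjugates -/
theorem rel2_conj {τ : K ≃ₐ[F] K} (hQ : Quad F K τ) {I b b' : Ideal (𝓞 K)} {x y : 𝓞 K}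
    (h : Ideal.span {x} * I * b = Ideal.span {y} * I.map (sg τ) * b') :
    Ideal.span {sig τ x} * I.map (sg τ) * b.map (sg τ) =
      Ideal.span {sig τ y} * I * b'.map (sg τ) := by
  have e := congrArg (Ideal.map (sg τ)) h
  rw [Ideal.map_mul, Ideal.map_mul, Ideal.map_mul, Ideal.map_mul, map_span_sg, map_span_sg,
    map_sg_sg hQ] at e
  exact e

theorem rel2_mem {τ : K ≃ₐ[F] K} (hQ : Quad F K τ) {S : Finset (HeightOneSpectrum (𝓞 F))}
    {A : Finset (HeightOneSpectrum (𝓞 K))} (hA : Over S A) (c : ClassGroup (𝓞 K)) (m : Kˣ)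
    (h : Rel2 τ (A : Set (HeightOneSpectrum (𝓞 K))) c m) :
    m ∈ (SU F (S : Set (HeightOneSpectrum (𝓞 F)))).map (Pool.Agent.K3h77.E2.inc F K) := by
  obtain ⟨I, β, x, y, b, b₁, h1, h2, h3, h4, h5, h6, h7, h8⟩ := h
  obtain ⟨htt, -⟩ := tau_facts τ hQ
  have hinv : actK τ (actK τ β) = β := Units.ext (htt _)
  rw [plus_iff hQ hA]
  refine ⟨?_, ?_⟩
  · have hσ := rel2_conj hQ h7
    have hx0 : sig τ x ≠ 0 := fun h => h2 ((sig τ).map_eq_zero_iff.1 h)
    have hβ : τ (β : K) * τ (x : K) = τ (y : K) := by rw [← map_mul, h4]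
    refine mem_SU (s := y * sig τ y) (t := x * sig τ x) (mul_ne_zero h2 hx0) ?_
      (isB_mul h6 (isB_sig τ hA h6)) (isB_mul h5 (isB_sig τ hA h5)) ?_
    · rw [h8, Units.val_mul]
      show (β : K) * τ (β : K) * ((x : K) * τ (x : K)) = (y : K) * τ (y : K)
      rw [← hβ, ← h4]
      ring
    · have hI0 : (I : Ideal (𝓞 K)) * (I : Ideal (𝓞 K)).map (sg τ) ≠ 0 :=
        mul_ne_zero (nonZeroDivisors.ne_zero I.2) (map_sg_ne (nonZeroDivisors.ne_zero I.2))
      apply mul_left_cancel₀ hI0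
      rw [← Ideal.span_singleton_mul_span_singleton, ← Ideal.span_singleton_mul_span_singleton]
      calc _ = (Ideal.span {y} * (I : Ideal (𝓞 K)).map (sg τ) * b₁) *
            (Ideal.span {sig τ y} * (I : Ideal (𝓞 K)) * b₁.map (sg τ)) := by ring
        _ = _ := by rw [← hσ, ← h7]; ring
  · rw [h8, map_mul, hinv, mul_comm]

theorem rel2_uniq {τ : K ≃ₐ[F] K} (hQ : Quad F K τ) (A : Set (HeightOneSpectrum (𝓞 K)))
    (c : ClassGroup (𝓞 K))
    (m m' : Kˣ) (h : Rel2 τ A c m) (h' : Rel2 τ A c m') :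
    m⁻¹ * m' ∈ (SU K A).map ((MonoidHom.id Kˣ) * actK τ) := by
  obtain ⟨I, β, x, y, b, b₁, h1, h2, h3, h4, h5, h6, h7, h8⟩ := h
  obtain ⟨I', β', x', y', b', b₁', h1', h2', h3', h4', h5', h6', h7', h8'⟩ := h'
  obtain ⟨htt, -⟩ := tau_facts τ hQ
  obtain ⟨f₁, f₂, hf₁, hf₂, hf⟩ := ClassGroup.mk0_eq_mk0_iff.1 (h1.trans h1'.symm)
  have hσf := congrArg (Ideal.map (sg τ)) hf
  rw [Ideal.map_mul, Ideal.map_mul, map_span_sg, map_span_sg] at hσf
  have hs₁ : sig τ f₁ ≠ 0 := fun h => hf₁ ((sig τ).map_eq_zero_iff.1 h)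
  have hs₂ : sig τ f₂ ≠ 0 := fun h => hf₂ ((sig τ).map_eq_zero_iff.1 h)
  have k1 : (f₁ : K) ≠ 0 := fun h => hf₁ (RingOfIntegers.ext h)
  have k2 : (f₂ : K) ≠ 0 := fun h => hf₂ (RingOfIntegers.ext h)
  have t1 : τ (f₁ : K) ≠ 0 := fun h => hs₁ (RingOfIntegers.ext h)
  have t2 : τ (f₂ : K) ≠ 0 := fun h => hs₂ (RingOfIntegers.ext h)
  obtain ⟨γ, hγ⟩ : ∃ γ : Kˣ, (γ : K) = (f₁ : K) / (f₂ : K) :=
    ⟨Units.mk0 (f₁ : K) k1 / Units.mk0 (f₂ : K) k2, by
      rw [Units.val_div_eq_div_val, Units.val_mk0, Units.val_mk0]⟩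
  have hγτ : ((actK τ γ : Kˣ) : K) = τ (f₁ : K) / τ (f₂ : K) := by
    rw [coe_act, hγ, map_div₀]
  refine ⟨β' / β * (actK τ γ / γ), ?_, ?_⟩
  · have hI0 : (I : Ideal (𝓞 K)) * (I' : Ideal (𝓞 K)).map (sg τ) ≠ 0 :=
      mul_ne_zero (nonZeroDivisors.ne_zero I.2) (map_sg_ne (nonZeroDivisors.ne_zero I'.2))
    refine mem_SU (s := y' * x * sig τ f₁ * f₂) (t := x' * y * sig τ f₂ * f₁)
      (mul_ne_zero (mul_ne_zero (mul_ne_zero h2' h3) hs₂) hf₁) ?_ (isB_mul h6' h5)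
      (isB_mul h5' h6) ?_
    · rw [Units.val_mul, Units.val_div_eq_div_val, Units.val_div_eq_div_val, hγ, hγτ]
      show (β' : K) / (β : K) * (τ (f₁ : K) / τ (f₂ : K) / ((f₁ : K) / (f₂ : K))) *
        ((x' : K) * (y : K) * τ (f₂ : K) * (f₁ : K)) = (y' : K) * (x : K) * τ (f₁ : K) * (f₂ : K)
      rw [← h4, ← h4']
      have := β.ne_zero
      field_simp
    · apply mul_left_cancel₀ hI0
      simp only [← Ideal.span_singleton_mul_span_singleton]
      calc _ = (Ideal.span {y'} * (I' : Ideal (𝓞 K)).map (sg τ) * b₁') *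
            (Ideal.span {x} * (I : Ideal (𝓞 K)) * b) * (Ideal.span {sig τ f₁} * Ideal.span {f₂}) := by
            ring
        _ = (Ideal.span {x'} * (I' : Ideal (𝓞 K)) * b') *
            (Ideal.span {y} * (I : Ideal (𝓞 K)).map (sg τ) * b₁) *
              (Ideal.span {sig τ f₁} * Ideal.span {f₂}) := by rw [h7', h7]
        _ = Ideal.span {x'} * Ideal.span {y} * b' * b₁ *
            (Ideal.span {f₂} * (I' : Ideal (𝓞 K))) *
            (Ideal.span {sig τ f₁} * (I : Ideal (𝓞 K)).map (sg τ)) := by ring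
        _ = Ideal.span {x'} * Ideal.span {y} * b' * b₁ *
            (Ideal.span {f₁} * (I : Ideal (𝓞 K))) *
            (Ideal.span {sig τ f₂} * (I' : Ideal (𝓞 K)).map (sg τ)) := by rw [← hf, hσf]
        _ = _ := by ring
  · show (β' / β * (actK τ γ / γ)) * actK τ (β' / β * (actK τ γ / γ)) = m⁻¹ * m'
    have hinv : actK τ (actK τ γ) = γ := Units.ext (htt _)
    rw [h8, h8', map_mul, map_div, map_div, hinv]
    have : actK τ γ / γ * (γ / actK τ γ) = 1 := by rw [div_mul_div_cancel, div_self']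
    calc β' / β * (actK τ γ / γ) * (actK τ β' / actK τ β * (γ / actK τ γ)) =
        (β' / β) * (actK τ β' / actK τ β) * (actK τ γ / γ * (γ / actK τ γ)) := by
          rw [mul_mul_mul_comm]
      _ = _ := by
        rw [this, mul_one]
        simp only [div_eq_mul_inv, mul_inv]
        ac_rfl

theorem rel2_ker (hLoc : S_LOC) {τ : K ≃ₐ[F] K} (hQ : Quad F K τ)
    {S : Finset (HeightOneSpectrum (𝓞 F))}
    {A : Finset (HeightOneSpectrum (𝓞 K))} (hA : Over S A)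
    (hunr : ∀ v : HeightOneSpectrum (𝓞 F), v ∉ S →
      Squarefree (v.asIdeal.map (algebraMap (𝓞 F) (𝓞 K)))) (c : ClassGroup (𝓞 K)) (m : Kˣ)
    (h : Rel2 τ (A : Set (HeightOneSpectrum (𝓞 K))) c m)
    (hm : m ∈ (SU K (A : Set (HeightOneSpectrum (𝓞 K)))).map ((MonoidHom.id Kˣ) * actK τ)) :
    c ∈ (ClassGroup.extendedHom (𝓞 F) (𝓞 K)).range ⊔ CA (A : Set (HeightOneSpectrum (𝓞 K))) := by
  obtain ⟨I, β, x, y, b, b₁, h1, h2, h3, h4, h5, h6, h7, h8⟩ := h
  obtain ⟨u, hu, hum⟩ := hm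
  have hum' : u * actK τ u = β * actK τ β := hum.trans h8
  have hδ : actK τ (β / u) = (β / u)⁻¹ := by
    rw [map_div, inv_div, div_eq_div_iff_mul_eq_mul, mul_comm, ← hum', mul_comm]
  obtain ⟨α, hα⟩ := hilbert90 hQ hδ
  obtain ⟨p, q, hp, hq, hpq⟩ := exists_frac α
  obtain ⟨s, t, hs, ht, hst⟩ := exists_frac u
  obtain ⟨B, B', hB, hB', hBB⟩ := exists_isB_of_mem hu hs ht hst
  have hsp : sig τ p ≠ 0 := fun h => hp ((sig τ).map_eq_zero_iff.1 h)
  have hsq : sig τ q ≠ 0 := fun h => hq ((sig τ).map_eq_zero_iff.1 h)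
  have hqp : Ideal.span {q * sig τ p} ≠ (0 : Ideal (𝓞 K)) := by
    rw [Ne, Ideal.zero_eq_bot, Ideal.span_singleton_eq_bot]
    exact mul_ne_zero hq hsp
  have hI0 : (I : Ideal (𝓞 K)) ≠ 0 := nonZeroDivisors.ne_zero I.2
  have hI'0 : Ideal.span {q * sig τ p} * (I : Ideal (𝓞 K)) ≠ 0 := mul_ne_zero hqp hI0
  -- the equation
  have hx : y * t * q * sig τ p = x * s * p * sig τ q := by
    apply RingOfIntegers.ext
    show (y : K) * (t : K) * (q : K) * τ (p : K) = (x : K) * (s : K) * (p : K) * τ (q : K)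
    have e1 : (β : K) = (u : K) * ((α : K) / τ (α : K)) := by
      have e2 : β = u * (α / actK τ α) := by rw [← hα, mul_div_cancel]
      rw [e2, Units.val_mul, Units.val_div_eq_div_val, coe_act]
    have e3 : τ (p : K) = τ (α : K) * τ (q : K) := by rw [← map_mul, hpq]
    have e4 : τ (α : K) ≠ 0 := by
      rw [← coe_act]
      exact Units.ne_zero _
    rw [e3, ← h4, e1, ← hst, ← hpq]
    field_simp
  have hx' := congrArg (fun z : 𝓞 K => Ideal.span ({z} : Set (𝓞 K))) hx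
  simp only [← Ideal.span_singleton_mul_span_singleton] at hx'
  have hx0 : Ideal.span {x} * Ideal.span {t} ≠ (0 : Ideal (𝓞 K)) := by
    rw [Ideal.span_singleton_mul_span_singleton, Ne, Ideal.zero_eq_bot,
      Ideal.span_singleton_eq_bot]
    exact mul_ne_zero h2 ht
  have hmain : (Ideal.span {q * sig τ p} * (I : Ideal (𝓞 K))).map (sg τ) * (b₁ * B') =
      (Ideal.span {q * sig τ p} * (I : Ideal (𝓞 K))) * (b * B) := by
    rw [Ideal.map_mul, map_span_sg, map_mul, sg_sg hQ]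
    apply mul_left_cancel₀ hx0
    simp only [← Ideal.span_singleton_mul_span_singleton]
    calc _ = (Ideal.span {t} * B') * (Ideal.span {x} * Ideal.span {p} * Ideal.span {sig τ q}) *
          ((I : Ideal (𝓞 K)).map (sg τ) * b₁) := by ring
      _ = (Ideal.span {x} * Ideal.span {s} * Ideal.span {p} * Ideal.span {sig τ q}) * B *
          ((I : Ideal (𝓞 K)).map (sg τ) * b₁) := by rw [← hBB]; ring
      _ = (Ideal.span {y} * (I : Ideal (𝓞 K)).map (sg τ) * b₁) *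
          (Ideal.span {t} * Ideal.span {q} * Ideal.span {sig τ p} * B) := by rw [← hx']; ring
      _ = _ := by rw [← h7]; ring
  obtain ⟨J, hJ, c₁, c₂, hc₁, hc₂, hJc⟩ := descend hLoc hQ hA hunr _ _ rfl hI'0 (b₁ * B') (b * B)
    (isB_mul h6 hB') (isB_mul h5 hB) hmain
  have m0 : J.map (algebraMap (𝓞 F) (𝓞 K)) ∈ (Ideal (𝓞 K))⁰ :=
    mem_nonZeroDivisors_of_ne_zero (map_alg_ne hJ)
  have m1 : c₁ ∈ (Ideal (𝓞 K))⁰ := mem_nonZeroDivisors_of_ne_zero hc₁.1
  have m2 : c₂ ∈ (Ideal (𝓞 K))⁰ := mem_nonZeroDivisors_of_ne_zero hc₂.1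
  have e1 : ClassGroup.mk0 ((⟨_, m0⟩ : (Ideal (𝓞 K))⁰) * ⟨c₁, m1⟩) = ClassGroup.mk0 (I * ⟨c₂, m2⟩) := by
    refine ClassGroup.mk0_eq_mk0_iff.2 ⟨1, q * sig τ p, one_ne_zero, mul_ne_zero hq hsp, ?_⟩
    rw [Submonoid.coe_mul, Submonoid.coe_mul, Ideal.span_singleton_one, ← Ideal.one_eq_top, one_mul]
    rw [← mul_assoc]
    exact hJc
  rw [map_mul, map_mul, h1] at e1
  have e2 : ClassGroup.mk0 (⟨_, m0⟩ : (Ideal (𝓞 K))⁰) =
      ClassGroup.extendedHom (𝓞 F) (𝓞 K)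
        (ClassGroup.mk0 ⟨J, mem_nonZeroDivisors_of_ne_zero hJ⟩) := by
    rw [ClassGroup.extendedHom_mk0]
  have e3 : c = ClassGroup.mk0 (⟨_, m0⟩ : (Ideal (𝓞 K))⁰) *
      (ClassGroup.mk0 (⟨c₁, m1⟩ : (Ideal (𝓞 K))⁰) / ClassGroup.mk0 (⟨c₂, m2⟩ : (Ideal (𝓞 K))⁰)) := by
    rw [← mul_div_assoc, e1, mul_div_cancel_right]
  rw [e3]
  refine Subgroup.mul_mem_sup ?_ (Subgroup.div_mem _ (cls_mem c₁ hc₁ _) (cls_mem c₂ hc₂ _))
  rw [e2]
  exact ⟨_, rfl⟩

/-- the inequality -/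
theorem chev (hLoc : S_LOC) {τ : K ≃ₐ[F] K} (hQ : Quad F K τ)
    {S : Finset (HeightOneSpectrum (𝓞 F))} {A : Finset (HeightOneSpectrum (𝓞 K))}
    (hA : Over S A)
    (hunr : ∀ v : HeightOneSpectrum (𝓞 F), v ∉ S →
      Squarefree (v.asIdeal.map (algebraMap (𝓞 F) (𝓞 K))))
    (hcard : Fintype.card (InfinitePlace K) + A.card =
      2 * (Fintype.card (InfinitePlace F) + S.card)) :
    ∃ M : Subgroup (ClassGroup (𝓞 F)), M ≠ ⊤ ∧ CA (S : Set (HeightOneSpectrum (𝓞 F))) ≤ M ∧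
      (∀ v : HeightOneSpectrum (𝓞 F), loc K v = 1 → cls v ∈ M) ∧ ∀ c, c ^ 2 ∈ M := by
  obtain ⟨s, hs⟩ := exists_sigC τ
  obtain ⟨N, hN⟩ := exists_normC F K
  have hNj : ∀ c : ClassGroup (𝓞 F), N (ClassGroup.extendedHom (𝓞 F) (𝓞 K) c) = c ^ 2 := by
    intro c
    obtain ⟨J, rfl⟩ := ClassGroup.mk0_surjective c
    have hJ0 : (J : Ideal (𝓞 F)) ≠ 0 := nonZeroDivisors.ne_zero J.2
    have e1 : relN F K ((J : Ideal (𝓞 F)).map (algebraMap (𝓞 F) (𝓞 K))) = (J : Ideal (𝓞 F)) ^ 2 := by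
      rw [relN_apply, Ideal.relNorm_algebraMap, ← IsFractionRing.finrank_eq (𝓞 F) F (𝓞 K) K, hQ.deg]
    have e2 : relN F K ((J : Ideal (𝓞 F)).map (algebraMap (𝓞 F) (𝓞 K))) ∈ (Ideal (𝓞 F))⁰ := by
      rw [e1]
      exact mem_nonZeroDivisors_of_ne_zero (pow_ne_zero 2 hJ0)
    rw [ClassGroup.extendedHom_mk0]
    rw [hN _ _ e2, ← map_pow]
    congr 1
    exact Subtype.ext e1
  have hNprime : ∀ (v : HeightOneSpectrum (𝓞 F)) (P : HeightOneSpectrum (𝓞 K)), Above {v} P →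
      ∃ n : ℕ, N (cls P) = cls v ^ n ∧ (Ideal.absNorm P.asIdeal = Ideal.absNorm v.asIdeal →
        N (cls P) = cls v) := by
    intro v P h
    obtain ⟨n, hn⟩ := relNorm_prime h
    have hm : relN F K P.asIdeal ∈ (Ideal (𝓞 F))⁰ :=
      mem_nonZeroDivisors_of_ne_zero fun h0 => P.ne_bot (relN_bot _ h0)
    have e1 : N (cls P) = ClassGroup.mk0 ⟨relN F K P.asIdeal, hm⟩ := hN _ _ hm
    refine ⟨n, ?_, fun h' => ?_⟩
    · rw [e1, cls, ← map_pow]
      congr 1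
      exact Subtype.ext hn
    · rw [e1, cls]
      congr 1
      exact Subtype.ext (relNorm_split h h')
  refine ⟨N.range ⊔ CA (S : Set (HeightOneSpectrum (𝓞 F))), ?_, le_sup_right, ?_, ?_⟩
  · intro htop
    have h2 : 2 ∣ (N.range ⊔ CA (S : Set (HeightOneSpectrum (𝓞 F)))).index := by
      refine count_groups (ClassGroup.extendedHom (𝓞 F) (𝓞 K)) N s
        (CA (A : Set (HeightOneSpectrum (𝓞 K)))) (CA (S : Set (HeightOneSpectrum (𝓞 F))))
        (((SU K (A : Set (HeightOneSpectrum (𝓞 K)))).map ((MonoidHom.id Kˣ) * actK τ)).relIndex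
          ((SU F (S : Set (HeightOneSpectrum (𝓞 F)))).map (Pool.Agent.K3h77.E2.inc F K)))
        ?_ ?_ ?_ ?_ ?_ ?_ ?_
      · -- `N s = N`
        intro c
        obtain ⟨I, rfl⟩ := ClassGroup.mk0_surjective c
        have hI0 : (I : Ideal (𝓞 K)) ≠ 0 := nonZeroDivisors.ne_zero I.2
        have m1 : (I : Ideal (𝓞 K)).map (sg τ) ∈ (Ideal (𝓞 K))⁰ :=
          mem_nonZeroDivisors_of_ne_zero (map_sg_ne hI0)
        have m2 : relN F K (I : Ideal (𝓞 K)) ∈ (Ideal (𝓞 F))⁰ :=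
          mem_nonZeroDivisors_of_ne_zero fun h0 => hI0 (relN_bot _ h0)
        have m3 : relN F K ((I : Ideal (𝓞 K)).map (sg τ)) ∈ (Ideal (𝓞 F))⁰ := by
          rw [relNorm_sg]
          exact m2
        have e1 : s (ClassGroup.mk0 I) = ClassGroup.mk0 ⟨_, m1⟩ := hs I I.2 m1
        have e2 : N (ClassGroup.mk0 I) = ClassGroup.mk0 ⟨_, m2⟩ := hN I I.2 m2
        rw [e1, e2, hN _ _ m3]
        congr 1
        exact Subtype.ext (relNorm_sg τ I)
      · -- `N (CA A) ≤ CA S`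
        intro c hc
        have hle : CA (A : Set (HeightOneSpectrum (𝓞 K))) ≤
            (CA (S : Set (HeightOneSpectrum (𝓞 F)))).comap N := by
          refine (Subgroup.closure_le _).2 ?_
          rintro _ ⟨P, hP, rfl⟩
          obtain ⟨v, hv, hvP⟩ := (hA P).1 hP
          obtain ⟨n, hn, -⟩ := hNprime v P hvP
          show N (cls P) ∈ CA (S : Set (HeightOneSpectrum (𝓞 F)))
          rw [hn]
          have h3 : cls v ∈ CA (S : Set (HeightOneSpectrum (𝓞 F))) :=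
            Subgroup.subset_closure (Set.mem_image_of_mem cls (Finset.mem_coe.2 hv))
          exact Subgroup.pow_mem _ h3 n
        exact hle hc
      · -- `s j = j`
        intro c
        obtain ⟨J, rfl⟩ := ClassGroup.mk0_surjective c
        have hJ0 : (J : Ideal (𝓞 F)) ≠ 0 := nonZeroDivisors.ne_zero J.2
        have e1 := map_sig_map τ (J : Ideal (𝓞 F))
        have m1 : ((J : Ideal (𝓞 F)).map (algebraMap (𝓞 F) (𝓞 K))).map (sg τ) ∈
            (Ideal (𝓞 K))⁰ := by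
          rw [e1]
          exact mem_nonZeroDivisors_of_ne_zero (map_alg_ne hJ0)
        rw [ClassGroup.extendedHom_mk0, hs _ _ m1]
        congr 1
        exact Subtype.ext e1
      · -- `s (CA A) ≤ CA A`
        intro c hc
        obtain ⟨b, hb, h1, rfl⟩ := exists_rep hc
        have h2 := isB_sig τ hA h1
        rw [hs b hb (mem_nonZeroDivisors_of_ne_zero h2.1)]
        exact cls_mem _ h2 _
      · -- `j (CA S) ≤ CA A`
        intro c hc
        obtain ⟨J, hJ, hJB, rfl⟩ := exists_rep hc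
        rw [ClassGroup.extendedHom_mk0]
        refine cls_mem _ ⟨map_alg_ne hJB.1, fun P hP => ?_⟩ _
        obtain ⟨v, hv⟩ := Pool.Agent.K3h77.E2.exists_under (F := F) P
        refine (hA P).2 ⟨v, hJB.2 v ?_, hv⟩
        rw [Ideal.dvd_iff_le, Ideal.map_le_iff_le_comap, above_singleton.1 hv] at hP
        exact Ideal.dvd_iff_le.2 hP
      · -- the second relation
        refine relIndex_dvd _ _ _ _ (Rel2 τ (A : Set (HeightOneSpectrum (𝓞 K)))) ?_
          (rel2_mul τ _) (rel2_mem hQ hA) (rel2_uniq hQ _) (rel2_ker hLoc hQ hA hunr)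
        intro c hc
        obtain ⟨I, rfl⟩ := ClassGroup.mk0_surjective c
        have hI0 : (I : Ideal (𝓞 K)) ≠ 0 := nonZeroDivisors.ne_zero I.2
        have m1 : (I : Ideal (𝓞 K)).map (sg τ) ∈ (Ideal (𝓞 K))⁰ :=
          mem_nonZeroDivisors_of_ne_zero (map_sg_ne hI0)
        have hc' : ClassGroup.mk0 I / s (ClassGroup.mk0 I) ∈ CA (A : Set (HeightOneSpectrum (𝓞 K))) :=
          hc
        have e1 : s (ClassGroup.mk0 I) = ClassGroup.mk0 ⟨_, m1⟩ := hs I I.2 m1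
        rw [e1] at hc'
        obtain ⟨b, hb, hbB, hbe⟩ := exists_rep hc'
        have e2 : ClassGroup.mk0 I = ClassGroup.mk0 ((⟨_, m1⟩ : (Ideal (𝓞 K))⁰) * ⟨b, hb⟩) := by
          rw [map_mul, hbe, mul_div_cancel]
        obtain ⟨x, y, hx, hy, he⟩ := ClassGroup.mk0_eq_mk0_iff.1 e2
        have hxK : (x : K) ≠ 0 := fun h => hx (RingOfIntegers.ext h)
        have hyK : (y : K) ≠ 0 := fun h => hy (RingOfIntegers.ext h)
        refine ⟨_, I, Units.mk0 (y : K) hyK / Units.mk0 (x : K) hxK, x, y, 1, b, rfl, hx, hy, ?_,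
          isB_one _, hbB, ?_, rfl⟩
        · rw [Units.val_div_eq_div_val]
          exact div_mul_cancel₀ _ hxK
        · rw [mul_one, he, Submonoid.coe_mul, mul_assoc]
      · rw [← herbrand_units hQ hA hcard]
        exact minus_dvd hLoc hQ hA hunr
    rw [htop, Subgroup.index_top] at h2
    omega
  · intro v hv
    obtain ⟨P, P', hne, hall, hval, hprod, hN1, hN2⟩ := (hLoc F K τ hQ v).1 hv
    obtain ⟨n, -, h2⟩ := hNprime v P ((hall P).2 (Or.inl rfl))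
    rw [← h2 hN1]
    exact Subgroup.mem_sup_left ⟨_, rfl⟩
  · intro c
    rw [← hNj]
    exact Subgroup.mem_sup_left ⟨_, rfl⟩

end quad

end Pool.Agent.Helper9.RS
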