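import Pool.Agent.Helper9.RS.Zeta0

/-!
# Class group characters and split primes
-/

set_option autoImplicit false
set_option linter.unusedSectionVars false

open NumberField Complex Filter Topology IsDedekindDomain
open scoped nonZeroDivisors

noncomputable section

namespace Pool.Agent.Helper9.RS

open Pool.Agent.Y773 Pool.Agent.Y773.G Pool.Agent.R362.HL Pool.Agent.K3h56.E2
  Pool.Agent.K3h93.E2 Pool.Agent.R426.QC

section char

variable {K : Type} [Field K] [NumberField K]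

open Classical in
/-- the character of the ideals from one of the class group -/
def ich (ε : ClassGroup (𝓞 K) →* ℂˣ) : Ideal (𝓞 K) →*₀ ℂ where
  toFun 𝔞 := if h : 𝔞 = ⊥ then 0 else
    ((ε (ClassGroup.mk0 ⟨𝔞, mem_nonZeroDivisors_of_ne_zero h⟩) : ℂˣ) : ℂ)
  map_zero' := dif_pos rfl
  map_one' := by
    have h : (1 : Ideal (𝓞 K)) ≠ ⊥ := by
      rw [Ideal.one_eq_top]
      exact top_ne_bot
    rw [dif_neg h]
    have h1 : (⟨1, mem_nonZeroDivisors_of_ne_zero h⟩ : (Ideal (𝓞 K))⁰) = 1 := rfl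
    rw [h1, map_one, map_one, Units.val_one]
  map_mul' 𝔞 𝔟 := by
    by_cases ha : 𝔞 = ⊥
    · rw [dif_pos ha, zero_mul, dif_pos]
      rw [ha]; exact Ideal.bot_mul 𝔟
    · by_cases hb : 𝔟 = ⊥
      · rw [dif_pos hb, mul_zero, dif_pos]
        rw [hb]; exact Ideal.mul_bot 𝔞
      · have hab : 𝔞 * 𝔟 ≠ ⊥ := mul_ne_zero ha hb
        rw [dif_neg ha, dif_neg hb, dif_neg hab, ← Units.val_mul, ← map_mul, ← map_mul]
        rfl

theorem ich_apply (ε : ClassGroup (𝓞 K) →* ℂˣ) {𝔞 : Ideal (𝓞 K)} (h : 𝔞 ≠ ⊥) :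
    ich ε 𝔞 = ((ε (ClassGroup.mk0 ⟨𝔞, mem_nonZeroDivisors_of_ne_zero h⟩) : ℂˣ) : ℂ) := dif_neg h

theorem ich_prime (ε : ClassGroup (𝓞 K) →* ℂˣ) (v : HeightOneSpectrum (𝓞 K)) :
    ich ε v.asIdeal = ((ε (cls v) : ℂˣ) : ℂ) := ich_apply ε v.ne_bot

theorem isUnr_ich (ε : ClassGroup (𝓞 K) →* ℂˣ) :
    IsUnr (fun _ : InfinitePlace K => 0) (ich ε) where
  sig_le _ := zero_le_one
  cpx _ _ := rfl
  sig x hx := by
    have h : Ideal.span {x} ≠ ⊥ := by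
      rw [Ne, Ideal.span_singleton_eq_bot]
      exact hx
    have h1 : ClassGroup.mk0 (⟨Ideal.span {x}, mem_nonZeroDivisors_of_ne_zero h⟩ :
        (Ideal (𝓞 K))⁰) = 1 :=
      (ClassGroup.mk0_eq_one_iff _).2 ⟨⟨x, rfl⟩⟩
    rw [ich_apply ε h, h1, map_one]
    unfold G.sg
    simp

theorem gam_ne {s : ℂ} (hs : 0 < s.re) : gam K s ≠ 0 := by
  unfold gam
  refine Finset.prod_ne_zero_iff.2 fun φ _ => ?_
  refine Gammaℝ_ne_zero_of_re_pos ?_
  rw [Complex.add_re, Complex.natCast_re]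
  have : (0 : ℝ) ≤ ((ex (fun _ : InfinitePlace K => 0) φ : ℕ) : ℝ) := Nat.cast_nonneg _
  linarith

theorem gam_cont {s : ℂ} (hs : 0 < s.re) : ContinuousAt (gam K) s := by
  unfold gam
  refine tendsto_finsetProd _ fun φ _ => ?_
  have h1 : 0 < (s + ((ex (fun _ : InfinitePlace K => 0) φ : ℕ) : ℂ)).re := by
    rw [Complex.add_re, Complex.natCast_re]
    have : (0 : ℝ) ≤ ((ex (fun _ : InfinitePlace K => 0) φ : ℕ) : ℝ) := Nat.cast_nonneg _
    linarith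
  have h2 : ContinuousAt Gammaℝ (s + ((ex (fun _ : InfinitePlace K => 0) φ : ℕ) : ℂ)) := by
    have h3 := differentiable_Gammaℝ_inv.continuous.continuousAt
      (x := (s + ((ex (fun _ : InfinitePlace K => 0) φ : ℕ) : ℂ)))
    have h4 := h3.inv₀ (inv_ne_zero (Gammaℝ_ne_zero_of_re_pos h1))
    have h5 : (fun s : ℂ => (Gammaℝ s)⁻¹)⁻¹ = Gammaℝ := by
      funext z
      exact inv_inv _
    rwa [h5] at h4
  exact ContinuousAt.comp (f := fun z : ℂ => z + ((ex (fun _ : InfinitePlace K => 0) φ : ℕ) : ℂ))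
    h2 (continuousAt_id.add continuousAt_const)

/-- the `L`-series is bounded at `s = 1` -/
theorem LI_bdd (ε : ClassGroup (𝓞 K) →* ℂˣ) (hε : ε ≠ 1) :
    ∃ C : ℝ, ∀ᶠ s : ℝ in 𝓝[>] (1 : ℝ), ‖LI (ich ε) (s : ℂ)‖ ≤ C := by
  have h1 : ∃ 𝔞 : Ideal (𝓞 K), 𝔞 ≠ ⊥ ∧ ich ε 𝔞 ≠ 1 := by
    by_contra hcon
    push Not at hcon
    apply hε
    refine MonoidHom.ext fun c => ?_
    obtain ⟨I, rfl⟩ := ClassGroup.mk0_surjective c
    have h2 := hcon I (nonZeroDivisors.ne_zero I.2)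
    rw [ich_apply ε (nonZeroDivisors.ne_zero I.2)] at h2
    exact Units.ext h2
  obtain ⟨X, hX⟩ := xi_unr (isUnr_ich ε) (r := 0) (Or.inr ⟨rfl, h1⟩)
  set R : ℝ := ((Ideal.absNorm (differentIdeal ℤ (𝓞 K)) : ℕ) : ℝ) with hR
  have hR0 : (0 : ℝ) < R := lt_of_lt_of_le one_pos hX.one_le
  have hRC : (R : ℂ) ≠ 0 := by exact_mod_cast hR0.ne'
  have hg : ContinuousAt (fun s : ℂ => X s / ((R : ℂ) ^ (s / 2) * gam K s)) 1 := by
    refine (hX.diff.continuous.continuousAt).div ?_ ?_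
    · refine ContinuousAt.mul ?_ (gam_cont (by norm_num))
      exact (continuousAt_const_cpow hRC).comp_of_eq
        (f := fun z : ℂ => z / 2) (continuousAt_id.div_const 2) rfl
    · exact mul_ne_zero (by rw [Ne, Complex.cpow_eq_zero_iff]; tauto) (gam_ne (by norm_num))
  have hg2 : Tendsto (fun s : ℝ => X (s : ℂ) / ((R : ℂ) ^ ((s : ℂ) / 2) * gam K (s : ℂ))) (𝓝[>] 1)
      (𝓝 (X 1 / ((R : ℂ) ^ ((1 : ℂ) / 2) * gam K 1))) := by
    have h3 : Tendsto (fun s : ℝ => (s : ℂ)) (𝓝[>] 1) (𝓝 (1 : ℂ)) := by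
      have := (Complex.continuous_ofReal.tendsto 1).mono_left
        (nhdsWithin_le_nhds (s := Set.Ioi (1 : ℝ)))
      simpa using this
    exact hg.tendsto.comp h3
  have hb := hg2.norm.eventually (gt_mem_nhds (lt_add_one
    ‖X 1 / ((R : ℂ) ^ ((1 : ℂ) / 2) * gam K 1)‖))
  refine ⟨‖X 1 / ((R : ℂ) ^ ((1 : ℂ) / 2) * gam K 1)‖ + 1, ?_⟩
  filter_upwards [hb, self_mem_nhdsWithin] with s hs h1s
  have h1s' : (1 : ℝ) < ((s : ℂ)).re := by simpa using h1s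
  have h4 := hX.eq (s : ℂ) h1s'
  rw [pow_zero, one_mul] at h4
  have h5 : ((R : ℂ) ^ ((s : ℂ) / 2) * gam K (s : ℂ)) ≠ 0 :=
    mul_ne_zero (by rw [Ne, Complex.cpow_eq_zero_iff]; tauto) (gam_ne (by linarith))
  have h6 : LI (ich ε) (s : ℂ) = X (s : ℂ) / ((R : ℂ) ^ ((s : ℂ) / 2) * gam K (s : ℂ)) := by
    rw [eq_div_iff h5, h4]
    unfold gam
    ring
  rw [h6]
  exact hs.le

theorem cmi_ich (ε : ClassGroup (𝓞 K) →* ℂˣ) {s : ℂ} (hs : 1 < s.re) :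
    CMI (fun 𝔞 : Ideal (𝓞 K) => ich ε 𝔞 * fI K s 𝔞) where
  zero := by rw [(cmi K hs).zero, mul_zero]
  one := by rw [(cmi K hs).one, ← Ideal.one_eq_top, map_one, one_mul]
  mul := by
    intro I J
    rw [(cmi K hs).mul, map_mul]
    ring
  summ := by
    refine Summable.of_norm_bounded (cmi K hs).summ.norm fun 𝔞 => ?_
    rw [norm_mul]
    have h1 := (isUnr_ich ε).norm_le_one 𝔞
    nlinarith [norm_nonneg (fI K s 𝔞)]

/-- the Euler product -/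
theorem euler_ich (ε : ClassGroup (𝓞 K) →* ℂˣ) {s : ℂ} (hs : 1 < s.re) :
    HasProd (fun v : HeightOneSpectrum (𝓞 K) =>
      (1 - ((ε (cls v) : ℂˣ) : ℂ) * (Ideal.absNorm v.asIdeal : ℂ) ^ (-s))⁻¹) (LI (ich ε) s) := by
  have h := hasProdI (cmi_ich ε hs)
  have h1 : ∑' I : Ideal (𝓞 K), ich ε I * fI K s I = LI (ich ε) s := by
    unfold LI
    congr 1
    funext I
    by_cases hI : I = ⊥
    · rw [hI, ← Ideal.zero_eq_bot, map_zero, zero_mul, zero_mul]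
    · unfold fI
      rw [if_neg hI]
  rw [h1] at h
  simpa only [fI_prime, ich_prime] using h

/-- comparison of infinite products -/
theorem norm_le_of_hasProd {ι : Type} {f g : ι → ℂ} {a b : ℂ} (hf : HasProd f a)
    (hg : HasProd g b) (h : ∀ i, ‖g i‖ ≤ ‖f i‖) : ‖b‖ ≤ ‖a‖ := by
  have h1 : Tendsto (fun s : Finset ι => ‖∏ i ∈ s, f i‖) atTop (𝓝 ‖a‖) := Tendsto.norm hf
  have h2 : Tendsto (fun s : Finset ι => ‖∏ i ∈ s, g i‖) atTop (𝓝 ‖b‖) := Tendsto.norm hg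
  refine le_of_tendsto_of_tendsto' h2 h1 fun s => ?_
  rw [norm_prod, norm_prod]
  exact Finset.prod_le_prod (fun i _ => norm_nonneg _) fun i _ => h i

/-- the local factors -/
theorem local_facts {s : ℝ} (hs : 1 < s) (v : HeightOneSpectrum (𝓞 K)) :
    ∃ u w : ℝ, 0 < w ∧ w ≤ u ∧
      ‖(1 - (1 : ℂ) * (Ideal.absNorm v.asIdeal : ℂ) ^ (-(s : ℂ)))⁻¹‖ = u ∧
      ‖(1 - (-1 : ℂ) * (Ideal.absNorm v.asIdeal : ℂ) ^ (-(s : ℂ)))⁻¹‖ = w := by
  have h1 : 1 < Ideal.absNorm v.asIdeal := by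
    have h0 : Ideal.absNorm v.asIdeal ≠ 0 := by
      rw [Ne, Ideal.absNorm_eq_zero_iff]
      exact v.ne_bot
    have h2 : Ideal.absNorm v.asIdeal ≠ 1 := by
      rw [Ne, Ideal.absNorm_eq_one_iff]
      exact v.isPrime.ne_top
    omega
  have h1' : (1 : ℝ) < (Ideal.absNorm v.asIdeal : ℝ) := by exact_mod_cast h1
  set x : ℝ := (Ideal.absNorm v.asIdeal : ℝ) ^ (-s) with hx
  have hx0 : 0 < x := Real.rpow_pos_of_pos (by linarith) _
  have hx1 : x < 1 := Real.rpow_lt_one_of_one_lt_of_neg h1' (by linarith)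
  have hxC : (Ideal.absNorm v.asIdeal : ℂ) ^ (-(s : ℂ)) = (x : ℂ) := by
    rw [hx, Complex.ofReal_cpow (by linarith)]
    push_cast
    rfl
  rw [hxC]
  have e1 : (1 : ℂ) - (1 : ℂ) * (x : ℂ) = ((1 - x : ℝ) : ℂ) := by push_cast; ring
  have e2 : (1 : ℂ) - (-1 : ℂ) * (x : ℂ) = ((1 + x : ℝ) : ℂ) := by push_cast; ring
  rw [e1, e2, norm_inv, norm_inv, Complex.norm_real, Complex.norm_real,
    Real.norm_of_nonneg (by linarith), Real.norm_of_nonneg (by linarith)]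
  refine ⟨_, _, ?_, ?_, rfl, rfl⟩
  · exact inv_pos.2 (by linarith)
  · exact inv_anti₀ (by linarith) (by linarith)

end char

section dens

variable {F : Type} [Field F] [NumberField F]

/-- the zeta functions near `s = 1` -/
theorem zeta_tendsto (K : Type) [Field K] [NumberField K] : ∃ κ : ℝ, 0 < κ ∧
    Tendsto (fun s : ℝ => (s - 1) * ‖dedekindZeta K (s : ℂ)‖) (𝓝[>] 1) (𝓝 κ) := by
  refine ⟨dedekindZeta_residue K, dedekindZeta_residue_pos K, ?_⟩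
  have h := (tendsto_sub_one_mul_dedekindZeta_nhdsGT K).norm
  rw [Complex.norm_real, Real.norm_of_nonneg (dedekindZeta_residue_pos K).le] at h
  refine h.congr' ?_
  filter_upwards [self_mem_nhdsWithin] with s hs
  have hs' : (1 : ℝ) < s := hs
  rw [norm_mul]
  congr 1
  have : ((s : ℂ) - 1) = ((s - 1 : ℝ) : ℂ) := by push_cast; ring
  rw [this, Complex.norm_real, Real.norm_of_nonneg (by linarith)]

/-- the growth argument -/
theorem growth {a b c : ℝ → ℝ} {C α β γ : ℝ} (hα : 0 < α) (hβ : 0 < β)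
    (ha : Tendsto (fun s => (s - 1) * a s) (𝓝[>] (1 : ℝ)) (𝓝 α))
    (hb : Tendsto (fun s => (s - 1) * b s) (𝓝[>] (1 : ℝ)) (𝓝 β))
    (hc : Tendsto (fun s => (s - 1) * c s) (𝓝[>] (1 : ℝ)) (𝓝 γ)) (hc0 : ∀ s, 0 ≤ c s)
    {l : ℝ → ℝ} (hl : ∀ᶠ s in 𝓝[>] (1 : ℝ), l s ≤ C)
    (h : ∀ᶠ s in 𝓝[>] (1 : ℝ), a s * b s ≤ l s * c s) : False := by
  have h1 : Tendsto (fun s => ((s - 1) * a s) * ((s - 1) * b s)) (𝓝[>] (1 : ℝ)) (𝓝 (α * β)) :=
    ha.mul hb
  have h0 : Tendsto (fun s : ℝ => s - 1) (𝓝[>] (1 : ℝ)) (𝓝 0) := by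
    have : Tendsto (fun s : ℝ => s - 1) (𝓝 (1 : ℝ)) (𝓝 (1 - 1)) :=
      (continuous_id.sub continuous_const).tendsto 1
    rw [sub_self] at this
    exact this.mono_left nhdsWithin_le_nhds
  have h2 : Tendsto (fun s => (s - 1) * (C * ((s - 1) * c s))) (𝓝[>] (1 : ℝ)) (𝓝 (0 * (C * γ))) :=
    h0.mul (hc.const_mul C)
  rw [zero_mul] at h2
  have h3 : α * β ≤ 0 := by
    refine le_of_tendsto_of_tendsto h1 h2 ?_
    filter_upwards [hl, h, self_mem_nhdsWithin] with s hs hs2 hs3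
    have hs4 : (0 : ℝ) < s - 1 := sub_pos.2 hs3
    have h5 : a s * b s ≤ C * c s := hs2.trans (mul_le_mul_of_nonneg_right hs (hc0 s))
    calc (s - 1) * a s * ((s - 1) * b s) = (s - 1) ^ 2 * (a s * b s) := by ring
      _ ≤ (s - 1) ^ 2 * (C * c s) := mul_le_mul_of_nonneg_left h5 (by positivity)
      _ = _ := by ring
  have : 0 < α * β := mul_pos hα hβ
  linarith

/-- a character of the class group which is trivial on the split primes of two extensions -/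
theorem distinct (hLoc : S_LOC) {L₁ L₂ L₃ : Type} [Field L₁] [NumberField L₁] [Algebra F L₁]
    [Field L₂] [NumberField L₂] [Algebra F L₂] [Field L₃] [NumberField L₃] [Algebra F L₃]
    {τ₁ : L₁ ≃ₐ[F] L₁} {τ₂ : L₂ ≃ₐ[F] L₂} {τ₃ : L₃ ≃ₐ[F] L₃} (hQ₁ : Quad F L₁ τ₁)
    (hQ₂ : Quad F L₂ τ₂) (hQ₃ : Quad F L₃ τ₃) (ε : ClassGroup (𝓞 F) →* ℂˣ)
    (hε2 : ∀ c, ((ε c : ℂˣ) : ℂ) = 1 ∨ ((ε c : ℂˣ) : ℂ) = -1) (hε : ε ≠ 1)
    (hl1 : ∀ v : HeightOneSpectrum (𝓞 F), loc L₁ v = 1 ∨ loc L₁ v = -1)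
    (hl2 : ∀ v : HeightOneSpectrum (𝓞 F), loc L₂ v = 1 ∨ loc L₂ v = -1)
    (hl3 : ∀ v : HeightOneSpectrum (𝓞 F), loc L₃ v = loc L₁ v * loc L₂ v)
    (h1 : ∀ v : HeightOneSpectrum (𝓞 F), loc L₁ v = 1 → ε (cls v) = 1)
    (h2 : ∀ v : HeightOneSpectrum (𝓞 F), loc L₂ v = 1 → ε (cls v) = 1) : False := by
  obtain ⟨C, hC⟩ := LI_bdd ε hε
  obtain ⟨κ₁, hκ₁, t1⟩ := zeta_tendsto L₁
  obtain ⟨κ₂, hκ₂, t2⟩ := zeta_tendsto L₂
  obtain ⟨κ₃, hκ₃, t3⟩ := zeta_tendsto L₃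
  refine growth (C := C * C) (l := fun s => ‖LI (ich ε) (s : ℂ)‖ * ‖LI (ich ε) (s : ℂ)‖)
    hκ₁ hκ₂ t1 t2 t3 (fun s => norm_nonneg _) ?_ ?_
  · filter_upwards [hC] with s hs
    exact mul_le_mul hs hs (norm_nonneg _) ((norm_nonneg _).trans hs)
  · filter_upwards [self_mem_nhdsWithin] with s hs
    have hs' : (1 : ℝ) < s := hs
    have hsC : 1 < ((s : ℂ)).re := by simpa using hs'
    obtain ⟨hz, p1⟩ := t_ZPROD hLoc F L₁ τ₁ hQ₁ (s : ℂ) hsC
    obtain ⟨-, p2⟩ := t_ZPROD hLoc F L₂ τ₂ hQ₂ (s : ℂ) hsC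
    obtain ⟨-, p3⟩ := t_ZPROD hLoc F L₃ τ₃ hQ₃ (s : ℂ) hsC
    have p0 := euler F hsC
    have pe := euler_ich ε hsC
    have hcmp := norm_le_of_hasProd ((pe.mul pe).mul p3) ((p0.mul p1).mul p2) ?_
    · rw [norm_mul, norm_mul, norm_mul, norm_mul, norm_div, norm_div, norm_div] at hcmp
      have hz' : 0 < ‖dedekindZeta F (s : ℂ)‖ := norm_pos_iff.2 hz
      have e1 : ‖dedekindZeta F (s : ℂ)‖ * (‖dedekindZeta L₁ (s : ℂ)‖ / ‖dedekindZeta F (s : ℂ)‖) *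
          (‖dedekindZeta L₂ (s : ℂ)‖ / ‖dedekindZeta F (s : ℂ)‖) =
          (‖dedekindZeta L₁ (s : ℂ)‖ * ‖dedekindZeta L₂ (s : ℂ)‖) / ‖dedekindZeta F (s : ℂ)‖ := by
        field_simp
      rw [e1, ← mul_div_assoc] at hcmp
      exact (div_le_div_iff_of_pos_right hz').1 hcmp
    · intro v
      obtain ⟨u, w, hw, hwu, hu1, hw1⟩ := local_facts hs' v
      have huu : 0 < u := lt_of_lt_of_le hw hwu
      have hv0 : ‖(1 - (Ideal.absNorm v.asIdeal : ℂ) ^ (-(s : ℂ)))⁻¹‖ = u := by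
        rw [← hu1, one_mul]
      simp only [norm_mul]
      rw [hv0]
      rcases hl1 v with a1 | a1 <;> rcases hl2 v with a2 | a2
      · have a3 : loc L₃ v = 1 := by rw [hl3, a1, a2]; rfl
        have a4 := h1 v a1
        rw [a1, a2, a3, a4, Units.val_one, Int.cast_one, hu1]
      · have a3 : loc L₃ v = -1 := by rw [hl3, a1, a2]; rfl
        have a4 := h1 v a1
        rw [a1, a2, a3, a4, Units.val_one, Int.cast_one, Int.cast_neg, Int.cast_one, hu1, hw1]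
      · have a3 : loc L₃ v = -1 := by rw [hl3, a1, a2]; rfl
        have a4 := h2 v a2
        rw [a1, a2, a3, a4, Units.val_one, Int.cast_one, Int.cast_neg, Int.cast_one, hu1, hw1]
        apply le_of_eq
        ring
      · have a3 : loc L₃ v = 1 := by rw [hl3, a1, a2]; rfl
        rw [a1, a2, a3, Int.cast_one, Int.cast_neg, Int.cast_one, hw1, hu1]
        rcases hε2 (cls v) with a4 | a4
        · rw [a4, hu1]
          have : w * w ≤ u * u := mul_le_mul hwu hwu hw.le huu.le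
          nlinarith
        · rw [a4, hw1]
          apply le_of_eq
          ring

/-- uniqueness of the character of the class group which belongs to an unramified extension -/
theorem uniq (hLoc : S_LOC) {L : Type} [Field L] [NumberField L] [Algebra F L]
    {τ : L ≃ₐ[F] L} (hQ : Quad F L τ) (ε ε' : ClassGroup (𝓞 F) →* ℂˣ)
    (hε2 : ∀ c, ((ε c : ℂˣ) : ℂ) = 1 ∨ ((ε c : ℂˣ) : ℂ) = -1)
    (hε2' : ∀ c, ((ε' c : ℂˣ) : ℂ) = 1 ∨ ((ε' c : ℂˣ) : ℂ) = -1)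
    (hε : ε ≠ 1) (hε' : ε' ≠ 1) (hne : ε ≠ ε')
    (hl : ∀ v : HeightOneSpectrum (𝓞 F), loc L v = 1 ∨ loc L v = -1)
    (h1 : ∀ v : HeightOneSpectrum (𝓞 F), loc L v = 1 → ε (cls v) = 1)
    (h2 : ∀ v : HeightOneSpectrum (𝓞 F), loc L v = 1 → ε' (cls v) = 1) : False := by
  have hne' : ε * ε' ≠ 1 := by
    intro h
    apply hne
    refine MonoidHom.ext fun c => Units.ext ?_
    have h3 : ((ε c : ℂˣ) : ℂ) * ((ε' c : ℂˣ) : ℂ) = 1 := by
      rw [← Units.val_mul, ← MonoidHom.mul_apply, h, MonoidHom.one_apply, Units.val_one]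
    rcases hε2' c with h4 | h4
    · rw [h4] at h3 ⊢
      simpa using h3
    · rw [h4] at h3 ⊢
      linear_combination -h3
  obtain ⟨C, hC⟩ := LI_bdd ε hε
  obtain ⟨C', hC'⟩ := LI_bdd ε' hε'
  obtain ⟨C'', hC''⟩ := LI_bdd (ε * ε') hne'
  obtain ⟨κ, hκ, t⟩ := zeta_tendsto L
  obtain ⟨κ₀, hκ₀, t0⟩ := zeta_tendsto F
  refine growth (C := C * C' * C'') (l := fun s => ‖LI (ich ε) (s : ℂ)‖ * ‖LI (ich ε') (s : ℂ)‖ *
    ‖LI (ich (ε * ε')) (s : ℂ)‖)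
    hκ hκ t t t0 (fun s => norm_nonneg _) ?_ ?_
  · filter_upwards [hC, hC', hC''] with s hs hs' hs''
    have n1 := norm_nonneg (LI (ich ε) (s : ℂ))
    have n2 := norm_nonneg (LI (ich ε') (s : ℂ))
    have n3 := norm_nonneg (LI (ich (ε * ε')) (s : ℂ))
    exact mul_le_mul (mul_le_mul hs hs' n2 (n1.trans hs)) hs'' n3
      (mul_nonneg (n1.trans hs) (n2.trans hs'))
  · filter_upwards [self_mem_nhdsWithin] with s hs
    have hs' : (1 : ℝ) < s := hs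
    have hsC : 1 < ((s : ℂ)).re := by simpa using hs'
    obtain ⟨hz, p1⟩ := t_ZPROD hLoc F L τ hQ (s : ℂ) hsC
    have p0 := euler F hsC
    have pe := euler_ich ε hsC
    have pe' := euler_ich ε' hsC
    have pe'' := euler_ich (ε * ε') hsC
    have hcmp := norm_le_of_hasProd ((pe.mul pe').mul pe'') ((p0.mul p1).mul p1) ?_
    · rw [norm_mul, norm_mul, norm_mul, norm_mul, norm_div] at hcmp
      have hz' : 0 < ‖dedekindZeta F (s : ℂ)‖ := norm_pos_iff.2 hz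
      have e1 : ‖dedekindZeta F (s : ℂ)‖ * (‖dedekindZeta L (s : ℂ)‖ / ‖dedekindZeta F (s : ℂ)‖) *
          (‖dedekindZeta L (s : ℂ)‖ / ‖dedekindZeta F (s : ℂ)‖) =
          (‖dedekindZeta L (s : ℂ)‖ * ‖dedekindZeta L (s : ℂ)‖) / ‖dedekindZeta F (s : ℂ)‖ := by
        field_simp
      rw [e1] at hcmp
      exact (div_le_iff₀ hz').1 hcmp
    · intro v
      obtain ⟨u, w, hw, hwu, hu1, hw1⟩ := local_facts hs' v
      have huu : 0 < u := lt_of_lt_of_le hw hwu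
      have hv0 : ‖(1 - (Ideal.absNorm v.asIdeal : ℂ) ^ (-(s : ℂ)))⁻¹‖ = u := by
        rw [← hu1, one_mul]
      simp only [norm_mul, MonoidHom.mul_apply, Units.val_mul]
      rw [hv0]
      have m11 : (1 : ℂ) * 1 = 1 := by norm_num
      have m12 : (1 : ℂ) * -1 = -1 := by norm_num
      have m21 : (-1 : ℂ) * 1 = -1 := by norm_num
      have m22 : (-1 : ℂ) * -1 = 1 := by norm_num
      rcases hl v with a1 | a1
      · rw [a1, h1 v a1, h2 v a1, Units.val_one, Int.cast_one, m11, hu1]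
      · rw [a1, Int.cast_neg, Int.cast_one, hw1]
        rcases hε2 (cls v) with a4 | a4 <;> rcases hε2' (cls v) with a5 | a5 <;> rw [a4, a5]
        · rw [m11, hu1]
          have : w * w ≤ u * u := mul_le_mul hwu hwu hw.le huu.le
          nlinarith
        · rw [m12, hu1, hw1]
        · rw [m21, hu1, hw1]
          apply le_of_eq
          ring
        · rw [m22, hu1, hw1]
          apply le_of_eq
          ring

end dens

end Pool.Agent.Helper9.RS
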