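import Pool.Graph.R_pool_sql_team_seeded_5cf16337.K3h55.E2.Asm2
import Pool.Graph.R_pool_sql_team_seeded_5cf16337.K3h56.E2.Chi2
import Pool.Graph.R_pool_sql_team_seeded_5cf16337.K3h35.E2.One2

/-!
# Rubin's conjecture for groups of exponent two, with a bounded denominator
The proofs are those of `K3h55.E2.t_ASM2`, `K3h56.E2.t_CHI2`, `K3h35.E2.t_ONE2`, with a factor `2 ^ e`.
-/

set_option autoImplicit false
set_option linter.unusedSectionVars false

open NumberField IsDedekindDomain Filter Topology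

noncomputable section

namespace Pool.Agent.Helper9.RS

open Pool.Agent.K3h30.RS Pool.Agent.K3h56.E2

/-- The statement for one character, with denominator `d`. -/
def CharR {F H G : Type} [Field F] [NumberField F] [Field H] [NumberField H] [Algebra F H]
    [CommGroup G] [Finite G] [MulSemiringAction G H] (D : RubinData F H G)
    (T : Finset (HeightOneSpectrum (𝓞 F))) (d : ℕ) (χ : G →* ℂˣ) : Prop :=
  (¬ D.Active χ → Tendsto (fun s : ℂ => (s ^ D.r)⁻¹ * D.L χ s) (𝓝[≠] 0) (𝓝 0)) ∧
  (D.Active χ → ∃ (x : Fin D.r → Hˣ) (q : ℝ) (n : ℤ),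
    Subgroup.closure (Set.range x) = part (D.U T) χ ∧
    Tendsto (fun s : ℂ => (s ^ D.r)⁻¹ * D.L χ s) (𝓝[≠] 0) (𝓝 (q : ℂ)) ∧
    (d : ℝ) * (q * ∏ v ∈ T, ((Ideal.absNorm v.asIdeal : ℝ) - (sgn χ (D.σ v) : ℝ))) =
      n * (Nat.card G : ℝ) * Matrix.det (Matrix.of fun a b : Fin D.r =>
        Real.log (av (D.w a) ((x b : Hˣ) : H))))

section asm

open Pool.Agent.K3h55.E2 Pool.Agent.K3h62.E2

/-- Rubin's conjecture with denominator `d` from the statements for the characters. -/
theorem asm {F H G : Type} [Field F] [NumberField F] [Field H] [NumberField H] [Algebra F H]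
    [CommGroup G] [Finite G] [MulSemiringAction G H] [IsGaloisGroup G F H]
    (D : RubinData F H G) (T : Finset (HeightOneSpectrum (𝓞 F))) (h2 : ∀ g : G, g * g = 1)
    (d : ℕ) (hd : 0 < d) (hS : ∀ χ : G →* ℂˣ, CharR D T d χ) :
    ∃ u : Wedge G D.r (D.U T), D.InER u ∧ D.IsStark T u ∧
      ∀ ψ : Fin D.r → GHom G (D.U T), ∃ z : MonoidAlgebra ℤ G, (d : ℚ) • u.value ψ = toQ z := by
  classical
  have hdQ : (d : ℚ) ≠ 0 := by exact_mod_cast hd.ne'
  have hdC : (d : ℂ) ≠ 0 := by exact_mod_cast hd.ne'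
  let _ := Fintype.ofFinite G
  have hfin : Finite (G →* ℂˣ) := finite_chars h2
  have hfin' : Finite {χ : G →* ℂˣ // D.Active χ} := inferInstance
  obtain ⟨n, ⟨e⟩⟩ := Finite.exists_equiv_fin {χ : G →* ℂˣ // D.Active χ}
  choose x q m hcl hlim hq using fun χ : {χ : G →* ℂˣ // D.Active χ} => (hS χ.1).2 χ.2
  have hG : (Nat.card G : ℂ) ≠ 0 := by
    exact_mod_cast Nat.card_pos.ne'
  have hGQ : (Nat.card G : ℚ) ≠ 0 := by
    exact_mod_cast Nat.card_pos.ne'
  have hmem : ∀ (χ : {χ : G →* ℂˣ // D.Active χ}) (b : Fin D.r), x χ b ∈ part (D.U T) χ.1 := by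
    intro χ b
    rw [← hcl χ]
    exact Subgroup.subset_closure (Set.mem_range_self b)
  have hU : ∀ (χ : {χ : G →* ℂˣ // D.Active χ}) (b : Fin D.r), x χ b ∈ D.U T :=
    fun χ b => (hmem χ b).1
  have hx1 : ∀ (χ : {χ : G →* ℂˣ // D.Active χ}) (b : Fin D.r) (g : G), χ.1 g = 1 →
      act g (x χ b) = x χ b := fun χ b => (hmem χ b).2.1
  have hxn : ∀ (χ : {χ : G →* ℂˣ // D.Active χ}) (b : Fin D.r) (g : G), χ.1 g ≠ 1 →
      act g (x χ b) = (x χ b)⁻¹ := fun χ b => (hmem χ b).2.2
  let ε : (G →* ℂˣ) → ℤ := fun χ => ∏ v ∈ T, (-sgn χ (D.σ v))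
  let κ : {χ : G →* ℂˣ // D.Active χ} → ℚ := fun χ =>
    (ε χ.1 * m χ : ℤ) / ((d : ℚ) * (Nat.card G : ℚ) ^ D.r)
  let cf : {χ : G →* ℂˣ // D.Active χ} → MonoidAlgebra ℚ G := fun χ =>
    ∑ g : G, MonoidAlgebra.single g (κ χ * eps χ.1 g)
  have hcf : ∀ (χ : {χ : G →* ℂˣ // D.Active χ}) (χ' : G →* ℂˣ),
      cvHom χ' (toR (cf χ)) = if χ.1 = χ' then (κ χ : ℂ) * (Nat.card G : ℂ) else 0 := by
    intro χ χ'
    simp only [cf]
    rw [cv_sum h2]
    split_ifs with h
    · subst h
      rw [sum_self, ← Nat.card_eq_fintype_card]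
    · rw [sum_ne h2 h, mul_zero]
  let xx : {χ : G →* ℂˣ // D.Active χ} → Fin D.r → D.U T := fun χ b => ⟨x χ b, hU χ b⟩
  -- the limit of the factor
  have hfac : ∀ χ : G →* ℂˣ, Tendsto (fun s : ℂ => ∏ v ∈ T, (1 - (χ (D.σ v) : ℂ) *
      (Ideal.absNorm v.asIdeal : ℂ) ^ (1 - s))) (𝓝[≠] 0)
      (𝓝 ((ε χ : ℂ) * ∏ v ∈ T, ((Ideal.absNorm v.asIdeal : ℂ) - ((sgn χ (D.σ v) : ℤ) : ℂ)))) := by
    intro χ
    have hc : Continuous fun s : ℂ => ∏ v ∈ T, (1 - (χ (D.σ v) : ℂ) *
        (Ideal.absNorm v.asIdeal : ℂ) ^ (1 - s)) := by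
      refine continuous_finsetProd _ fun v _ => ?_
      refine continuous_const.sub (continuous_const.mul ?_)
      refine Continuous.const_cpow (continuous_const.sub continuous_id) (Or.inl ?_)
      have h0 : Ideal.absNorm v.asIdeal ≠ 0 := by
        rw [Ne, Ideal.absNorm_eq_zero_iff]
        exact v.ne_bot
      exact_mod_cast h0
    have h3 := (hc.tendsto 0).mono_left (nhdsWithin_le_nhds (s := {0}ᶜ))
    have hval : ∏ v ∈ T, (1 - (χ (D.σ v) : ℂ) * (Ideal.absNorm v.asIdeal : ℂ) ^ (1 - (0 : ℂ))) =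
        (ε χ : ℂ) * ∏ v ∈ T, ((Ideal.absNorm v.asIdeal : ℂ) - ((sgn χ (D.σ v) : ℤ) : ℂ)) := by
      simp only [ε]
      push_cast
      rw [← Finset.prod_mul_distrib]
      refine Finset.prod_congr rfl fun v _ => ?_
      rw [chi_sgn h2, sub_zero, Complex.cpow_one]
      have h4 : ((sgn χ (D.σ v) : ℤ) : ℂ) * ((sgn χ (D.σ v) : ℤ) : ℂ) = 1 := by
        exact_mod_cast sgn_sq χ (D.σ v)
      linear_combination (-1 : ℂ) * h4
    rw [← hval]
    exact h3
  refine ⟨⟨n, fun k => cf (e.symm k), fun k => xx (e.symm k)⟩, ?_, And.symm ⟨?_, ?_⟩⟩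
  · intro χ hχ k
    rw [charValue_eq, hcf, if_neg]
    rintro rfl
    exact hχ (e.symm k).2
  · intro ψ
    have key : ∀ χ : {χ : G →* ℂˣ // D.Active χ}, ∃ z : MonoidAlgebra ℤ G,
        (d : ℚ) • (cf χ * toQ (Matrix.det (Matrix.of fun a b : Fin D.r =>
          (ψ a).f (Additive.ofMul (xx χ b))))) = toQ z := by
      intro χ
      let mm : Fin D.r → Fin D.r → ℤ := fun a b => ((ψ a).f (Additive.ofMul (xx χ b))).coeff 1
      have e1 : ∀ a b, (ψ a).f (Additive.ofMul (xx χ b)) = mm a b • NN χ.1 := fun a b =>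
        eq_smul_NN h2 _ (ghom_part (ψ a) (xx χ b) (hx1 χ b) (hxn χ b))
      have e2 : Matrix.det (Matrix.of fun a b : Fin D.r => (ψ a).f (Additive.ofMul (xx χ b))) =
          (Matrix.det (Matrix.of mm)) • NN χ.1 ^ D.r := by
        rw [← det_NN χ.1 mm]
        congr 1
        ext1 a b
        exact e1 a b
      refine ⟨(ε χ.1 * m χ * Matrix.det (Matrix.of mm)) • NN χ.1, ?_⟩
      rw [e2]
      simp only [cf]
      rw [coef_eq, smul_mul_assoc, ← map_mul, mul_smul_comm, NN_pow h2, toQ_smul, toQ_smul,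
        toQ_smul, smul_smul, smul_smul, smul_smul]
      congr 1
      simp only [κ]
      rw [Nat.card_eq_fintype_card] at hGQ ⊢
      push_cast
      field_simp
    choose z hz using key
    refine ⟨∑ k, z (e.symm k), ?_⟩
    unfold Wedge.value
    rw [map_sum, Finset.smul_sum]
    exact Finset.sum_congr rfl fun k _ => hz (e.symm k)
  · intro χ
    have hreg : charValue χ (Wedge.regulator (⟨n, fun k => cf (e.symm k),
        fun k => xx (e.symm k)⟩ : Wedge G D.r (D.U T)) D.w) =
        ∑ k : Fin n, cvHom χ (toR (cf (e.symm k))) * cvHom χ (Matrix.det (Matrix.of fun a b =>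
          reg G (D.w a) (x (e.symm k) b : Hˣ))) := by
      rw [charValue_eq]
      unfold Wedge.regulator
      rw [map_sum]
      exact Finset.sum_congr rfl fun k _ => map_mul _ _ _
    have hLT : ∀ s : ℂ, (s ^ D.r)⁻¹ * D.LT T χ⁻¹ s = (∏ v ∈ T, (1 - (χ (D.σ v) : ℂ) *
        (Ideal.absNorm v.asIdeal : ℂ) ^ (1 - s))) * ((s ^ D.r)⁻¹ * D.L χ s) := by
      intro s
      unfold RubinData.LT
      rw [inv_chi h2]
      ring
    simp only [hLT]
    rw [hreg]
    by_cases hA : D.Active χ
    · have h3 : ∑ k : Fin n, cvHom χ (toR (cf (e.symm k))) * cvHom χ (Matrix.det (Matrix.of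
          fun a b => reg G (D.w a) (x (e.symm k) b : Hˣ))) =
          ((ε χ : ℂ) * ∏ v ∈ T, ((Ideal.absNorm v.asIdeal : ℂ) - ((sgn χ (D.σ v) : ℤ) : ℂ))) *
            (q ⟨χ, hA⟩ : ℂ) := by
        rw [Finset.sum_eq_single (e ⟨χ, hA⟩)]
        · rw [Equiv.symm_apply_apply, hcf, if_pos rfl,
            cv_det h2 χ D.w (fun b => (x ⟨χ, hA⟩ b : Hˣ)) (hx1 ⟨χ, hA⟩) (hxn ⟨χ, hA⟩)]
          have h4 := hq ⟨χ, hA⟩
          generalize Matrix.det (Matrix.of fun a b : Fin D.r =>
            Real.log (av (D.w a) ((x ⟨χ, hA⟩ b : Hˣ) : H))) = dt at h4 ⊢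
          have h5 : (d : ℂ) * ((q ⟨χ, hA⟩ : ℂ) * ∏ v ∈ T, ((Ideal.absNorm v.asIdeal : ℂ) -
              ((sgn χ (D.σ v) : ℤ) : ℂ))) = (m ⟨χ, hA⟩ : ℂ) * (Nat.card G : ℂ) * (dt : ℂ) := by
            exact_mod_cast h4
          have h6 : (d : ℂ) * ((κ ⟨χ, hA⟩ : ℚ) : ℂ) * (Nat.card G : ℂ) ^ D.r =
              (ε χ : ℂ) * (m ⟨χ, hA⟩ : ℂ) := by
            simp only [κ]
            push_cast
            field_simp
          refine mul_left_cancel₀ hdC ?_
          calc (d : ℂ) * (((κ ⟨χ, hA⟩ : ℚ) : ℂ) * (Nat.card G : ℂ) *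
                ((Nat.card G : ℂ) ^ D.r * (dt : ℂ))) =
              ((d : ℂ) * ((κ ⟨χ, hA⟩ : ℚ) : ℂ) * (Nat.card G : ℂ) ^ D.r) *
                ((Nat.card G : ℂ) * (dt : ℂ)) := by
                ring
            _ = (ε χ : ℂ) * ((m ⟨χ, hA⟩ : ℂ) * (Nat.card G : ℂ) * (dt : ℂ)) := by
                rw [h6]
                ring
            _ = _ := by
                rw [← h5]
                ring
        · intro k _ hk
          rw [hcf, if_neg, zero_mul]
          intro h4
          apply hk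
          rw [← e.apply_symm_apply k]
          congr 1
          exact Subtype.ext h4
        · intro h
          exact absurd (Finset.mem_univ _) h
      rw [h3]
      exact (hfac χ).mul (hlim ⟨χ, hA⟩)
    · have h3 : ∑ k : Fin n, cvHom χ (toR (cf (e.symm k))) * cvHom χ (Matrix.det (Matrix.of
          fun a b => reg G (D.w a) (x (e.symm k) b : Hˣ))) = 0 := by
        refine Finset.sum_eq_zero fun k _ => ?_
        rw [hcf, if_neg, zero_mul]
        rintro rfl
        exact hA (e.symm k).2
      rw [h3]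
      have h4 := (hfac χ).mul ((hS χ).1 hA)
      rwa [mul_zero] at h4



end asm

section chi

/-- the nontrivial characters -/
theorem chi2 (hZ : S_ZETA0X) (hZP : S_ZPROD) (hLoc : S_LOC) (hLim : S_LIMX) (hDict : S_DICT)
    (hFrob : S_FROB) (hFw : S_FINW) (hIw : S_INFW) (hCount : S_COUNT) (hPl : S_PLACES)
    (hMinus : S_MINUS) (hRank : S_RANK) (hKH : S_KH) (hAV : S_AVK) (hBa : S_BASIS)
    (hTP : S_TPART) {F H G : Type} [Field F] [NumberField F] [Field H] [NumberField H]
    [Algebra F H] [CommGroup G] [Finite G] [MulSemiringAction G H] [IsGaloisGroup G F H]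
    (D : RubinData F H G) (T : Finset (HeightOneSpectrum (𝓞 F))) (hT : D.Allowed T)
    (hG : ∀ g : G, g * g = 1) (e : ℕ)
    (hdvd : Nat.card G ∣ 2 ^ (e + ((Fintype.card (InfinitePlace F) + D.S.card - (D.r + 1)) +
      (oddCard T - (D.r + 1))))) (χ : G →* ℂˣ) (hχ : χ ≠ 1) : CharR D T (2 ^ e) χ := by
  classical
  have hsq : ∀ g : G, χ g * χ g = 1 := fun g => by rw [← map_mul, hG, map_one]
  have hex : ∃ g : G, χ g ≠ 1 := by
    by_contra hcon
    push Not at hcon
    exact hχ (MonoidHom.ext hcon)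
  obtain ⟨K, _, _, _, _, τ, hd⟩ := hDict F H G χ hsq hex
  have htw : IsScalarTower F K H := hd.tower
  obtain ⟨f, hfi, hfl, hfr, hfs, ⟨p1, hp1, hp1'⟩, hact, -⟩ := hPl F H G D
  obtain ⟨A0, hA0, hA0c⟩ := exists_over hLoc hd.quad D.S
  -- the infinite places
  have hA : Fintype.card {v : InfinitePlace F // SplAt H χ (Sum.inl v)} +
      Fintype.card (InfinitePlace F) = Fintype.card (InfinitePlace K) := by
    rw [← hCount F K τ hd.quad, Nat.card_eq_fintype_card]
    congr 1
    exact Fintype.card_congr (Equiv.subtypeEquivRight fun v => splAt_inl hIw hd v)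
  set B : Finset (HeightOneSpectrum (𝓞 F)) := D.S.filter fun v => loc K v = 1 with hBdef
  set A : Finset (InfinitePlace F) := Finset.univ.filter fun v => SplAt H χ (Sum.inl v) with hAdef
  have hAcard : A.card + Fintype.card (InfinitePlace F) = Fintype.card (InfinitePlace K) := by
    rw [← hA, hAdef, Fintype.card_subtype]
  set P : Finset (InfinitePlace F ⊕ HeightOneSpectrum (𝓞 F)) := A.disjSum B with hPdef
  have hPcard : P.card = A.card + B.card := Finset.card_disjSum _ _
  have hPmem : ∀ p, p ∈ P ↔ InSF D p ∧ SplAt H χ p := by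
    intro p
    rcases p with v | v
    · rw [hPdef, Finset.inl_mem_disjSum, hAdef, Finset.mem_filter]
      simp [InSF]
    · rw [hPdef, Finset.inr_mem_disjSum, hBdef, Finset.mem_filter, splAt_inr hFw hd]
      rfl
  have hcases : ∀ a, (∃ w, D.w a = Sum.inl w) ∨ ∃ w, D.w a = Sum.inr w := by
    intro a
    rcases D.w a with w | w
    · exact Or.inl ⟨w, rfl⟩
    · exact Or.inr ⟨w, rfl⟩
  have hfIn : ∀ a, InSF D (f a) := by
    intro a
    rcases hcases a with ⟨w, hw⟩ | ⟨w, hw⟩
    · rw [hfl a w hw]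
      trivial
    · obtain ⟨v, h1, h2, -⟩ := hfr a w hw
      rw [h1]
      exact h2
  have hfP : ∀ a, f a ∈ P := fun a => (hPmem _).2 ⟨hfIn a, hfs χ a⟩
  have himg : (Finset.univ.image f) ⊆ P := by
    intro p hp
    obtain ⟨a, -, rfl⟩ := Finset.mem_image.1 hp
    exact hfP a
  have himgc : (Finset.univ.image f).card = D.r := by
    rw [Finset.card_image_of_injective _ hfi, Finset.card_univ, Fintype.card_fin]
  -- the Euler product
  have heuler : ∀ s : ℂ, 1 < s.re → HasProd (fun v : {v : HeightOneSpectrum (𝓞 F) // v ∉ D.S} =>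
      (1 - ((loc K (v : HeightOneSpectrum (𝓞 F)) : ℤ) : ℂ) *
        (Ideal.absNorm (v : HeightOneSpectrum (𝓞 F)).asIdeal : ℂ) ^ (-s))⁻¹) (D.L χ s) := by
    intro s hs
    have h1 := D.euler χ s hs
    have h2 : ∀ v : {v : HeightOneSpectrum (𝓞 F) // v ∉ D.S},
        ((χ (D.σ (v : HeightOneSpectrum (𝓞 F))) : ℂˣ) : ℂ) =
          ((loc K (v : HeightOneSpectrum (𝓞 F)) : ℤ) : ℂ) := fun v =>
      (hFrob F H G K τ χ hd v (D.σ v) (D.unramified v v.2) (D.frob v v.2)).symm
    simp only [h2] at h1
    exact h1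
  refine ⟨fun hna => ?_, fun ha => ?_⟩
  · -- `χ` is not active: the order is larger than `r`
    obtain ⟨-, q, hq, -⟩ := hLim hZ hZP hLoc F K τ hd.quad D.S A0 hA0 (D.L χ) (D.analytic χ)
      heuler (by omega)
    have hn : (Fintype.card (InfinitePlace K) + A0.card) -
        (Fintype.card (InfinitePlace F) + D.S.card) = P.card := by omega
    rw [hn] at hq
    have hlt : D.r < P.card := by
      rw [← himgc]
      apply Finset.card_lt_card
      refine ⟨himg, fun hsub => hna ((hact χ hχ).2 fun p h1 h2 => ?_)⟩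
      obtain ⟨a, -, ha⟩ := Finset.mem_image.1 (hsub ((hPmem p).2 ⟨h1, h2⟩))
      exact ⟨a, ha⟩
    have h1 : Tendsto (fun s : ℂ => s ^ (P.card - D.r)) (𝓝[≠] 0) (𝓝 0) := by
      have h2 : Tendsto (fun s : ℂ => s ^ (P.card - D.r)) (𝓝 0) (𝓝 (0 ^ (P.card - D.r))) :=
        (continuous_pow _).tendsto _
      rw [zero_pow (by omega)] at h2
      exact h2.mono_left nhdsWithin_le_nhds
    have h3 := h1.mul hq
    rw [zero_mul] at h3
    refine h3.congr' ?_
    filter_upwards [self_mem_nhdsWithin] with s hs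
    have hs0 : s ≠ 0 := hs
    have h4 : s ^ P.card = s ^ (P.card - D.r) * s ^ D.r := by
      rw [← pow_add]
      congr 1
      omega
    rw [h4]
    field_simp
  · -- `χ` is active
    have himgP : Finset.univ.image f = P := by
      apply le_antisymm himg
      intro p hp
      obtain ⟨h1, h2⟩ := (hPmem p).1 hp
      obtain ⟨a, ha'⟩ := (hact χ hχ).1 ha p h1 h2
      exact Finset.mem_image.2 ⟨a, Finset.mem_univ a, ha'⟩
    have hr : D.r = P.card := by rw [← himgc, himgP]
    have hrc : D.r + (Fintype.card (InfinitePlace F) + D.S.card) =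
        Fintype.card (InfinitePlace K) + A0.card := by omega
    have hr1 : D.r + 1 ≤ Fintype.card (InfinitePlace F) + D.S.card := by
      have h1 : insert p1 (Finset.univ.image f) ⊆ Finset.univ.disjSum D.S := by
        intro p hp
        have h2 : InSF D p := by
          rw [Finset.mem_insert] at hp
          rcases hp with rfl | hp
          · exact hp1
          · obtain ⟨a, -, rfl⟩ := Finset.mem_image.1 hp
            exact hfIn a
        rcases p with p | p
        · simp
        · rw [Finset.inr_mem_disjSum]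
          exact h2
      have h2 := Finset.card_le_card h1
      rw [Finset.card_insert_of_notMem (by simpa using hp1'), himgc, Finset.card_disjSum,
        Finset.card_univ] at h2
      exact h2
    -- the places of `K`
    have hup : ∀ a : Fin D.r, ∃ u : Place K, Below (D.w a) u ∧ Below u (f a) ∧
        ∀ x : K, av (D.w a) (algebraMap K H x) = av u x := by
      intro a
      obtain ⟨u, p, h1, h2, h3, h4⟩ := hAV F H G K (D.w a) (D.splits a)
      have h5 : p = f a := by
        rcases hcases a with ⟨w, hw⟩ | ⟨w, hw⟩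
        · rw [hfl a w hw]
          rw [hw] at h3
          rcases p with p | p
          · exact congrArg Sum.inl h3.symm
          · exact absurd h3 (by simp [Below])
        · obtain ⟨v, k1, -, k3⟩ := hfr a w hw
          rw [k1]
          rw [hw] at h3
          rcases p with p | p
          · exact absurd h3 (by simp [Below])
          · have k4 : Above {p} w := h3
            rw [above_singleton] at k3 k4
            congr 1
            exact HeightOneSpectrum.ext (by rw [← k3, ← k4])
      rw [h5] at h2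
      exact ⟨u, h1, h2, h4⟩
    choose u hu1 hu2 hu3 using hup
    have huz : ∀ a, ∃ z : K, av (u a) (τ z) ≠ av (u a) z := by
      intro a
      by_contra hcon
      push Not at hcon
      rcases hcases a with ⟨w, hw⟩ | ⟨w, hw⟩
      · have h1 := hu1 a
        rw [hw] at h1
        rcases hua : u a with u' | u'
        · rw [hua] at h1 hcon
          have h2 : w.comap (algebraMap K H) = u' := h1
          refine (hIw F H G K τ χ hd w).1 (fun γ hγ => ?_) ?_
          · rw [← hw] at hγ
            rw [D.splits a γ hγ, map_one]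
          · rw [h2]
            ext z
            have h3 : u' (τ z) ^ u'.mult = u' z ^ u'.mult := hcon z
            exact (pow_left_inj₀ (apply_nonneg u' _) (apply_nonneg u' _) u'.mult_ne_zero).1 h3
        · rw [hua] at h1
          exact absurd h1 (by simp [Below])
      · have h1 := hu1 a
        rw [hw] at h1
        rcases hua : u a with u' | u'
        · rw [hua] at h1
          exact absurd h1 (by simp [Below])
        · rw [hua] at hcon
          obtain ⟨v, k1, -, k3⟩ := hfr a w hw
          have hl : loc K v = 1 := by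
            refine (hFw F H G K τ χ hd v w k3).1 fun γ hγ => ?_
            rw [← hw] at hγ
            rw [D.splits a γ hγ, map_one]
          obtain ⟨P1, P2, hne, k4, k5, -⟩ := (hLoc F K τ hd.quad v).1 hl
          have h2 := hu2 a
          rw [k1, hua] at h2
          have h3 : Above {v} u' := h2
          exact Pool.Agent.K3h72.E2.no_split hne k5 ((k4 u').1 h3) fun x =>
            av_mem u' (by
              have h4 := hcon (x : K)
              rw [← h4]
              rfl)
    have huA : ∀ a w, u a = Sum.inr w → w ∈ A0 := by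
      intro a w hw
      have h1 := hu2 a
      have h2 := hfIn a
      rw [hw] at h1
      rcases hfa : f a with v | v
      · rw [hfa] at h1
        exact absurd h1 (by simp [Below])
      · rw [hfa] at h1 h2
        exact (hA0 w).2 ⟨v, h2, h1⟩
    obtain ⟨q, a0, hq, hqx⟩ := hMinus F K τ hd.quad D.S A0 hA0
      (fun v hv => squarefree_mid _ (D.unramified v hv)) D.r u f hu2 hfi huz huA hrc hr1
      (D.L χ) (D.analytic χ) heuler
    -- the map from `K^*` to `H^*`
    let j : Kˣ →* Hˣ := Units.map (algebraMap K H : K →* H)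
    have hj : Function.Injective j := Pool.Agent.K3h3.E2.inj
    obtain ⟨hK1, hK2⟩ := hKH F H G K τ χ hd D A0 hA0
    have hK1' : (SU K A0 ⊓ minus τ).map j = part (D.U ∅) χ := hK1
    have hK2' : (mu K ⊓ minus τ).map j = part (mu H) χ := hK2
    have hsq2 : ((part (D.U ∅) χ).map (powMonoidHom 2)).relIndex (part (D.U ∅) χ) =
        2 ^ (D.r + 1) := by
      rw [← hK1', Subgroup.map_map]
      have h1 : (powMonoidHom 2 : Hˣ →* Hˣ).comp j = j.comp (powMonoidHom 2) := by
        ext x
        simp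
      rw [h1, ← Subgroup.map_map, Subgroup.relIndex_map_map_of_injective _ _ hj,
        hRank F K τ hd.quad D.S A0 hA0 D.r hrc]
    obtain ⟨x, hx1, hx2⟩ := hBa F H G D χ hG T hT D.r hsq2
    obtain ⟨b, hb1, hb2⟩ := hTP F H G D χ hG T hT.1 D.r hsq2
    have hxU : ∀ c, x c ∈ part (D.U ∅) χ := by
      intro c
      have h1 : x c ∈ part (D.U T) χ := by
        rw [← hx1]
        exact Subgroup.subset_closure ⟨c, rfl⟩
      obtain ⟨⟨h2, -⟩, h3, h4⟩ := h1
      refine ⟨⟨h2, fun w hw => ?_⟩, h3, h4⟩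
      obtain ⟨v', hv', -⟩ := hw
      simp at hv'
    have hxy : ∀ c, ∃ y : Kˣ, y ∈ SU K A0 ⊓ minus τ ∧ j y = x c := by
      intro c
      have h1 := hxU c
      rw [← hK1'] at h1
      exact Subgroup.mem_map.1 h1
    choose y hyS hyx using hxy
    have hrange : (Subgroup.closure (Set.range y) ⊔ (mu K ⊓ minus τ)).map j =
        Subgroup.closure (Set.range x) ⊔ part (mu H) χ := by
      rw [Subgroup.map_sup, hK2', MonoidHom.map_closure, ← Set.range_comp]
      congr 2
      congr 1
      funext c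
      exact hyx c
    have hindex : (Subgroup.closure (Set.range y) ⊔ (mu K ⊓ minus τ)).relIndex
        (SU K A0 ⊓ minus τ) * Nat.card (mu K ⊓ minus τ : Subgroup Kˣ) =
          (part (D.U T) χ).relIndex (part (D.U ∅) χ) := by
      rw [← hx2, ← hrange, ← hK1', ← hK2', Subgroup.relIndex_map_map_of_injective _ _ hj]
      congr 1
      exact (Subgroup.card_map_of_injective hj).symm
    obtain ⟨b', hb'⟩ := hb2
    obtain ⟨c, hc⟩ := hdvd
    -- the product over `T`
    have hprod : ((part (D.U T) χ).relIndex (part (D.U ∅) χ) : ℝ) *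
        (b : ℝ) = ∏ v ∈ T, ((Ideal.absNorm v.asIdeal : ℝ) -
          ((sgn χ (D.σ v) : ℤ) : ℝ)) := by
      have h1 := congrArg (fun z : ℤ => (z : ℝ)) hb1
      push_cast at h1
      exact h1
    have hdet : Matrix.det (Matrix.of fun a b : Fin D.r =>
        Real.log (av (D.w a) ((x b : Hˣ) : H))) = (logM u y).det := by
      congr 1
      ext a b
      change Real.log (av (D.w a) ((x b : Hˣ) : H)) = Real.log (av (u a) ((y b : Kˣ) : K))
      rw [← hyx b, ← hu3 a]
      rfl
    have hfin := final2 (q := q) (M := (Nat.card (mu K ⊓ minus τ : Subgroup Kˣ) : ℝ))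
      (J := ((Subgroup.closure (Set.range y) ⊔ (mu K ⊓ minus τ)).relIndex
        (SU K A0 ⊓ minus τ) : ℝ)) (a := (a0 : ℝ))
      (E := 2 ^ (Fintype.card (InfinitePlace F) + D.S.card - (D.r + 1)))
      (det := (logM u y).det)
      (X := ((part (D.U T) χ).relIndex (part (D.U ∅) χ) : ℝ)) (b := (b : ℝ))
      (σ := ∏ v ∈ T, ((Ideal.absNorm v.asIdeal : ℝ) - ((sgn χ (D.σ v) : ℤ) : ℝ)))
      (hqx y hyS) (by rw [← hindex]; push_cast; ring) hprod (by positivity) (by positivity)
      (by positivity) (by positivity)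
    have hbR : ((2 ^ e : ℕ) : ℝ) * ((b : ℝ) *
        2 ^ (Fintype.card (InfinitePlace F) + D.S.card - (D.r + 1))) =
        (Nat.card G : ℝ) * (c : ℝ) * b' := by
      have h1 : 2 ^ e * (b * 2 ^ (Fintype.card (InfinitePlace F) + D.S.card - (D.r + 1))) =
          Nat.card G * c * b' := by
        rw [hb', ← hc, pow_add, pow_add]
        ring
      exact_mod_cast h1
    rcases hfin with h | h
    · refine ⟨x, q, a0 * c * b', hx1, hq, ?_⟩
      rw [h, hdet]
      push_cast at hbR ⊢
      linear_combination (a0 : ℝ) * (logM u y).det * hbR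
    · refine ⟨x, q, -(a0 * c * b' : ℤ), hx1, hq, ?_⟩
      rw [h, hdet]
      push_cast at hbR ⊢
      linear_combination -(a0 : ℝ) * (logM u y).det * hbR



end chi

section one

open Pool.Agent.K3h35.E2

/-- The trivial character. -/
theorem one2 (h0 : S_ZETA0X) (hL : S_LIM1X) (hI : S_SIND) (hTP : S_TPART) (hBa : S_BASIS)
    (hR1 : S_RANK1) (hK : S_KH1) (hAV : S_AVK) (hPl : S_PLACES)
    {F H G : Type} [Field F] [NumberField F] [Field H] [NumberField H]
    [Algebra F H] [CommGroup G] [Finite G] [MulSemiringAction G H] [IsGaloisGroup G F H]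
    (D : RubinData F H G) (T : Finset (HeightOneSpectrum (𝓞 F))) (hT : D.Allowed T)
    (hG : ∀ g : G, g * g = 1) (e : ℕ)
    (hdvd : Nat.card G ∣ 2 ^ (e + ((Fintype.card (InfinitePlace F) + D.S.card - (D.r + 1)) +
      (oddCard T - (D.r + 1))))) : CharR D T (2 ^ e) 1 := by
  obtain ⟨f, hf, hfl, hfr, -, ⟨p1, hp1, hp1'⟩, -, hact⟩ := hPl F H G D
  obtain ⟨q, hq, hqv⟩ := hL h0 F D.S (D.L 1) (D.analytic 1) (fun s hs => by
    simpa using D.euler 1 s hs)
  have hc : 0 < Fintype.card (InfinitePlace F) := Fintype.card_pos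
  -- the places of `F` in `S`
  have hcardP : ∃ P : Finset (InfinitePlace F ⊕ HeightOneSpectrum (𝓞 F)), (∀ p, p ∈ P ↔ InSF D p) ∧
      P.card = Fintype.card (InfinitePlace F) + D.S.card := by
    refine ⟨Finset.univ.disjSum D.S, ?_, ?_⟩
    · rintro (p | p)
      · simp [InSF]
      · simp [InSF]
    · rw [Finset.card_disjSum, Finset.card_univ]
  obtain ⟨P, hP, hPc⟩ := hcardP
  have hcases : ∀ a, (∃ w, D.w a = Sum.inl w) ∨ ∃ w, D.w a = Sum.inr w := by
    intro a
    rcases D.w a with w | w
    · exact Or.inl ⟨w, rfl⟩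
    · exact Or.inr ⟨w, rfl⟩
  have hfP : ∀ a, f a ∈ P := by
    intro a
    rw [hP]
    rcases hcases a with ⟨w, hw⟩ | ⟨w, hw⟩
    · rw [hfl a w hw]
      trivial
    · obtain ⟨v, hv1, hv2, -⟩ := hfr a w hw
      rw [hv1]
      exact hv2
  constructor
  · intro hna
    rw [hact] at hna
    push Not at hna
    obtain ⟨p, p', hp, hp', hpf, hpf', hne⟩ := hna
    have hlt : D.r < Fintype.card (InfinitePlace F) + D.S.card - 1 := by
      classical
      have h1 : insert p (insert p' (Finset.univ.image f)) ⊆ P := by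
        intro x hx
        simp only [Finset.mem_insert, Finset.mem_image, Finset.mem_univ, true_and] at hx
        rcases hx with rfl | rfl | ⟨a, rfl⟩
        · exact (hP _).2 hp
        · exact (hP _).2 hp'
        · exact hfP a
      have h2 := Finset.card_le_card h1
      rw [Finset.card_insert_of_notMem, Finset.card_insert_of_notMem,
        Finset.card_image_of_injective _ hf, Finset.card_univ, Fintype.card_fin, hPc] at h2
      · omega
      · simpa using hpf'
      · simp only [Finset.mem_insert, Finset.mem_image, Finset.mem_univ, true_and, not_or]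
        exact ⟨hne, hpf⟩
    obtain ⟨k, hk⟩ := Nat.exists_eq_add_of_lt hlt
    have h3 : Tendsto (fun s : ℂ => s ^ (k + 1)) (𝓝[≠] 0) (𝓝 0) := by
      have h4 : Tendsto (fun s : ℂ => s ^ (k + 1)) (𝓝 0) (𝓝 (0 ^ (k + 1))) :=
        (continuous_pow (k + 1)).tendsto 0
      rw [zero_pow (Nat.succ_ne_zero k)] at h4
      exact h4.mono_left nhdsWithin_le_nhds
    have h5 := h3.mul hq
    rw [zero_mul] at h5
    refine h5.congr' ?_
    filter_upwards [self_mem_nhdsWithin] with s hs
    have hs' : s ≠ 0 := hs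
    rw [hk, pow_add, pow_add, pow_add]
    field_simp
  · intro ha
    rw [hact] at ha
    have huniq : ∀ p, InSF D p → p ≠ p1 → p ∈ Set.range f := by
      intro p hp hne
      by_contra hcon
      exact hne (ha p p1 hp hp1 hcon hp1')
    have hr : D.r + 1 = Fintype.card (InfinitePlace F) + D.S.card := by
      classical
      have h1 : insert p1 (Finset.univ.image f) = P := by
        ext x
        simp only [Finset.mem_insert, Finset.mem_image, Finset.mem_univ, true_and]
        constructor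
        · rintro (rfl | ⟨a, rfl⟩)
          · exact (hP _).2 hp1
          · exact hfP a
        · intro hx
          by_cases hxp : x = p1
          · exact Or.inl hxp
          · exact Or.inr (huniq x ((hP _).1 hx) hxp)
      have h2 := congrArg Finset.card h1
      rw [Finset.card_insert_of_notMem, Finset.card_image_of_injective _ hf, Finset.card_univ,
        Fintype.card_fin, hPc] at h2
      · exact h2
      · simpa using hp1'
    rw [← hr, Nat.add_sub_cancel] at hq
    rw [← hr, Nat.sub_self, zero_add] at hdvd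
    -- the map from `F^*` to `H^*`
    let j : Fˣ →* Hˣ := Units.map (algebraMap F H : F →* H)
    have hj : Function.Injective j := by
      intro a b hab
      apply Units.ext
      apply (algebraMap F H).injective
      exact congrArg (fun x : Hˣ => (x : H)) hab
    obtain ⟨hK1, hK2⟩ := hK F H G D
    have hK1' : (SU F D.S).map j = part (D.U ∅) (1 : G →* ℂˣ) := hK1
    have hK2' : (mu F).map j = part (mu H) (1 : G →* ℂˣ) := hK2
    have hsq : ((part (D.U ∅) (1 : G →* ℂˣ)).map (powMonoidHom 2)).relIndex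
        (part (D.U ∅) (1 : G →* ℂˣ)) = 2 ^ (D.r + 1) := by
      rw [← hK1', Subgroup.map_map]
      have h1 : (powMonoidHom 2 : Hˣ →* Hˣ).comp j = j.comp (powMonoidHom 2) := by
        ext x
        simp
      rw [h1, ← Subgroup.map_map, Subgroup.relIndex_map_map_of_injective _ _ hj, hR1 F D.S, hr]
    obtain ⟨x, hx1, hx2⟩ := hBa F H G D 1 hG T hT D.r hsq
    obtain ⟨b, hb1, hb2⟩ := hTP F H G D 1 hG T hT.1 D.r hsq
    have hxU : ∀ c, x c ∈ part (D.U ∅) (1 : G →* ℂˣ) := by
      intro c
      have h1 : x c ∈ part (D.U T) (1 : G →* ℂˣ) := by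
        rw [← hx1]
        exact Subgroup.subset_closure ⟨c, rfl⟩
      obtain ⟨⟨h2, -⟩, h3, h4⟩ := h1
      refine ⟨⟨h2, fun w hw => ?_⟩, h3, h4⟩
      obtain ⟨v', hv', -⟩ := hw
      simp at hv'
    have hxy : ∀ c, ∃ y : Fˣ, y ∈ SU F D.S ∧ j y = x c := by
      intro c
      have h1 := hxU c
      rw [← hK1'] at h1
      exact Subgroup.mem_map.1 h1
    choose y hyS hyx using hxy
    -- the index theorem
    have hind := hI F D.S (Fin D.r) (fun a => f a) hf (by
      intro a w hw
      rcases hcases a with ⟨w', hw'⟩ | ⟨w', hw'⟩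
      · rw [hfl a w' hw'] at hw
        exact absurd hw (by simp)
      · obtain ⟨v, hv1, hv2, -⟩ := hfr a w' hw'
        rw [hv1] at hw
        rw [← Sum.inr_injective hw]
        exact hv2) (by rw [Fintype.card_fin, hr]) y hyS
    have hrange : (Subgroup.closure (Set.range y) ⊔ mu F).map j =
        Subgroup.closure (Set.range x) ⊔ part (mu H) (1 : G →* ℂˣ) := by
      rw [Subgroup.map_sup, hK2', MonoidHom.map_closure, ← Set.range_comp]
      congr 2
      congr 1
      funext c
      exact hyx c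
    have hindex : (Subgroup.closure (Set.range y) ⊔ mu F).relIndex (SU F D.S) *
        Units.torsionOrder F = (part (D.U T) (1 : G →* ℂˣ)).relIndex
          (part (D.U ∅) (1 : G →* ℂˣ)) := by
      rw [← hx2, ← hrange, ← hK1', ← hK2', Subgroup.relIndex_map_map_of_injective _ _ hj,
        ← card_mu F]
      congr 1
      exact (Subgroup.card_map_of_injective hj).symm
    -- the class numbers
    have hcl : (classNumber F : ℝ) = ((CA (D.S : Set (HeightOneSpectrum (𝓞 F)))).index : ℝ) *
        (Nat.card (CA (D.S : Set (HeightOneSpectrum (𝓞 F)))) : ℝ) := by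
      have h1 := (CA (D.S : Set (HeightOneSpectrum (𝓞 F)))).card_mul_index
      have h2 : Nat.card (ClassGroup (𝓞 F)) = classNumber F := by
        rw [classNumber, Nat.card_eq_fintype_card]
      rw [h2] at h1
      rw [← h1]
      push_cast
      ring
    obtain ⟨c, hbc⟩ : Nat.card G ∣ 2 ^ e * b := by
      rw [pow_add] at hdvd
      exact hdvd.trans (mul_dvd_mul_left _ hb2)
    have hsgn : ∀ g : G, sgn (1 : G →* ℂˣ) g = 1 := by
      intro g
      unfold sgn
      rw [if_pos]
      rfl
    -- the product over `T`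
    have hprod : ((part (D.U T) (1 : G →* ℂˣ)).relIndex (part (D.U ∅) (1 : G →* ℂˣ)) : ℝ) *
        (b : ℝ) = ∏ v ∈ T, ((Ideal.absNorm v.asIdeal : ℝ) -
          ((sgn (1 : G →* ℂˣ) (D.σ v) : ℤ) : ℝ)) := by
      have h1 := congrArg (fun z : ℤ => (z : ℝ)) hb1
      push_cast at h1
      exact h1
    have hprod0 : 0 ≤ ∏ v ∈ T, ((Ideal.absNorm v.asIdeal : ℝ) -
          ((sgn (1 : G →* ℂˣ) (D.σ v) : ℤ) : ℝ)) := by
      rw [← hprod]
      positivity
    have hdet : Matrix.det (Matrix.of fun a b : Fin D.r =>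
        Real.log (av (D.w a) ((x b : Hˣ) : H))) = (logM (fun a => f a) y).det := by
      congr 1
      ext a b
      change Real.log (av (D.w a) ((x b : Hˣ) : H)) = Real.log (av (f a) ((y b : Fˣ) : F))
      rw [← hyx b]
      obtain ⟨u, p, hu, -, -, hav⟩ := hAV F H G F (D.w a) (D.splits a)
      have h1 : av (D.w a) (((j (y b) : Hˣ)) : H) = av u ((y b : Fˣ) : F) := hav _
      have h2 : u = f a := by
        rcases hcases a with ⟨w', hw'⟩ | ⟨w', hw'⟩
        · rw [hfl a w' hw']
          rw [hw'] at hu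
          rcases u with u | u
          · exact congrArg Sum.inl hu.symm
          · exact absurd hu (by simp [Below])
        · obtain ⟨v, hv1, -, hv3⟩ := hfr a w' hw'
          rw [hv1]
          rw [hw'] at hu
          rcases u with u | u
          · exact absurd hu (by simp [Below])
          · obtain ⟨v1, hv1', h4⟩ := hv3
            obtain ⟨v2, hv2', h5⟩ := (hu : Above {u} w')
            rw [Set.mem_singleton_iff] at hv1' hv2'
            subst hv1' hv2'
            congr 1
            exact HeightOneSpectrum.ext (by rw [← h4, ← h5])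
      rw [h1, h2]
    have hfin := final (q := q) (wF := Units.torsionOrder F) (h := classNumber F)
      (hS := ((CA (D.S : Set (HeightOneSpectrum (𝓞 F)))).index : ℝ))
      (c := (Nat.card (CA (D.S : Set (HeightOneSpectrum (𝓞 F)))) : ℝ))
      (R := Units.regulator F) (P := ∏ v ∈ D.S, Real.log (Ideal.absNorm v.asIdeal))
      (det := (logM (fun a => f a) y).det)
      (I := ((Subgroup.closure (Set.range y) ⊔ mu F).relIndex (SU F D.S) : ℝ)) (B := (b : ℝ))
      (X := ((part (D.U T) (1 : G →* ℂˣ)).relIndex (part (D.U ∅) (1 : G →* ℂˣ)) : ℝ))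
      (σ := ∏ v ∈ T, ((Ideal.absNorm v.asIdeal : ℝ) - ((sgn (1 : G →* ℂˣ) (D.σ v) : ℤ) : ℝ)))
      hcl hqv hind (by
        rw [← hindex]
        push_cast
        ring) hprod (by positivity) hprod0
    have hbR : ((2 ^ e : ℕ) : ℝ) * (b : ℝ) = (Nat.card G : ℝ) * (c : ℝ) := by
      exact_mod_cast hbc
    rcases hfin with h | h
    · refine ⟨x, q, (CA (D.S : Set (HeightOneSpectrum (𝓞 F)))).index * c, hx1, hq, ?_⟩
      rw [h, hdet]
      push_cast at hbR ⊢
      linear_combination ((CA (D.S : Set (HeightOneSpectrum (𝓞 F)))).index : ℝ) *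
        (logM (fun a => f a) y).det * hbR
    · refine ⟨x, q, -((CA (D.S : Set (HeightOneSpectrum (𝓞 F)))).index * c : ℤ), hx1, hq, ?_⟩
      rw [h, hdet]
      push_cast at hbR ⊢
      linear_combination -((CA (D.S : Set (HeightOneSpectrum (𝓞 F)))).index : ℝ) *
        (logM (fun a => f a) y).det * hbR


end one

end Pool.Agent.Helper9.RS
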