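import Pool.Agent.Helper9.RS.MinusX

/-!
# The characters, with the factors which come from unramified extensions
The proofs are those of `Exp2`.
-/

set_option autoImplicit false
set_option linter.unusedSectionVars false

open NumberField IsDedekindDomain Filter Topology

noncomputable section

namespace Pool.Agent.Helper9.RS

open Pool.Agent.K3h30.RS Pool.Agent.K3h56.E2

section dec

variable {F H G : Type} [Field F] [NumberField F] [Field H] [NumberField H]
  [Algebra F H] [CommGroup G] [Finite G] [MulSemiringAction G H]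

/-- The subgroup of the kernel of `χ` generated by the intersections with the decomposition groups
of the places in `S`. -/
def decK (D : RubinData F H G) (χ : G →* ℂˣ) : Subgroup G :=
  Subgroup.closure {γ : G | χ γ = 1 ∧
    ∃ w : Place H, InS (D.S : Set (HeightOneSpectrum (𝓞 F))) w ∧ Fixes w γ}

theorem sit_D (D : RubinData F H G) (hG : ∀ g : G, g * g = 1) : Sit H D.S D.σ :=
  ⟨hG, D.unramified, D.frob⟩

theorem decK_one (D : RubinData F H G) : decK D 1 = decS G H D.S := by
  unfold decK decS
  congr 1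
  ext γ
  simp

theorem card_eq1 (D : RubinData F H G) : Nat.card G =
    (1 : G →* ℂˣ).ker.index * Nat.card (decK D 1) * (decS G H D.S).index := by
  rw [decK_one, MonoidHom.ker_one, Subgroup.index_top, one_mul]
  exact (Subgroup.card_mul_index _).symm

theorem decK_map {K : Type} [Field K] [NumberField K] [Algebra F K] [Algebra K H]
    [IsScalarTower F K H] (D : RubinData F H G) (χ : G →* ℂˣ)
    {A : Finset (HeightOneSpectrum (𝓞 K))} (hA : Over D.S A) :
    (decS χ.ker H A).map χ.ker.subtype = decK D χ := by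
  have hAb : ∀ w : Place H, InS (A : Set (HeightOneSpectrum (𝓞 K))) w ↔
      InS (D.S : Set (HeightOneSpectrum (𝓞 F))) w := by
    rintro (w | w)
    · exact Iff.rfl
    · show Above (A : Set (HeightOneSpectrum (𝓞 K))) w ↔
        Above (D.S : Set (HeightOneSpectrum (𝓞 F))) w
      have hcomp : w.asIdeal.comap (algebraMap (𝓞 F) (𝓞 H)) =
          (w.asIdeal.comap (algebraMap (𝓞 K) (𝓞 H))).comap (algebraMap (𝓞 F) (𝓞 K)) := by
        rw [Ideal.comap_comap, ← IsScalarTower.algebraMap_eq]
      constructor
      · rintro ⟨P, hP, hPw⟩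
        obtain ⟨v, hv, hvP⟩ := (hA P).1 (Finset.mem_coe.1 hP)
        refine ⟨v, Finset.mem_coe.2 hv, ?_⟩
        rw [hcomp, hPw, above_singleton.1 hvP]
      · rintro ⟨v, hv, hvw⟩
        obtain ⟨P, hP⟩ := exists_above (F := K) w
        refine ⟨P, Finset.mem_coe.2 ((hA P).2 ⟨v, Finset.mem_coe.1 hv, ?_⟩), above_singleton.1 hP⟩
        rw [above_singleton, ← above_singleton.1 hP, ← hcomp, hvw]
  unfold decK decS
  rw [MonoidHom.map_closure]
  congr 1
  ext γ
  constructor
  · rintro ⟨g, ⟨w, hw, hg⟩, rfl⟩
    exact ⟨g.2, w, (hAb w).1 hw, hg⟩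
  · rintro ⟨h1, w, hw, hg⟩
    exact ⟨⟨γ, h1⟩, ⟨w, (hAb w).2 hw, hg⟩, rfl⟩

theorem card_eq {K : Type} [Field K] [NumberField K] [Algebra F K] [Algebra K H]
    (D : RubinData F H G) {χ : G →* ℂˣ} {τ : K ≃ₐ[F] K} (hd : Dict F H G K τ χ)
    (A : Finset (HeightOneSpectrum (𝓞 K))) (hA : Over D.S A) : Nat.card G =
    χ.ker.index * Nat.card (decK D χ) * (decS χ.ker H A).index := by
  have htw : IsScalarTower F K H := hd.tower
  rw [← decK_map D χ hA, Subgroup.card_map_of_injective χ.ker.subtype_injective, mul_assoc,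
    Subgroup.card_mul_index, mul_comm, Subgroup.card_mul_index]

end dec

section chi

/-- the nontrivial characters -/
theorem chi2X (hZ : S_ZETA0X) (hZP : S_ZPROD) (hLoc : S_LOC) (hLim : S_LIMX) (hDict : S_DICT)
    (hFrob : S_FROB) (hFw : S_FINW) (hIw : S_INFW) (hCount : S_COUNT) (hPl : S_PLACES)
    (hS : S_SIND) (hFund : S_FUND) (hFact : S_FACT) (hGT : S_GT) (hRank : S_RANK) (hKH : S_KH) (hAV : S_AVK) (hBa : S_BASIS)
    (hTP : S_TPART) {F H G : Type} [Field F] [NumberField F] [Field H] [NumberField H]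
    [Algebra F H] [CommGroup G] [Finite G] [MulSemiringAction G H] [IsGaloisGroup G F H]
    (D : RubinData F H G) (T : Finset (HeightOneSpectrum (𝓞 F))) (hT : D.Allowed T)
    (hG : ∀ g : G, g * g = 1) (e : ℕ)
    (χ : G →* ℂˣ) (hχ : χ ≠ 1) (hdvd : D.Active χ → χ.ker.index * Nat.card (decK D χ) ∣
      2 ^ (e + ((Fintype.card (InfinitePlace F) + D.S.card - (D.r + 1)) +
        (oddCard T - (D.r + 1))))) : CharR D T (2 ^ e) χ := by
  classical
  have hsq : ∀ g : G, χ g * χ g = 1 := fun g => by rw [← map_mul, hG, map_one]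
  have hex : ∃ g : G, χ g ≠ 1 := by
    by_contra hcon
    push Not at hcon
    exact hχ (MonoidHom.ext hcon)
  obtain ⟨K, _, _, _, _, τ, hd⟩ := hDict F H G χ hsq hex
  have htw : IsScalarTower F K H := hd.tower
  obtain ⟨f, hfi, hfl, hfr, hfs, ⟨p1, hp1, hp1'⟩, hact, -⟩ := hPl F H G D
  obtain ⟨A0, hA0, hA0c⟩ := exists_over hLoc hd.quad D.S
  -- the infinite places
  have hA : Fintype.card {v : InfinitePlace F // SplAt H χ (Sum.inl v)} +
      Fintype.card (InfinitePlace F) = Fintype.card (InfinitePlace K) := by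
    rw [← hCount F K τ hd.quad, Nat.card_eq_fintype_card]
    congr 1
    exact Fintype.card_congr (Equiv.subtypeEquivRight fun v => splAt_inl hIw hd v)
  set B : Finset (HeightOneSpectrum (𝓞 F)) := D.S.filter fun v => loc K v = 1 with hBdef
  set A : Finset (InfinitePlace F) := Finset.univ.filter fun v => SplAt H χ (Sum.inl v) with hAdef
  have hAcard : A.card + Fintype.card (InfinitePlace F) = Fintype.card (InfinitePlace K) := by
    rw [← hA, hAdef, Fintype.card_subtype]
  set P : Finset (InfinitePlace F ⊕ HeightOneSpectrum (𝓞 F)) := A.disjSum B with hPdef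
  have hPcard : P.card = A.card + B.card := Finset.card_disjSum _ _
  have hPmem : ∀ p, p ∈ P ↔ InSF D p ∧ SplAt H χ p := by
    intro p
    rcases p with v | v
    · rw [hPdef, Finset.inl_mem_disjSum, hAdef, Finset.mem_filter]
      simp [InSF]
    · rw [hPdef, Finset.inr_mem_disjSum, hBdef, Finset.mem_filter, splAt_inr hFw hd]
      rfl
  have hcases : ∀ a, (∃ w, D.w a = Sum.inl w) ∨ ∃ w, D.w a = Sum.inr w := by
    intro a
    rcases D.w a with w | w
    · exact Or.inl ⟨w, rfl⟩
    · exact Or.inr ⟨w, rfl⟩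
  have hfIn : ∀ a, InSF D (f a) := by
    intro a
    rcases hcases a with ⟨w, hw⟩ | ⟨w, hw⟩
    · rw [hfl a w hw]
      trivial
    · obtain ⟨v, h1, h2, -⟩ := hfr a w hw
      rw [h1]
      exact h2
  have hfP : ∀ a, f a ∈ P := fun a => (hPmem _).2 ⟨hfIn a, hfs χ a⟩
  have himg : (Finset.univ.image f) ⊆ P := by
    intro p hp
    obtain ⟨a, -, rfl⟩ := Finset.mem_image.1 hp
    exact hfP a
  have himgc : (Finset.univ.image f).card = D.r := by
    rw [Finset.card_image_of_injective _ hfi, Finset.card_univ, Fintype.card_fin]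
  -- the Euler product
  have heuler : ∀ s : ℂ, 1 < s.re → HasProd (fun v : {v : HeightOneSpectrum (𝓞 F) // v ∉ D.S} =>
      (1 - ((loc K (v : HeightOneSpectrum (𝓞 F)) : ℤ) : ℂ) *
        (Ideal.absNorm (v : HeightOneSpectrum (𝓞 F)).asIdeal : ℂ) ^ (-s))⁻¹) (D.L χ s) := by
    intro s hs
    have h1 := D.euler χ s hs
    have h2 : ∀ v : {v : HeightOneSpectrum (𝓞 F) // v ∉ D.S},
        ((χ (D.σ (v : HeightOneSpectrum (𝓞 F))) : ℂˣ) : ℂ) =
          ((loc K (v : HeightOneSpectrum (𝓞 F)) : ℤ) : ℂ) := fun v =>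
      (hFrob F H G K τ χ hd v (D.σ v) (D.unramified v v.2) (D.frob v v.2)).symm
    simp only [h2] at h1
    exact h1
  refine ⟨fun hna => ?_, fun ha => ?_⟩
  · -- `χ` is not active: the order is larger than `r`
    obtain ⟨-, q, hq, -⟩ := hLim hZ hZP hLoc F K τ hd.quad D.S A0 hA0 (D.L χ) (D.analytic χ)
      heuler (by omega)
    have hn : (Fintype.card (InfinitePlace K) + A0.card) -
        (Fintype.card (InfinitePlace F) + D.S.card) = P.card := by omega
    rw [hn] at hq
    have hlt : D.r < P.card := by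
      rw [← himgc]
      apply Finset.card_lt_card
      refine ⟨himg, fun hsub => hna ((hact χ hχ).2 fun p h1 h2 => ?_)⟩
      obtain ⟨a, -, ha⟩ := Finset.mem_image.1 (hsub ((hPmem p).2 ⟨h1, h2⟩))
      exact ⟨a, ha⟩
    have h1 : Tendsto (fun s : ℂ => s ^ (P.card - D.r)) (𝓝[≠] 0) (𝓝 0) := by
      have h2 : Tendsto (fun s : ℂ => s ^ (P.card - D.r)) (𝓝 0) (𝓝 (0 ^ (P.card - D.r))) :=
        (continuous_pow _).tendsto _
      rw [zero_pow (by omega)] at h2
      exact h2.mono_left nhdsWithin_le_nhds
    have h3 := h1.mul hq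
    rw [zero_mul] at h3
    refine h3.congr' ?_
    filter_upwards [self_mem_nhdsWithin] with s hs
    have hs0 : s ≠ 0 := hs
    have h4 : s ^ P.card = s ^ (P.card - D.r) * s ^ D.r := by
      rw [← pow_add]
      congr 1
      omega
    rw [h4]
    field_simp
  · -- `χ` is active
    have hcG := card_eq D hd A0 hA0
    set n : ℕ := (decS χ.ker H A0).index with hn
    have hdvd' : Nat.card G ∣ n * 2 ^ (e + ((Fintype.card (InfinitePlace F) + D.S.card -
        (D.r + 1)) + (oddCard T - (D.r + 1)))) := by
      rw [hcG, mul_comm]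
      exact mul_dvd_mul_left _ (hdvd ha)
    have hcls := cls_sharp hd (sit_D D hG) hA0
    rw [← hn] at hcls
    have himgP : Finset.univ.image f = P := by
      apply le_antisymm himg
      intro p hp
      obtain ⟨h1, h2⟩ := (hPmem p).1 hp
      obtain ⟨a, ha'⟩ := (hact χ hχ).1 ha p h1 h2
      exact Finset.mem_image.2 ⟨a, Finset.mem_univ a, ha'⟩
    have hr : D.r = P.card := by rw [← himgc, himgP]
    have hrc : D.r + (Fintype.card (InfinitePlace F) + D.S.card) =
        Fintype.card (InfinitePlace K) + A0.card := by omega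
    have hr1 : D.r + 1 ≤ Fintype.card (InfinitePlace F) + D.S.card := by
      have h1 : insert p1 (Finset.univ.image f) ⊆ Finset.univ.disjSum D.S := by
        intro p hp
        have h2 : InSF D p := by
          rw [Finset.mem_insert] at hp
          rcases hp with rfl | hp
          · exact hp1
          · obtain ⟨a, -, rfl⟩ := Finset.mem_image.1 hp
            exact hfIn a
        rcases p with p | p
        · simp
        · rw [Finset.inr_mem_disjSum]
          exact h2
      have h2 := Finset.card_le_card h1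
      rw [Finset.card_insert_of_notMem (by simpa using hp1'), himgc, Finset.card_disjSum,
        Finset.card_univ] at h2
      exact h2
    -- the places of `K`
    have hup : ∀ a : Fin D.r, ∃ u : Place K, Below (D.w a) u ∧ Below u (f a) ∧
        ∀ x : K, av (D.w a) (algebraMap K H x) = av u x := by
      intro a
      obtain ⟨u, p, h1, h2, h3, h4⟩ := hAV F H G K (D.w a) (D.splits a)
      have h5 : p = f a := by
        rcases hcases a with ⟨w, hw⟩ | ⟨w, hw⟩
        · rw [hfl a w hw]
          rw [hw] at h3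
          rcases p with p | p
          · exact congrArg Sum.inl h3.symm
          · exact absurd h3 (by simp [Below])
        · obtain ⟨v, k1, -, k3⟩ := hfr a w hw
          rw [k1]
          rw [hw] at h3
          rcases p with p | p
          · exact absurd h3 (by simp [Below])
          · have k4 : Above {p} w := h3
            rw [above_singleton] at k3 k4
            congr 1
            exact HeightOneSpectrum.ext (by rw [← k3, ← k4])
      rw [h5] at h2
      exact ⟨u, h1, h2, h4⟩
    choose u hu1 hu2 hu3 using hup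
    have huz : ∀ a, ∃ z : K, av (u a) (τ z) ≠ av (u a) z := by
      intro a
      by_contra hcon
      push Not at hcon
      rcases hcases a with ⟨w, hw⟩ | ⟨w, hw⟩
      · have h1 := hu1 a
        rw [hw] at h1
        rcases hua : u a with u' | u'
        · rw [hua] at h1 hcon
          have h2 : w.comap (algebraMap K H) = u' := h1
          refine (hIw F H G K τ χ hd w).1 (fun γ hγ => ?_) ?_
          · rw [← hw] at hγ
            rw [D.splits a γ hγ, map_one]
          · rw [h2]
            ext z
            have h3 : u' (τ z) ^ u'.mult = u' z ^ u'.mult := hcon z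
            exact (pow_left_inj₀ (apply_nonneg u' _) (apply_nonneg u' _) u'.mult_ne_zero).1 h3
        · rw [hua] at h1
          exact absurd h1 (by simp [Below])
      · have h1 := hu1 a
        rw [hw] at h1
        rcases hua : u a with u' | u'
        · rw [hua] at h1
          exact absurd h1 (by simp [Below])
        · rw [hua] at hcon
          obtain ⟨v, k1, -, k3⟩ := hfr a w hw
          have hl : loc K v = 1 := by
            refine (hFw F H G K τ χ hd v w k3).1 fun γ hγ => ?_
            rw [← hw] at hγ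
            rw [D.splits a γ hγ, map_one]
          obtain ⟨P1, P2, hne, k4, k5, -⟩ := (hLoc F K τ hd.quad v).1 hl
          have h2 := hu2 a
          rw [k1, hua] at h2
          have h3 : Above {v} u' := h2
          exact Pool.Agent.K3h72.E2.no_split hne k5 ((k4 u').1 h3) fun x =>
            av_mem u' (by
              have h4 := hcon (x : K)
              rw [← h4]
              rfl)
    have huA : ∀ a w, u a = Sum.inr w → w ∈ A0 := by
      intro a w hw
      have h1 := hu2 a
      have h2 := hfIn a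
      rw [hw] at h1
      rcases hfa : f a with v | v
      · rw [hfa] at h1
        exact absurd h1 (by simp [Below])
      · rw [hfa] at h1 h2
        exact (hA0 w).2 ⟨v, h2, h1⟩
    obtain ⟨q, a0, hq, hqx⟩ := minusX hZ hZP hLoc hLim hS hFund hFact hGT hRank F K τ hd.quad
      D.S A0 hA0 n hcls D.r u f hu2 hfi huz huA hrc hr1
      (D.L χ) (D.analytic χ) heuler
    -- the map from `K^*` to `H^*`
    let j : Kˣ →* Hˣ := Units.map (algebraMap K H : K →* H)
    have hj : Function.Injective j := Pool.Agent.K3h3.E2.inj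
    obtain ⟨hK1, hK2⟩ := hKH F H G K τ χ hd D A0 hA0
    have hK1' : (SU K A0 ⊓ minus τ).map j = part (D.U ∅) χ := hK1
    have hK2' : (mu K ⊓ minus τ).map j = part (mu H) χ := hK2
    have hsq2 : ((part (D.U ∅) χ).map (powMonoidHom 2)).relIndex (part (D.U ∅) χ) =
        2 ^ (D.r + 1) := by
      rw [← hK1', Subgroup.map_map]
      have h1 : (powMonoidHom 2 : Hˣ →* Hˣ).comp j = j.comp (powMonoidHom 2) := by
        ext x
        simp
      rw [h1, ← Subgroup.map_map, Subgroup.relIndex_map_map_of_injective _ _ hj,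
        hRank F K τ hd.quad D.S A0 hA0 D.r hrc]
    obtain ⟨x, hx1, hx2⟩ := hBa F H G D χ hG T hT D.r hsq2
    obtain ⟨b, hb1, hb2⟩ := hTP F H G D χ hG T hT.1 D.r hsq2
    have hxU : ∀ c, x c ∈ part (D.U ∅) χ := by
      intro c
      have h1 : x c ∈ part (D.U T) χ := by
        rw [← hx1]
        exact Subgroup.subset_closure ⟨c, rfl⟩
      obtain ⟨⟨h2, -⟩, h3, h4⟩ := h1
      refine ⟨⟨h2, fun w hw => ?_⟩, h3, h4⟩
      obtain ⟨v', hv', -⟩ := hw
      simp at hv'
    have hxy : ∀ c, ∃ y : Kˣ, y ∈ SU K A0 ⊓ minus τ ∧ j y = x c := by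
      intro c
      have h1 := hxU c
      rw [← hK1'] at h1
      exact Subgroup.mem_map.1 h1
    choose y hyS hyx using hxy
    have hrange : (Subgroup.closure (Set.range y) ⊔ (mu K ⊓ minus τ)).map j =
        Subgroup.closure (Set.range x) ⊔ part (mu H) χ := by
      rw [Subgroup.map_sup, hK2', MonoidHom.map_closure, ← Set.range_comp]
      congr 2
      congr 1
      funext c
      exact hyx c
    have hindex : (Subgroup.closure (Set.range y) ⊔ (mu K ⊓ minus τ)).relIndex
        (SU K A0 ⊓ minus τ) * Nat.card (mu K ⊓ minus τ : Subgroup Kˣ) =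
          (part (D.U T) χ).relIndex (part (D.U ∅) χ) := by
      rw [← hx2, ← hrange, ← hK1', ← hK2', Subgroup.relIndex_map_map_of_injective _ _ hj]
      congr 1
      exact (Subgroup.card_map_of_injective hj).symm
    obtain ⟨b', hb'⟩ := hb2
    obtain ⟨c, hc⟩ := hdvd'
    -- the product over `T`
    have hprod : ((part (D.U T) χ).relIndex (part (D.U ∅) χ) : ℝ) *
        (b : ℝ) = ∏ v ∈ T, ((Ideal.absNorm v.asIdeal : ℝ) -
          ((sgn χ (D.σ v) : ℤ) : ℝ)) := by
      have h1 := congrArg (fun z : ℤ => (z : ℝ)) hb1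
      push_cast at h1
      exact h1
    have hdet : Matrix.det (Matrix.of fun a b : Fin D.r =>
        Real.log (av (D.w a) ((x b : Hˣ) : H))) = (logM u y).det := by
      congr 1
      ext a b
      change Real.log (av (D.w a) ((x b : Hˣ) : H)) = Real.log (av (u a) ((y b : Kˣ) : K))
      rw [← hyx b, ← hu3 a]
      rfl
    have hfin := final2 (q := q) (M := (Nat.card (mu K ⊓ minus τ : Subgroup Kˣ) : ℝ))
      (J := ((Subgroup.closure (Set.range y) ⊔ (mu K ⊓ minus τ)).relIndex
        (SU K A0 ⊓ minus τ) : ℝ)) (a := ((n * a0 : ℕ) : ℝ))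
      (E := 2 ^ (Fintype.card (InfinitePlace F) + D.S.card - (D.r + 1)))
      (det := (logM u y).det)
      (X := ((part (D.U T) χ).relIndex (part (D.U ∅) χ) : ℝ)) (b := (b : ℝ))
      (σ := ∏ v ∈ T, ((Ideal.absNorm v.asIdeal : ℝ) - ((sgn χ (D.σ v) : ℤ) : ℝ)))
      (hqx y hyS) (by rw [← hindex]; push_cast; ring) hprod (by positivity) (by positivity)
      (by positivity) (by positivity)
    have hbR : ((2 ^ e : ℕ) : ℝ) * ((n : ℝ) * (b : ℝ) *
        2 ^ (Fintype.card (InfinitePlace F) + D.S.card - (D.r + 1))) =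
        (Nat.card G : ℝ) * (c : ℝ) * b' := by
      have h1 : 2 ^ e * (n * b * 2 ^ (Fintype.card (InfinitePlace F) + D.S.card - (D.r + 1))) =
          Nat.card G * c * b' := by
        rw [hb', ← hc, pow_add, pow_add]
        ring
      exact_mod_cast h1
    rcases hfin with h | h
    · refine ⟨x, q, a0 * c * b', hx1, hq, ?_⟩
      rw [h, hdet]
      push_cast at hbR ⊢
      linear_combination (a0 : ℝ) * (logM u y).det * hbR
    · refine ⟨x, q, -(a0 * c * b' : ℤ), hx1, hq, ?_⟩
      rw [h, hdet]
      push_cast at hbR ⊢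
      linear_combination -(a0 : ℝ) * (logM u y).det * hbR



end chi

section one

open Pool.Agent.K3h35.E2

/-- The trivial character. -/
theorem one2X (h0 : S_ZETA0X) (hL : S_LIM1X) (hI : S_SIND) (hTP : S_TPART) (hBa : S_BASIS)
    (hR1 : S_RANK1) (hK : S_KH1) (hAV : S_AVK) (hPl : S_PLACES)
    {F H G : Type} [Field F] [NumberField F] [Field H] [NumberField H]
    [Algebra F H] [CommGroup G] [Finite G] [MulSemiringAction G H] [IsGaloisGroup G F H]
    (D : RubinData F H G) (T : Finset (HeightOneSpectrum (𝓞 F))) (hT : D.Allowed T)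
    (hG : ∀ g : G, g * g = 1) (e : ℕ)
    (hdvd0 : D.Active 1 → (1 : G →* ℂˣ).ker.index * Nat.card (decK D 1) ∣
      2 ^ (e + ((Fintype.card (InfinitePlace F) + D.S.card - (D.r + 1)) +
        (oddCard T - (D.r + 1))))) : CharR D T (2 ^ e) 1 := by
  obtain ⟨f, hf, hfl, hfr, -, ⟨p1, hp1, hp1'⟩, -, hact⟩ := hPl F H G D
  obtain ⟨q, hq, hqv⟩ := hL h0 F D.S (D.L 1) (D.analytic 1) (fun s hs => by
    simpa using D.euler 1 s hs)
  have hc : 0 < Fintype.card (InfinitePlace F) := Fintype.card_pos
  -- the places of `F` in `S`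
  have hcardP : ∃ P : Finset (InfinitePlace F ⊕ HeightOneSpectrum (𝓞 F)), (∀ p, p ∈ P ↔ InSF D p) ∧
      P.card = Fintype.card (InfinitePlace F) + D.S.card := by
    refine ⟨Finset.univ.disjSum D.S, ?_, ?_⟩
    · rintro (p | p)
      · simp [InSF]
      · simp [InSF]
    · rw [Finset.card_disjSum, Finset.card_univ]
  obtain ⟨P, hP, hPc⟩ := hcardP
  have hcases : ∀ a, (∃ w, D.w a = Sum.inl w) ∨ ∃ w, D.w a = Sum.inr w := by
    intro a
    rcases D.w a with w | w
    · exact Or.inl ⟨w, rfl⟩
    · exact Or.inr ⟨w, rfl⟩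
  have hfP : ∀ a, f a ∈ P := by
    intro a
    rw [hP]
    rcases hcases a with ⟨w, hw⟩ | ⟨w, hw⟩
    · rw [hfl a w hw]
      trivial
    · obtain ⟨v, hv1, hv2, -⟩ := hfr a w hw
      rw [hv1]
      exact hv2
  constructor
  · intro hna
    rw [hact] at hna
    push Not at hna
    obtain ⟨p, p', hp, hp', hpf, hpf', hne⟩ := hna
    have hlt : D.r < Fintype.card (InfinitePlace F) + D.S.card - 1 := by
      classical
      have h1 : insert p (insert p' (Finset.univ.image f)) ⊆ P := by
        intro x hx
        simp only [Finset.mem_insert, Finset.mem_image, Finset.mem_univ, true_and] at hx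
        rcases hx with rfl | rfl | ⟨a, rfl⟩
        · exact (hP _).2 hp
        · exact (hP _).2 hp'
        · exact hfP a
      have h2 := Finset.card_le_card h1
      rw [Finset.card_insert_of_notMem, Finset.card_insert_of_notMem,
        Finset.card_image_of_injective _ hf, Finset.card_univ, Fintype.card_fin, hPc] at h2
      · omega
      · simpa using hpf'
      · simp only [Finset.mem_insert, Finset.mem_image, Finset.mem_univ, true_and, not_or]
        exact ⟨hne, hpf⟩
    obtain ⟨k, hk⟩ := Nat.exists_eq_add_of_lt hlt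
    have h3 : Tendsto (fun s : ℂ => s ^ (k + 1)) (𝓝[≠] 0) (𝓝 0) := by
      have h4 : Tendsto (fun s : ℂ => s ^ (k + 1)) (𝓝 0) (𝓝 (0 ^ (k + 1))) :=
        (continuous_pow (k + 1)).tendsto 0
      rw [zero_pow (Nat.succ_ne_zero k)] at h4
      exact h4.mono_left nhdsWithin_le_nhds
    have h5 := h3.mul hq
    rw [zero_mul] at h5
    refine h5.congr' ?_
    filter_upwards [self_mem_nhdsWithin] with s hs
    have hs' : s ≠ 0 := hs
    rw [hk, pow_add, pow_add, pow_add]
    field_simp
  · intro ha
    have hdvd1 := hdvd0 ha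
    obtain ⟨m, hm⟩ := base_dvd (sit_D D hG)
    have hcG := card_eq1 D
    set n : ℕ := (decS G H D.S).index with hn
    have hdvd : Nat.card G ∣ n * 2 ^ (e + ((Fintype.card (InfinitePlace F) + D.S.card -
        (D.r + 1)) + (oddCard T - (D.r + 1)))) := by
      rw [hcG, mul_comm]
      exact mul_dvd_mul_left _ hdvd1
    rw [hact] at ha
    have huniq : ∀ p, InSF D p → p ≠ p1 → p ∈ Set.range f := by
      intro p hp hne
      by_contra hcon
      exact hne (ha p p1 hp hp1 hcon hp1')
    have hr : D.r + 1 = Fintype.card (InfinitePlace F) + D.S.card := by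
      classical
      have h1 : insert p1 (Finset.univ.image f) = P := by
        ext x
        simp only [Finset.mem_insert, Finset.mem_image, Finset.mem_univ, true_and]
        constructor
        · rintro (rfl | ⟨a, rfl⟩)
          · exact (hP _).2 hp1
          · exact hfP a
        · intro hx
          by_cases hxp : x = p1
          · exact Or.inl hxp
          · exact Or.inr (huniq x ((hP _).1 hx) hxp)
      have h2 := congrArg Finset.card h1
      rw [Finset.card_insert_of_notMem, Finset.card_image_of_injective _ hf, Finset.card_univ,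
        Fintype.card_fin, hPc] at h2
      · exact h2
      · simpa using hp1'
    rw [← hr, Nat.add_sub_cancel] at hq
    rw [← hr, Nat.sub_self, zero_add] at hdvd
    -- the map from `F^*` to `H^*`
    let j : Fˣ →* Hˣ := Units.map (algebraMap F H : F →* H)
    have hj : Function.Injective j := by
      intro a b hab
      apply Units.ext
      apply (algebraMap F H).injective
      exact congrArg (fun x : Hˣ => (x : H)) hab
    obtain ⟨hK1, hK2⟩ := hK F H G D
    have hK1' : (SU F D.S).map j = part (D.U ∅) (1 : G →* ℂˣ) := hK1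
    have hK2' : (mu F).map j = part (mu H) (1 : G →* ℂˣ) := hK2
    have hsq : ((part (D.U ∅) (1 : G →* ℂˣ)).map (powMonoidHom 2)).relIndex
        (part (D.U ∅) (1 : G →* ℂˣ)) = 2 ^ (D.r + 1) := by
      rw [← hK1', Subgroup.map_map]
      have h1 : (powMonoidHom 2 : Hˣ →* Hˣ).comp j = j.comp (powMonoidHom 2) := by
        ext x
        simp
      rw [h1, ← Subgroup.map_map, Subgroup.relIndex_map_map_of_injective _ _ hj, hR1 F D.S, hr]
    obtain ⟨x, hx1, hx2⟩ := hBa F H G D 1 hG T hT D.r hsq
    obtain ⟨b, hb1, hb2⟩ := hTP F H G D 1 hG T hT.1 D.r hsq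
    have hxU : ∀ c, x c ∈ part (D.U ∅) (1 : G →* ℂˣ) := by
      intro c
      have h1 : x c ∈ part (D.U T) (1 : G →* ℂˣ) := by
        rw [← hx1]
        exact Subgroup.subset_closure ⟨c, rfl⟩
      obtain ⟨⟨h2, -⟩, h3, h4⟩ := h1
      refine ⟨⟨h2, fun w hw => ?_⟩, h3, h4⟩
      obtain ⟨v', hv', -⟩ := hw
      simp at hv'
    have hxy : ∀ c, ∃ y : Fˣ, y ∈ SU F D.S ∧ j y = x c := by
      intro c
      have h1 := hxU c
      rw [← hK1'] at h1
      exact Subgroup.mem_map.1 h1
    choose y hyS hyx using hxy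
    -- the index theorem
    have hind := hI F D.S (Fin D.r) (fun a => f a) hf (by
      intro a w hw
      rcases hcases a with ⟨w', hw'⟩ | ⟨w', hw'⟩
      · rw [hfl a w' hw'] at hw
        exact absurd hw (by simp)
      · obtain ⟨v, hv1, hv2, -⟩ := hfr a w' hw'
        rw [hv1] at hw
        rw [← Sum.inr_injective hw]
        exact hv2) (by rw [Fintype.card_fin, hr]) y hyS
    have hrange : (Subgroup.closure (Set.range y) ⊔ mu F).map j =
        Subgroup.closure (Set.range x) ⊔ part (mu H) (1 : G →* ℂˣ) := by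
      rw [Subgroup.map_sup, hK2', MonoidHom.map_closure, ← Set.range_comp]
      congr 2
      congr 1
      funext c
      exact hyx c
    have hindex : (Subgroup.closure (Set.range y) ⊔ mu F).relIndex (SU F D.S) *
        Units.torsionOrder F = (part (D.U T) (1 : G →* ℂˣ)).relIndex
          (part (D.U ∅) (1 : G →* ℂˣ)) := by
      rw [← hx2, ← hrange, ← hK1', ← hK2', Subgroup.relIndex_map_map_of_injective _ _ hj,
        ← card_mu F]
      congr 1
      exact (Subgroup.card_map_of_injective hj).symm
    -- the class numbers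
    have hcl : (classNumber F : ℝ) = ((CA (D.S : Set (HeightOneSpectrum (𝓞 F)))).index : ℝ) *
        (Nat.card (CA (D.S : Set (HeightOneSpectrum (𝓞 F)))) : ℝ) := by
      have h1 := (CA (D.S : Set (HeightOneSpectrum (𝓞 F)))).card_mul_index
      have h2 : Nat.card (ClassGroup (𝓞 F)) = classNumber F := by
        rw [classNumber, Nat.card_eq_fintype_card]
      rw [h2] at h1
      rw [← h1]
      push_cast
      ring
    obtain ⟨c, hbc⟩ : Nat.card G ∣ n * (2 ^ e * b) := by
      rw [pow_add] at hdvd
      exact hdvd.trans (mul_dvd_mul_left _ (mul_dvd_mul_left _ hb2))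
    have hsgn : ∀ g : G, sgn (1 : G →* ℂˣ) g = 1 := by
      intro g
      unfold sgn
      rw [if_pos]
      rfl
    -- the product over `T`
    have hprod : ((part (D.U T) (1 : G →* ℂˣ)).relIndex (part (D.U ∅) (1 : G →* ℂˣ)) : ℝ) *
        (b : ℝ) = ∏ v ∈ T, ((Ideal.absNorm v.asIdeal : ℝ) -
          ((sgn (1 : G →* ℂˣ) (D.σ v) : ℤ) : ℝ)) := by
      have h1 := congrArg (fun z : ℤ => (z : ℝ)) hb1
      push_cast at h1
      exact h1
    have hprod0 : 0 ≤ ∏ v ∈ T, ((Ideal.absNorm v.asIdeal : ℝ) -
          ((sgn (1 : G →* ℂˣ) (D.σ v) : ℤ) : ℝ)) := by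
      rw [← hprod]
      positivity
    have hdet : Matrix.det (Matrix.of fun a b : Fin D.r =>
        Real.log (av (D.w a) ((x b : Hˣ) : H))) = (logM (fun a => f a) y).det := by
      congr 1
      ext a b
      change Real.log (av (D.w a) ((x b : Hˣ) : H)) = Real.log (av (f a) ((y b : Fˣ) : F))
      rw [← hyx b]
      obtain ⟨u, p, hu, -, -, hav⟩ := hAV F H G F (D.w a) (D.splits a)
      have h1 : av (D.w a) (((j (y b) : Hˣ)) : H) = av u ((y b : Fˣ) : F) := hav _
      have h2 : u = f a := by
        rcases hcases a with ⟨w', hw'⟩ | ⟨w', hw'⟩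
        · rw [hfl a w' hw']
          rw [hw'] at hu
          rcases u with u | u
          · exact congrArg Sum.inl hu.symm
          · exact absurd hu (by simp [Below])
        · obtain ⟨v, hv1, -, hv3⟩ := hfr a w' hw'
          rw [hv1]
          rw [hw'] at hu
          rcases u with u | u
          · exact absurd hu (by simp [Below])
          · obtain ⟨v1, hv1', h4⟩ := hv3
            obtain ⟨v2, hv2', h5⟩ := (hu : Above {u} w')
            rw [Set.mem_singleton_iff] at hv1' hv2'
            subst hv1' hv2'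
            congr 1
            exact HeightOneSpectrum.ext (by rw [← h4, ← h5])
      rw [h1, h2]
    have hfin := final (q := q) (wF := Units.torsionOrder F) (h := classNumber F)
      (hS := ((CA (D.S : Set (HeightOneSpectrum (𝓞 F)))).index : ℝ))
      (c := (Nat.card (CA (D.S : Set (HeightOneSpectrum (𝓞 F)))) : ℝ))
      (R := Units.regulator F) (P := ∏ v ∈ D.S, Real.log (Ideal.absNorm v.asIdeal))
      (det := (logM (fun a => f a) y).det)
      (I := ((Subgroup.closure (Set.range y) ⊔ mu F).relIndex (SU F D.S) : ℝ)) (B := (b : ℝ))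
      (X := ((part (D.U T) (1 : G →* ℂˣ)).relIndex (part (D.U ∅) (1 : G →* ℂˣ)) : ℝ))
      (σ := ∏ v ∈ T, ((Ideal.absNorm v.asIdeal : ℝ) - ((sgn (1 : G →* ℂˣ) (D.σ v) : ℤ) : ℝ)))
      hcl hqv hind (by
        rw [← hindex]
        push_cast
        ring) hprod (by positivity) hprod0
    have hbR : (n : ℝ) * (((2 ^ e : ℕ) : ℝ) * (b : ℝ)) = (Nat.card G : ℝ) * (c : ℝ) := by
      exact_mod_cast hbc
    rcases hfin with h | h
    · refine ⟨x, q, m * c, hx1, hq, ?_⟩
      rw [h, hdet, hm]
      push_cast at hbR ⊢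
      linear_combination (m : ℝ) * (logM (fun a => f a) y).det * hbR
    · refine ⟨x, q, -(m * c : ℤ), hx1, hq, ?_⟩
      rw [h, hdet, hm]
      push_cast at hbR ⊢
      linear_combination -(m : ℝ) * (logM (fun a => f a) y).det * hbR


end one

end Pool.Agent.Helper9.RS
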