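import Pool.Agent.Helper9.RS.Chev4
import Pool.Agent.Helper9.RS.Dens
import Pool.Graph.R_pool_sql_team_seeded_5cf16337.K3h56.E2.Chi2
import Pool.Graph.R_pool_sql_team_seeded_5cf16337.K3h25.E2.Loc
import Pool.Graph.R_pool_sql_team_seeded_5cf16337.K3h41.E2.Dict
import Pool.Graph.R_pool_sql_team_seeded_5cf16337.K3h50.E2.Inf
import Pool.Graph.R_pool_sql_team_seeded_5cf16337.K3h72.E2.Finw
import Pool.Graph.R_pool_sql_team_seeded_5cf16337.K3h72.E2.Frob

/-!
# The characters of the class group which belong to unramified quadratic extensions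
-/

set_option autoImplicit false
set_option linter.unusedSectionVars false

open NumberField IsDedekindDomain
open scoped nonZeroDivisors

noncomputable section

namespace Pool.Agent.Helper9.RS

open Pool.Agent.K3h30.RS Pool.Agent.K3h56.E2 Pool.Agent.K3h92.E2

section geo

variable {k H G : Type} [Field k] [NumberField k] [Field H] [NumberField H] [Algebra k H]
  [CommGroup G] [Finite G] [MulSemiringAction G H]

/-- `G` has exponent two, `H / k` is unramified outside `S`, with Frobenius automorphisms `σ` -/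
structure Sit (H : Type) [Field H] [NumberField H] [Algebra k H] [MulSemiringAction G H]
    (S : Finset (HeightOneSpectrum (𝓞 k))) (σ : HeightOneSpectrum (𝓞 k) → G) : Prop where
  exp : ∀ g : G, g * g = 1
  unr : ∀ v : HeightOneSpectrum (𝓞 k), v ∉ S →
    Squarefree (v.asIdeal.map (algebraMap (𝓞 k) (𝓞 H)))
  frob : ∀ v : HeightOneSpectrum (𝓞 k), v ∉ S → IsFrob (H := H) v (σ v)

/-- `ψ` is trivial on the decomposition groups of the places in `S` -/
def Triv (H : Type) [Field H] [NumberField H] [Algebra k H] [MulSemiringAction G H]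
    (S : Finset (HeightOneSpectrum (𝓞 k))) (ψ : G →* ℂˣ) : Prop :=
  ∀ w : Place H, InS (S : Set (HeightOneSpectrum (𝓞 k))) w → ∀ γ : G, Fixes w γ → ψ γ = 1

/-- `ε` belongs to `ψ` -/
structure Bel (S : Finset (HeightOneSpectrum (𝓞 k))) (σ : HeightOneSpectrum (𝓞 k) → G)
    (ψ : G →* ℂˣ) (ε : ClassGroup (𝓞 k) →* ℂˣ) : Prop where
  ne : ε ≠ 1
  pm : ∀ c, ((ε c : ℂˣ) : ℂ) = 1 ∨ ((ε c : ℂˣ) : ℂ) = -1
  cl : ∀ v : HeightOneSpectrum (𝓞 k), (v ∈ S ∨ ψ (σ v) = 1) → ε (cls v) = 1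

/-- the quadratic extension -/
theorem field_of [IsGaloisGroup G k H] {S : Finset (HeightOneSpectrum (𝓞 k))}
    {σ : HeightOneSpectrum (𝓞 k) → G} (hS : Sit H S σ) (ψ : G →* ℂˣ) (hψ : ψ ≠ 1)
    (hT : Triv H S ψ) : ∃ (L : Type) (_ : Field L) (_ : NumberField L) (_ : Algebra k L)
      (τ : L ≃ₐ[k] L), Quad k L τ ∧ (∀ v ∈ S, loc L v = 1) ∧
      (∀ v : HeightOneSpectrum (𝓞 k), v ∉ S → ((loc L v : ℤ) : ℂ) = ((ψ (σ v) : ℂˣ) : ℂ)) ∧
      (∀ v : HeightOneSpectrum (𝓞 k), v ∉ S →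
        Squarefree (v.asIdeal.map (algebraMap (𝓞 k) (𝓞 L)))) ∧
      Fintype.card (InfinitePlace L) = 2 * Fintype.card (InfinitePlace k) := by
  have hsq : ∀ g : G, ψ g * ψ g = 1 := fun g => by rw [← map_mul, hS.exp, map_one]
  have hex : ∃ g : G, ψ g ≠ 1 := by
    by_contra hcon
    push Not at hcon
    exact hψ (MonoidHom.ext hcon)
  obtain ⟨L, _, _, _, _, τ, hd⟩ := Pool.Agent.K3h41.E2.t_DICT k H G ψ hsq hex
  have htw : IsScalarTower k L H := hd.tower
  refine ⟨L, inferInstance, inferInstance, inferInstance, τ, hd.quad, ?_, ?_, ?_, ?_⟩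
  · intro v hv
    obtain ⟨w, hw⟩ := (Pool.Agent.K3h25.RS.t_OVER k H v).1
    refine (Pool.Agent.K3h72.E2.t_FINW Pool.Agent.K3h25.E2.t_LOC k H G L τ ψ hd v w hw).1
      fun γ hγ => hT (Sum.inr w) ?_ γ hγ
    exact (above_iff hw).2 hv
  · intro v hv
    exact Pool.Agent.K3h72.E2.t_FROB Pool.Agent.K3h25.E2.t_LOC k H G L τ ψ hd v (σ v)
      (hS.unr v hv) (hS.frob v hv)
  · intro v hv
    exact squarefree_mid _ (hS.unr v hv)
  · have h1 := Pool.Agent.K3h50.E2.t_COUNT k L τ hd.quad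
    have h2 : Nat.card {v : InfinitePlace k // ∃ u : InfinitePlace L,
        u.comap (algebraMap k L) = v ∧ u.comap (τ : L →+* L) ≠ u} =
        Fintype.card (InfinitePlace k) := by
      rw [← Nat.card_eq_fintype_card]
      refine Nat.card_congr (Equiv.subtypeUnivEquiv fun v => ?_)
      rw [← splAt_inl Pool.Agent.K3h50.E2.t_INFW hd v]
      intro w hw γ hγ
      exact hT (Sum.inl w) trivial γ hγ
    omega

/-- the existence of the character of the class group -/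
theorem ex_bel [IsGaloisGroup G k H] {S : Finset (HeightOneSpectrum (𝓞 k))}
    {σ : HeightOneSpectrum (𝓞 k) → G} (hS : Sit H S σ) (ψ : G →* ℂˣ) (hψ : ψ ≠ 1)
    (hT : Triv H S ψ) : ∃ ε : ClassGroup (𝓞 k) →* ℂˣ, Bel S σ ψ ε := by
  classical
  obtain ⟨L, _, _, _, τ, hQ, h1, h2, h3, h4⟩ := field_of hS ψ hψ hT
  obtain ⟨A, hA, hAc⟩ := exists_over Pool.Agent.K3h25.E2.t_LOC hQ S
  have h5 : S.filter (fun v => loc L v = 1) = S := Finset.filter_true_of_mem h1
  rw [h5] at hAc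
  obtain ⟨M, hM1, hM2, hM3, hM4⟩ := chev Pool.Agent.K3h25.E2.t_LOC hQ hA h3 (by omega)
  -- a character which is trivial on `M`
  obtain ⟨c, hc⟩ : ∃ c : ClassGroup (𝓞 k), c ∉ M := by
    by_contra hcon
    push Not at hcon
    exact hM1 (eq_top_iff.2 fun c _ => hcon c)
  have hc1 : (QuotientGroup.mk c : ClassGroup (𝓞 k) ⧸ M) ≠ 1 := by
    rw [Ne, QuotientGroup.eq_one_iff]
    exact hc
  obtain ⟨φ, hφ⟩ := CommGroup.exists_apply_ne_one_of_hasEnoughRootsOfUnity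
    (ClassGroup (𝓞 k) ⧸ M) ℂ hc1
  have hM : ∀ c ∈ M, (φ.comp (QuotientGroup.mk' M)) c = 1 := by
    intro c hc
    have h6 : (QuotientGroup.mk' M) c = 1 := (QuotientGroup.eq_one_iff c).2 hc
    rw [MonoidHom.comp_apply, h6, map_one]
  refine ⟨φ.comp (QuotientGroup.mk' M), fun h => hφ ?_, fun c => ?_, fun v hv => hM _ ?_⟩
  · have h6 := congrArg (fun f : ClassGroup (𝓞 k) →* ℂˣ => f c) h
    exact h6
  · have h6 := hM (c ^ 2) (hM4 c)
    rw [map_pow, pow_two] at h6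
    have h7 := congrArg (fun z : ℂˣ => (z : ℂ)) h6
    simp only [Units.val_mul, Units.val_one] at h7
    exact mul_self_eq_one_iff.1 h7
  · rcases hv with hv | hv
    · exact hM2 (Subgroup.subset_closure (Set.mem_image_of_mem cls (Finset.mem_coe.2 hv)))
    · by_cases hvS : v ∈ S
      · exact hM2 (Subgroup.subset_closure (Set.mem_image_of_mem cls (Finset.mem_coe.2 hvS)))
      · refine hM3 v ?_
        have h6 := h2 v hvS
        rw [hv, Units.val_one] at h6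
        exact_mod_cast h6

theorem pm_of_sq {z : ℂˣ} (h : z * z = 1) : (z : ℂ) = 1 ∨ (z : ℂ) = -1 := by
  have h1 := congrArg (fun z : ℂˣ => (z : ℂ)) h
  rw [Units.val_mul, Units.val_one] at h1
  exact mul_self_eq_one_iff.1 h1

theorem loc_pm {S : Finset (HeightOneSpectrum (𝓞 k))}
    {σ : HeightOneSpectrum (𝓞 k) → G} (hG : ∀ g : G, g * g = 1) {ψ : G →* ℂˣ}
    {L : Type} [Field L] [NumberField L] [Algebra k L] (h1 : ∀ v ∈ S, loc L v = 1)
    (h2 : ∀ v : HeightOneSpectrum (𝓞 k), v ∉ S → ((loc L v : ℤ) : ℂ) = ((ψ (σ v) : ℂˣ) : ℂ))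
    (v : HeightOneSpectrum (𝓞 k)) : loc L v = 1 ∨ loc L v = -1 := by
  by_cases hv : v ∈ S
  · exact Or.inl (h1 v hv)
  · have h3 := h2 v hv
    have h4 : ψ (σ v) * ψ (σ v) = 1 := by rw [← map_mul, hG, map_one]
    rcases pm_of_sq h4 with h5 | h5
    · rw [h5] at h3
      left
      exact_mod_cast h3
    · rw [h5] at h3
      right
      exact_mod_cast h3

theorem bel_loc {S : Finset (HeightOneSpectrum (𝓞 k))}
    {σ : HeightOneSpectrum (𝓞 k) → G} {ψ : G →* ℂˣ} {ε : ClassGroup (𝓞 k) →* ℂˣ}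
    (hB : Bel S σ ψ ε) {L : Type} [Field L] [NumberField L] [Algebra k L]
    (h2 : ∀ v : HeightOneSpectrum (𝓞 k), v ∉ S → ((loc L v : ℤ) : ℂ) = ((ψ (σ v) : ℂˣ) : ℂ))
    (v : HeightOneSpectrum (𝓞 k)) (h : loc L v = 1) : ε (cls v) = 1 := by
  by_cases hv : v ∈ S
  · exact hB.cl v (Or.inl hv)
  · refine hB.cl v (Or.inr (Units.ext ?_))
    rw [← h2 v hv, h, Int.cast_one, Units.val_one]

/-- uniqueness -/
theorem bel_uniq [IsGaloisGroup G k H] {S : Finset (HeightOneSpectrum (𝓞 k))}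
    {σ : HeightOneSpectrum (𝓞 k) → G} (hS : Sit H S σ) (ψ : G →* ℂˣ) (hψ : ψ ≠ 1)
    (hT : Triv H S ψ) {ε ε' : ClassGroup (𝓞 k) →* ℂˣ} (hε : Bel S σ ψ ε) (hε' : Bel S σ ψ ε') :
    ε = ε' := by
  by_contra hne
  obtain ⟨L, _, _, _, τ, hQ, h1, h2, h3, h4⟩ := field_of hS ψ hψ hT
  exact uniq Pool.Agent.K3h25.E2.t_LOC hQ ε ε' hε.pm hε'.pm hε.ne hε'.ne hne
    (loc_pm hS.exp h1 h2) (bel_loc hε h2) (bel_loc hε' h2)

/-- injectivity -/
theorem bel_inj [IsGaloisGroup G k H] {S : Finset (HeightOneSpectrum (𝓞 k))}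
    {σ : HeightOneSpectrum (𝓞 k) → G} (hS : Sit H S σ) {ψ ψ' : G →* ℂˣ} (hψ : ψ ≠ 1)
    (hψ' : ψ' ≠ 1) (hT : Triv H S ψ) (hT' : Triv H S ψ') {ε : ClassGroup (𝓞 k) →* ℂˣ}
    (hε : Bel S σ ψ ε) (hε' : Bel S σ ψ' ε) : ψ = ψ' := by
  by_contra hne
  have hsq' : ∀ g : G, ψ' g * ψ' g = 1 := fun g => by rw [← map_mul, hS.exp, map_one]
  have hψ3 : ψ * ψ' ≠ 1 := by
    intro h
    apply hne
    refine MonoidHom.ext fun g => ?_
    have h1 : ψ g * ψ' g = 1 := by
      rw [← MonoidHom.mul_apply, h, MonoidHom.one_apply]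
    rw [← mul_one (ψ g), ← hsq' g, ← mul_assoc, h1, one_mul]
  have hT3 : Triv H S (ψ * ψ') := by
    intro w hw γ hγ
    rw [MonoidHom.mul_apply, hT w hw γ hγ, hT' w hw γ hγ, one_mul]
  obtain ⟨L₁, _, _, _, τ₁, hQ₁, a1, a2, -, -⟩ := field_of hS ψ hψ hT
  obtain ⟨L₂, _, _, _, τ₂, hQ₂, b1, b2, -, -⟩ := field_of hS ψ' hψ' hT'
  obtain ⟨L₃, _, _, _, τ₃, hQ₃, c1, c2, -, -⟩ := field_of hS (ψ * ψ') hψ3 hT3
  refine distinct Pool.Agent.K3h25.E2.t_LOC hQ₁ hQ₂ hQ₃ ε hε.pm hε.ne (loc_pm hS.exp a1 a2)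
    (loc_pm hS.exp b1 b2) (fun v => ?_) (bel_loc hε a2) (bel_loc hε' b2)
  by_cases hv : v ∈ S
  · rw [a1 v hv, b1 v hv, c1 v hv]
    rfl
  · have h1 : ((loc L₃ v : ℤ) : ℂ) = (((loc L₁ v * loc L₂ v : ℤ)) : ℂ) := by
      rw [c2 v hv]
      push_cast
      rw [a2 v hv, b2 v hv, MonoidHom.mul_apply, Units.val_mul]
    exact_mod_cast h1

end geo

/-- the number of the characters -/
theorem count_chars {C G : Type} [CommGroup C] [Finite C] [CommGroup G] [Finite G]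
    (hG : ∀ g : G, g * g = 1) (B : Subgroup C) (E : Subgroup G)
    (e : {ψ : G →* ℂˣ // ∀ g ∈ E, ψ g = 1} → (C →* ℂˣ)) (he : Function.Injective e)
    (h1 : ∀ ψ, ∀ c ∈ B, e ψ c = 1) (h2 : ∀ ψ c, e ψ c * e ψ c = 1) : E.index ∣ B.index := by
  classical
  -- the subgroup of the dual of `C / B`
  let Y : Subgroup (C ⧸ B →* ℂˣ) :=
    { carrier := {φ | ∀ c, φ c * φ c = 1}
      mul_mem' := by
        intro a b ha hb c
        have h3 := ha c
        have h4 := hb c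
        rw [MonoidHom.mul_apply, mul_mul_mul_comm, h3, h4, one_mul]
      one_mem' := by
        intro c
        rw [MonoidHom.one_apply, one_mul]
      inv_mem' := by
        intro a ha c
        rw [MonoidHom.inv_apply, ← mul_inv, ha c, inv_one] }
  have hdual : Nat.card (C ⧸ B →* ℂˣ) = B.index := by
    rw [CommGroup.card_monoidHom_of_hasEnoughRootsOfUnity]
    rfl
  have hdualG : Nat.card (G ⧸ E →* ℂˣ) = E.index := by
    rw [CommGroup.card_monoidHom_of_hasEnoughRootsOfUnity]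
    rfl
  have hfinC : Finite (C ⧸ B →* ℂˣ) := Nat.finite_of_card_ne_zero (by
    rw [hdual]
    exact Subgroup.FiniteIndex.index_ne_zero)
  -- the map from the dual of `G / E`
  have hpre : ∀ φ : G ⧸ E →* ℂˣ, ∀ g ∈ E, (φ.comp (QuotientGroup.mk' E)) g = 1 := by
    intro φ g hg
    have h3 : (QuotientGroup.mk' E) g = 1 := (QuotientGroup.eq_one_iff g).2 hg
    rw [MonoidHom.comp_apply, h3, map_one]
  have hex : ∀ φ : G ⧸ E →* ℂˣ, ∃ y : Y, ∀ c : C, (y : C ⧸ B →* ℂˣ) (QuotientGroup.mk c) =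
      e ⟨φ.comp (QuotientGroup.mk' E), hpre φ⟩ c := by
    intro φ
    refine ⟨⟨QuotientGroup.lift B (e ⟨φ.comp (QuotientGroup.mk' E), hpre φ⟩)
      (fun c hc => h1 ⟨φ.comp (QuotientGroup.mk' E), hpre φ⟩ c hc), ?_⟩, fun c => ?_⟩
    · intro c
      obtain ⟨c, rfl⟩ := QuotientGroup.mk_surjective c
      exact h2 _ c
    · rfl
  choose y hy using hex
  have hinj : Function.Injective y := by
    intro φ φ' h
    have h3 := he (MonoidHom.ext fun c => (hy φ c).symm.trans (by rw [h]; exact hy φ' c))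
    have h4 := congrArg Subtype.val h3
    refine MonoidHom.ext fun g => ?_
    obtain ⟨g, rfl⟩ := QuotientGroup.mk_surjective g
    exact congrArg (fun f : G →* ℂˣ => f g) h4
  have hle : E.index ≤ Nat.card Y := by
    rw [← hdualG]
    exact Nat.card_le_card_of_injective y hinj
  have hY : Nat.card Y ∣ B.index := by
    rw [← hdual]
    exact Subgroup.card_subgroup_dvd_card Y
  have hpY : IsPGroup 2 Y := by
    intro y
    refine ⟨1, Subtype.ext (MonoidHom.ext fun c => ?_)⟩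
    rw [pow_one, pow_two]
    exact y.2 c
  have hpG : IsPGroup 2 (G ⧸ E) := by
    intro g
    refine ⟨1, ?_⟩
    obtain ⟨g, rfl⟩ := QuotientGroup.mk_surjective g
    rw [pow_one, pow_two, ← QuotientGroup.mk_mul, hG]
    rfl
  have : Fact (Nat.Prime 2) := ⟨Nat.prime_two⟩
  obtain ⟨a, ha⟩ := IsPGroup.iff_card.1 hpY
  obtain ⟨b, hb⟩ := IsPGroup.iff_card.1 hpG
  have hE : E.index = 2 ^ b := hb
  refine dvd_trans ?_ hY
  rw [hE, ha]
  rw [hE, ha] at hle
  exact pow_dvd_pow 2 ((Nat.pow_le_pow_iff_right (by norm_num)).1 hle)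

end Pool.Agent.Helper9.RS
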