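import Pool.Agent.Helper9.RS.Geo

/-!
# The factor of the class numbers which comes from unramified extensions
-/

set_option autoImplicit false
set_option linter.unusedSectionVars false

open NumberField IsDedekindDomain
open scoped nonZeroDivisors

noncomputable section

namespace Pool.Agent.Helper9.RS

open Pool.Agent.K3h30.RS Pool.Agent.K3h56.E2 Pool.Agent.K3h92.E2

section geo

variable {k H G : Type} [Field k] [NumberField k] [Field H] [NumberField H] [Algebra k H]
  [CommGroup G] [Finite G] [MulSemiringAction G H]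

/-- the subgroup generated by the decomposition groups of the places in `S` -/
def decS (G H : Type) [Field H] [NumberField H] [Algebra k H] [CommGroup G]
    [MulSemiringAction G H] (S : Finset (HeightOneSpectrum (𝓞 k))) : Subgroup G :=
  Subgroup.closure {γ : G | ∃ w : Place H, InS (S : Set (HeightOneSpectrum (𝓞 k))) w ∧ Fixes w γ}

theorem triv_iff {S : Finset (HeightOneSpectrum (𝓞 k))} {ψ : G →* ℂˣ} :
    Triv H S ψ ↔ ∀ g ∈ decS G H S, ψ g = 1 := by
  constructor
  · intro h
    have h1 : decS G H S ≤ ψ.ker := by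
      refine (Subgroup.closure_le _).2 ?_
      rintro γ ⟨w, hw, hγ⟩
      exact h w hw γ hγ
    exact fun g hg => h1 hg
  · intro h w hw γ hγ
    exact h γ (Subgroup.subset_closure ⟨w, hw, hγ⟩)

theorem index_dvd_of [IsGaloisGroup G k H] {S : Finset (HeightOneSpectrum (𝓞 k))}
    {σ : HeightOneSpectrum (𝓞 k) → G} (hS : Sit H S σ) (B : Subgroup (ClassGroup (𝓞 k)))
    (hB : ∀ ψ : G →* ℂˣ, ψ ≠ 1 → Triv H S ψ → ∀ ε : ClassGroup (𝓞 k) →* ℂˣ, Bel S σ ψ ε →
      ∀ c ∈ B, ε c = 1) : (decS G H S).index ∣ B.index := by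
  classical
  have hex : ∀ ψ : {ψ : G →* ℂˣ // ∀ g ∈ decS G H S, ψ g = 1},
      ∃ ε : ClassGroup (𝓞 k) →* ℂˣ, (ψ.1 = 1 → ε = 1) ∧ (ψ.1 ≠ 1 → Bel S σ ψ.1 ε) := by
    intro ψ
    by_cases h : ψ.1 = 1
    · exact ⟨1, fun _ => rfl, fun h' => absurd h h'⟩
    · obtain ⟨ε, hε⟩ := ex_bel hS ψ.1 h (triv_iff.2 ψ.2)
      exact ⟨ε, fun h' => absurd h' h, fun _ => hε⟩
  choose e he1 he2 using hex
  refine count_chars hS.exp B (decS G H S) e ?_ ?_ ?_
  · intro ψ ψ' h
    apply Subtype.ext
    by_cases h1 : ψ.1 = 1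
    · by_cases h2 : ψ'.1 = 1
      · rw [h1, h2]
      · exfalso
        apply (he2 ψ' h2).ne
        rw [← h, he1 ψ h1]
    · by_cases h2 : ψ'.1 = 1
      · exfalso
        apply (he2 ψ h1).ne
        rw [h, he1 ψ' h2]
      · refine bel_inj hS h1 h2 (triv_iff.2 ψ.2) (triv_iff.2 ψ'.2) (he2 ψ h1) ?_
        rw [h]
        exact he2 ψ' h2
  · intro ψ c hc
    by_cases h1 : ψ.1 = 1
    · rw [he1 ψ h1, MonoidHom.one_apply]
    · exact hB ψ.1 h1 (triv_iff.2 ψ.2) (e ψ) (he2 ψ h1) c hc
  · intro ψ c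
    by_cases h1 : ψ.1 = 1
    · rw [he1 ψ h1, MonoidHom.one_apply, one_mul]
    · apply Units.ext
      rw [Units.val_mul, Units.val_one]
      rcases (he2 ψ h1).pm c with h2 | h2 <;> rw [h2] <;> norm_num

/-- the base field -/
theorem base_dvd [IsGaloisGroup G k H] {S : Finset (HeightOneSpectrum (𝓞 k))}
    {σ : HeightOneSpectrum (𝓞 k) → G} (hS : Sit H S σ) :
    (decS G H S).index ∣ (CA (S : Set (HeightOneSpectrum (𝓞 k)))).index := by
  refine index_dvd_of hS _ fun ψ hψ hT ε hε => ?_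
  have h1 : CA (S : Set (HeightOneSpectrum (𝓞 k))) ≤ ε.ker := by
    refine (Subgroup.closure_le _).2 ?_
    rintro _ ⟨v, hv, rfl⟩
    exact hε.cl v (Or.inl (Finset.mem_coe.1 hv))
  exact fun c hc => h1 hc

end geo

section kernel

variable {F H G K : Type} [Field F] [NumberField F] [Field H] [NumberField H] [Algebra F H]
  [CommGroup G] [Finite G] [MulSemiringAction G H] [Field K] [NumberField K] [Algebra F K]
  [Algebra K H]

/-- the prime ideal below `P` -/
def und (F : Type) [Field F] [NumberField F] [Algebra F K] (P : HeightOneSpectrum (𝓞 K)) :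
    HeightOneSpectrum (𝓞 F) := (Pool.Agent.K3h77.E2.exists_under (F := F) P).choose

theorem above_und (P : HeightOneSpectrum (𝓞 K)) : Above {und F P} P :=
  (Pool.Agent.K3h77.E2.exists_under (F := F) P).choose_spec

theorem und_eq {v : HeightOneSpectrum (𝓞 F)} {P : HeightOneSpectrum (𝓞 K)} (h : Above {v} P) :
    und F P = v := by
  have h1 := above_und (F := F) P
  rw [above_singleton] at h h1
  exact HeightOneSpectrum.ext (h1.symm.trans h)

open Classical in
/-- the Frobenius automorphisms of `H / K` -/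
def sigK (χ : G →* ℂˣ) (σ : HeightOneSpectrum (𝓞 F) → G) (P : HeightOneSpectrum (𝓞 K)) : χ.ker :=
  if h : χ (σ (und F P)) = 1 then ⟨σ (und F P), h⟩ else 1

theorem frob_sq {v : HeightOneSpectrum (𝓞 F)} {γ : G} (hγ : γ * γ = 1)
    (hF : IsFrob (H := H) v γ) {w : HeightOneSpectrum (𝓞 H)} (hw : Above {v} w) (x : 𝓞 H) :
    w.valuation H ((x : H) - (x : H) ^ (Ideal.absNorm v.asIdeal ^ 2)) < 1 := by
  have key : ∀ y : 𝓞 H, γ • y - y ^ (Ideal.absNorm v.asIdeal) ∈ w.asIdeal := by
    intro y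
    rw [← HeightOneSpectrum.valuation_lt_one_iff_mem (K := H)]
    exact hF w hw y
  have h1 := key x
  have h2 := key (γ • x)
  rw [smul_smul, hγ, one_smul] at h2
  have h3 : (γ • x) ^ (Ideal.absNorm v.asIdeal) -
      (x ^ (Ideal.absNorm v.asIdeal)) ^ (Ideal.absNorm v.asIdeal) ∈ w.asIdeal := by
    obtain ⟨z, hz⟩ := sub_dvd_pow_sub_pow (γ • x) (x ^ (Ideal.absNorm v.asIdeal))
      (Ideal.absNorm v.asIdeal)
    rw [hz]
    exact Ideal.mul_mem_right _ _ h1
  have h4 : x - x ^ (Ideal.absNorm v.asIdeal ^ 2) ∈ w.asIdeal := by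
    have h5 := Ideal.add_mem _ h2 h3
    rw [pow_two, pow_mul]
    have h6 : x - (x ^ (Ideal.absNorm v.asIdeal)) ^ (Ideal.absNorm v.asIdeal) =
        x - (γ • x) ^ (Ideal.absNorm v.asIdeal) + ((γ • x) ^ (Ideal.absNorm v.asIdeal) -
        (x ^ (Ideal.absNorm v.asIdeal)) ^ (Ideal.absNorm v.asIdeal)) := by ring
    rw [h6]
    exact h5
  have h7 := (HeightOneSpectrum.valuation_lt_one_iff_mem (K := H) w _).2 h4
  exact h7

/-- the situation over `K` -/
theorem sit_K [IsGaloisGroup G F H] {χ : G →* ℂˣ} {τ : K ≃ₐ[F] K} (hd : Dict F H G K τ χ)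
    {S : Finset (HeightOneSpectrum (𝓞 F))} {σ : HeightOneSpectrum (𝓞 F) → G} (hS : Sit H S σ)
    {A : Finset (HeightOneSpectrum (𝓞 K))} (hA : Over S A) :
    Sit (G := χ.ker) H A (sigK (K := K) χ σ) := by
  have htw : IsScalarTower F K H := hd.tower
  have hnS : ∀ P : HeightOneSpectrum (𝓞 K), P ∉ A → und F P ∉ S := fun P hP hS' =>
    hP ((hA P).2 ⟨_, hS', above_und P⟩)
  refine ⟨fun g => Subtype.ext (hS.exp g), fun P hP => ?_, fun P hP w hw x => ?_⟩
  · have h1 := hS.unr _ (hnS P hP)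
    refine h1.squarefree_of_dvd ?_
    rw [IsScalarTower.algebraMap_eq (𝓞 F) (𝓞 K) (𝓞 H), ← Ideal.map_map]
    refine Ideal.dvd_iff_le.2 (Ideal.map_mono ?_)
    rw [Ideal.map_le_iff_le_comap, above_singleton.1 (above_und (F := F) P)]
  · have hv := hnS P hP
    have hP' := above_und (F := F) P
    have hw' : Above {und F P} w := by
      rw [above_singleton, IsScalarTower.algebraMap_eq (𝓞 F) (𝓞 K) (𝓞 H), ← Ideal.comap_comap,
        above_singleton.1 hw]
      exact above_singleton.1 hP'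
    have hl := Pool.Agent.K3h72.E2.t_FROB Pool.Agent.K3h25.E2.t_LOC F H G K τ χ hd (und F P)
      (σ (und F P)) (hS.unr _ hv) (hS.frob _ hv)
    have hL := Pool.Agent.K3h25.E2.t_LOC F K τ hd.quad (und F P)
    unfold sigK
    split_ifs with h
    · rw [h, Units.val_one] at hl
      obtain ⟨P₁, P₂, -, h1, -, -, h2, h3⟩ := hL.1 (by exact_mod_cast hl)
      have hN : Ideal.absNorm P.asIdeal = Ideal.absNorm (und F P).asIdeal := by
        rcases (h1 P).1 hP' with h4 | h4
        · rw [h4, h2, ← h4]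
        · rw [h4, h3, ← h4]
      rw [hN]
      exact hS.frob _ hv w hw' x
    · have hχ : χ (σ (und F P)) * χ (σ (und F P)) = 1 := by rw [← map_mul, hS.exp, map_one]
      have hm : ((loc K (und F P) : ℤ) : ℂ) = -1 := by
        rcases pm_of_sq hχ with h1 | h1
        · exact absurd (Units.ext h1) h
        · rw [hl, h1]
      have hm' : loc K (und F P) = -1 := by exact_mod_cast hm
      obtain ⟨P₁, h1, -, h2⟩ := hL.2 (by rw [hm']; norm_num)
      have hN : Ideal.absNorm P.asIdeal = Ideal.absNorm (und F P).asIdeal ^ 2 := by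
        rw [(h1 P).1 hP']
        rcases h2 with h3 | h3
        · rw [h3.2.2, ← (h1 P).1 hP']
        · rw [hm'] at h3
          exact absurd h3.1 (by norm_num)
      rw [hN, one_smul]
      exact frob_sq (hS.exp _) (hS.frob _ hv) hw' x

/-- the conjugate prime ideal -/
def conjP (τ : K ≃ₐ[F] K) (P : HeightOneSpectrum (𝓞 K)) : HeightOneSpectrum (𝓞 K) :=
  ⟨P.asIdeal.map (sg τ), Ideal.map_isPrime_of_equiv (sig τ), map_sg_ne P.ne_bot⟩

theorem above_conj {τ : K ≃ₐ[F] K} (hQ : Quad F K τ) {v : HeightOneSpectrum (𝓞 F)}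
    {P : HeightOneSpectrum (𝓞 K)} (h : Above {v} P) : Above {v} (conjP τ P) := by
  rw [above_singleton] at h ⊢
  rw [← h]
  ext x
  rw [Ideal.mem_comap, Ideal.mem_comap]
  show algebraMap (𝓞 F) (𝓞 K) x ∈ P.asIdeal.map (sg τ) ↔ _
  rw [Ideal.mem_map_iff_of_surjective (sg τ) (sig τ).surjective]
  constructor
  · rintro ⟨y, hy, hyx⟩
    have h1 : sig τ (sg τ y) = y := sg_sg hQ y
    rw [hyx, sig_alg] at h1
    rw [h1]
    exact hy
  · intro hx
    exact ⟨_, hx, sig_alg τ x⟩

theorem mem_CA_univ (c : ClassGroup (𝓞 F)) : c ∈ CA (Set.univ : Set (HeightOneSpectrum (𝓞 F))) := by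
  obtain ⟨J, rfl⟩ := ClassGroup.mk0_surjective c
  exact cls_mem _ ⟨nonZeroDivisors.ne_zero J.2, fun P _ => Set.mem_univ P⟩ J.2

/-- the characters are trivial on the classes which come from `F` -/
theorem bel_triv [IsGaloisGroup G F H] {χ : G →* ℂˣ} {τ : K ≃ₐ[F] K} (hd : Dict F H G K τ χ)
    {S : Finset (HeightOneSpectrum (𝓞 F))} {σ : HeightOneSpectrum (𝓞 F) → G} (hS : Sit H S σ)
    {A : Finset (HeightOneSpectrum (𝓞 K))} (hA : Over S A) (ψ : χ.ker →* ℂˣ) (hψ : ψ ≠ 1)
    (hT : Triv H A ψ) (ε : ClassGroup (𝓞 K) →* ℂˣ) (hε : Bel A (sigK (K := K) χ σ) ψ ε) :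
    ∀ c ∈ (ClassGroup.extendedHom (𝓞 F) (𝓞 K)).range ⊔
      CA (A : Set (HeightOneSpectrum (𝓞 K))), ε c = 1 := by
  have hgal : IsGaloisGroup χ.ker K H := Pool.Agent.K3h72.E2.gal_ker hd
  have hQ := hd.quad
  have hCA : CA (A : Set (HeightOneSpectrum (𝓞 K))) ≤ ε.ker := by
    refine (Subgroup.closure_le _).2 ?_
    rintro _ ⟨v, hv, rfl⟩
    exact hε.cl v (Or.inl (Finset.mem_coe.1 hv))
  obtain ⟨s, hs⟩ := exists_sigC τ
  have hscls : ∀ P : HeightOneSpectrum (𝓞 K), s (cls P) = cls (conjP τ P) := fun P =>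
    hs _ _ _
  have hss : ∀ c, s (s c) = c := by
    intro c
    obtain ⟨I, rfl⟩ := ClassGroup.mk0_surjective c
    have hI0 : (I : Ideal (𝓞 K)) ≠ 0 := nonZeroDivisors.ne_zero I.2
    have m1 : (I : Ideal (𝓞 K)).map (sg τ) ∈ (Ideal (𝓞 K))⁰ :=
      mem_nonZeroDivisors_of_ne_zero (map_sg_ne hI0)
    have m2 : ((I : Ideal (𝓞 K)).map (sg τ)).map (sg τ) ∈ (Ideal (𝓞 K))⁰ :=
      mem_nonZeroDivisors_of_ne_zero (map_sg_ne (map_sg_ne hI0))
    have e1 : s (ClassGroup.mk0 I) = ClassGroup.mk0 ⟨_, m1⟩ := hs I I.2 m1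
    rw [e1, hs _ m1 m2]
    congr 1
    exact Subtype.ext (map_sg_sg hQ _)
  have hinv : ε.comp s = ε := by
    refine (bel_uniq (sit_K hd hS hA) ψ hψ hT hε ⟨?_, fun c => hε.pm (s c), fun P hP => ?_⟩).symm
    · intro h
      apply hε.ne
      refine MonoidHom.ext fun c => ?_
      have h1 := congrArg (fun f : ClassGroup (𝓞 K) →* ℂˣ => f (s c)) h
      have h2 : ε (s (s c)) = 1 := h1
      rw [hss] at h2
      exact h2
    · rw [MonoidHom.comp_apply, hscls]
      refine hε.cl _ ?_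
      have h1 := above_conj hQ (above_und (F := F) P)
      rcases hP with hP | hP
      · left
        obtain ⟨v, hv, hvP⟩ := (hA P).1 hP
        refine (hA _).2 ⟨und F P, ?_, h1⟩
        rw [und_eq hvP]
        exact hv
      · right
        have h2 : und F (conjP τ P) = und F P := und_eq h1
        have h3 : sigK (K := K) χ σ (conjP τ P) = sigK (K := K) χ σ P := by
          unfold sigK
          rw [h2]
        rw [h3]
        exact hP
  have hrange : (ClassGroup.extendedHom (𝓞 F) (𝓞 K)).range ≤ ε.ker := by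
    rintro _ ⟨c, rfl⟩
    have hle : CA (Set.univ : Set (HeightOneSpectrum (𝓞 F))) ≤
        ε.ker.comap (ClassGroup.extendedHom (𝓞 F) (𝓞 K)) := by
      refine (Subgroup.closure_le _).2 ?_
      rintro _ ⟨v, -, rfl⟩
      show ε (ClassGroup.extendedHom (𝓞 F) (𝓞 K) (cls v)) = 1
      have hmap : v.asIdeal.map (algebraMap (𝓞 F) (𝓞 K)) ∈ (Ideal (𝓞 K))⁰ :=
        mem_nonZeroDivisors_of_ne_zero (map_alg_ne v.ne_bot)
      have hj : ClassGroup.extendedHom (𝓞 F) (𝓞 K) (cls v) = ClassGroup.mk0 ⟨_, hmap⟩ := by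
        rw [cls, ClassGroup.extendedHom_mk0]
      rw [hj]
      by_cases hv : v ∈ S
      · refine hCA (cls_mem _ ⟨map_alg_ne v.ne_bot, fun P hP => ?_⟩ hmap)
        refine (hA P).2 ⟨v, hv, ?_⟩
        rw [Ideal.dvd_iff_le, Ideal.map_le_iff_le_comap] at hP
        rw [above_singleton]
        have h1 := P.isPrime
        have h2 : (P.asIdeal.comap (algebraMap (𝓞 F) (𝓞 K))).IsPrime := Ideal.comap_isPrime _ _
        exact ((v.isMaximal).eq_of_le h2.ne_top hP).symm
      · have hl := Pool.Agent.K3h72.E2.t_FROB Pool.Agent.K3h25.E2.t_LOC F H G K τ χ hd v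
          (σ v) (hS.unr _ hv) (hS.frob _ hv)
        have hL := Pool.Agent.K3h25.E2.t_LOC F K τ hd.quad v
        have hχ : χ (σ v) * χ (σ v) = 1 := by rw [← map_mul, hS.exp, map_one]
        rcases pm_of_sq hχ with h | h
        · rw [h] at hl
          obtain ⟨P, P', hne, hall, hval, hprod, -, -⟩ := hL.1 (by exact_mod_cast hl)
          have hPv : Above {v} P := (hall P).2 (Or.inl rfl)
          have e1 : (⟨_, hmap⟩ : (Ideal (𝓞 K))⁰) =
              ⟨P.asIdeal, mem_nonZeroDivisors_of_ne_zero P.ne_bot⟩ *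
                ⟨P'.asIdeal, mem_nonZeroDivisors_of_ne_zero P'.ne_bot⟩ := Subtype.ext hprod
          rw [e1, map_mul, map_mul]
          show ε (cls P) * ε (cls P') = 1
          have e2 : conjP τ P = P' := by
            apply HeightOneSpectrum.ext
            show P.asIdeal.map (sg τ) = P'.asIdeal
            ext x
            rw [Ideal.mem_map_iff_of_surjective (sg τ) (sig τ).surjective]
            have hmem : ∀ x : 𝓞 K, x ∈ P'.asIdeal ↔ sig τ x ∈ P.asIdeal := by
              intro x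
              rw [← HeightOneSpectrum.valuation_lt_one_iff_mem (K := K),
                ← HeightOneSpectrum.valuation_lt_one_iff_mem (K := K), hval (x : K)]
              rfl
            rw [hmem]
            constructor
            · rintro ⟨y, hy, rfl⟩
              have h1 : sig τ (sg τ y) = y := sg_sg hQ y
              rw [h1]
              exact hy
            · intro h
              exact ⟨sig τ x, h, sg_sg hQ x⟩
          have e3 : ε (cls P') = ε (cls P) := by
            rw [← e2, ← hscls]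
            exact congrArg (fun f : ClassGroup (𝓞 K) →* ℂˣ => f (cls P)) hinv
          rw [e3]
          apply Units.ext
          rw [Units.val_mul, Units.val_one]
          rcases hε.pm (cls P) with h2 | h2 <;> rw [h2] <;> norm_num
        · rw [h] at hl
          have hl' : loc K v = -1 := by exact_mod_cast hl
          obtain ⟨P, hall, -, h2⟩ := hL.2 (by rw [hl']; norm_num)
          have hPv : Above {v} P := (hall P).2 rfl
          have hvm : v.asIdeal.map (algebraMap (𝓞 F) (𝓞 K)) = P.asIdeal := by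
            rcases h2 with h3 | h3
            · exact h3.2.1
            · rw [hl'] at h3
              exact absurd h3.1 (by norm_num)
          have e1 : (⟨_, hmap⟩ : (Ideal (𝓞 K))⁰) =
              ⟨P.asIdeal, mem_nonZeroDivisors_of_ne_zero P.ne_bot⟩ := Subtype.ext hvm
          rw [e1]
          show ε (cls P) = 1
          refine hε.cl P (Or.inr ?_)
          have h3 : sigK (K := K) χ σ P = 1 := by
            unfold sigK
            rw [und_eq hPv, dif_neg]
            intro h4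
            rw [h4, Units.val_one] at h
            norm_num at h
          rw [h3, map_one]
    exact hle (mem_CA_univ c)
  intro c hc
  exact (sup_le hrange hCA) hc

/-- the sharper form of `CLS` -/
theorem cls_sharp [IsGaloisGroup G F H] {χ : G →* ℂˣ} {τ : K ≃ₐ[F] K} (hd : Dict F H G K τ χ)
    {S : Finset (HeightOneSpectrum (𝓞 F))} {σ : HeightOneSpectrum (𝓞 F) → G} (hS : Sit H S σ)
    {A : Finset (HeightOneSpectrum (𝓞 K))} (hA : Over S A) :
    (CA (S : Set (HeightOneSpectrum (𝓞 F)))).index * (decS χ.ker H A).index ∣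
      (CA (A : Set (HeightOneSpectrum (𝓞 K)))).index *
        ((SU K A).map ((MonoidHom.id Kˣ) / actK τ)).relIndex (SU K A ⊓ minus τ) := by
  have hgal : IsGaloisGroup χ.ker K H := Pool.Agent.K3h72.E2.gal_ker hd
  have hQ := hd.quad
  have h0 := index_dvd_of (sit_K hd hS hA) ((ClassGroup.extendedHom (𝓞 F) (𝓞 K)).range ⊔
    CA (A : Set (HeightOneSpectrum (𝓞 K)))) (bel_triv hd hS hA)
  set j := ClassGroup.extendedHom (𝓞 F) (𝓞 K) with hj
  set C' := (CA (A : Set (HeightOneSpectrum (𝓞 K)))).comap j with hC'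
  have h1 : (CA (S : Set (HeightOneSpectrum (𝓞 F)))).relIndex C' ∣
      ((SU K (A : Set (HeightOneSpectrum (𝓞 K)))).map ((MonoidHom.id Kˣ) / actK τ)).relIndex
        (SU K (A : Set (HeightOneSpectrum (𝓞 K))) ⊓ minus τ) :=
    relIndex_dvd C' _ _ _ (Rel τ (A : Set (HeightOneSpectrum (𝓞 K)))) (fun c hc => rel_ex τ _ c hc)
      (rel_mul τ _) (rel_mem τ hQ hA) (rel_uniq τ _) (rel_ker τ hQ hA)
  have h2 : C'.index * (j.range ⊔ CA (A : Set (HeightOneSpectrum (𝓞 K)))).index =
      (CA (A : Set (HeightOneSpectrum (𝓞 K)))).index := by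
    rw [← Subgroup.relIndex_mul_index (le_sup_right :
      CA (A : Set (HeightOneSpectrum (𝓞 K))) ≤ j.range ⊔ CA (A : Set (HeightOneSpectrum (𝓞 K)))),
      Subgroup.relIndex_sup_right, hC', Subgroup.index_comap]
  have h3 : (CA (S : Set (HeightOneSpectrum (𝓞 F)))).index ∣
      (CA (S : Set (HeightOneSpectrum (𝓞 F))) ⊓ C').index := Subgroup.index_dvd_of_le inf_le_left
  have h4 : (CA (S : Set (HeightOneSpectrum (𝓞 F))) ⊓ C').index =
      (CA (S : Set (HeightOneSpectrum (𝓞 F)))).relIndex C' * C'.index := by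
    rw [← Subgroup.relIndex_mul_index (inf_le_right :
      CA (S : Set (HeightOneSpectrum (𝓞 F))) ⊓ C' ≤ C'), Subgroup.inf_relIndex_right]
  rw [h4] at h3
  rw [← h2]
  refine (mul_dvd_mul h3 h0).trans ?_
  calc _ = (CA (S : Set (HeightOneSpectrum (𝓞 F)))).relIndex C' * (C'.index *
        (j.range ⊔ CA (A : Set (HeightOneSpectrum (𝓞 K)))).index) := by ring
    _ ∣ _ := by
      rw [mul_comm]
      exact mul_dvd_mul_left _ h1

end kernel

end Pool.Agent.Helper9.RS
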