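import Pool.Agent.Helper9.RS.Loc2

/-!
# Kummer theory and the orders of the decomposition groups
-/

set_option autoImplicit false
set_option linter.unusedSectionVars false

open NumberField IsDedekindDomain Filter Topology

noncomputable section

namespace Pool.Agent.Helper9.RS

open Pool.Agent.K3h30.RS Pool.Agent.K3h56.E2

section kummer

variable {F H G : Type} [Field F] [NumberField F] [Field H] [NumberField H]
  [Algebra F H] [CommGroup G] [Finite G] [MulSemiringAction G H]

/-- the square root which belongs to a character -/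
theorem exists_gen [IsGaloisGroup G F H] (hG : ∀ g : G, g * g = 1) (ψ : G →* ℂˣ) :
    ∃ (y : Hˣ) (a : Fˣ), (y : H) * (y : H) = algebraMap F H (a : F) ∧
      ∀ g : G, (ψ g = 1 → g • (y : H) = y) ∧ (ψ g ≠ 1 → g • (y : H) = -(y : H)) := by
  by_cases hψ : ψ = 1
  · subst hψ
    refine ⟨1, 1, by simp, fun g => ⟨fun _ => by simp, fun h => absurd rfl h⟩⟩
  · have hsq : ∀ g : G, ψ g * ψ g = 1 := fun g => by rw [← map_mul, hG, map_one]
    have hex : ∃ g : G, ψ g ≠ 1 := by
      by_contra hcon
      push Not at hcon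
      exact hψ (MonoidHom.ext hcon)
    obtain ⟨K, _, _, _, _, τ, hd⟩ := Pool.Agent.K3h41.E2.t_DICT F H G ψ hsq hex
    obtain ⟨htt, hfix⟩ := Pool.Agent.K3h92.E2.tau_facts τ hd.quad
    obtain ⟨θ, hθ⟩ : ∃ θ : K, τ θ ≠ θ := by
      by_contra hcon
      push Not at hcon
      exact hd.quad.ne (AlgEquiv.ext hcon)
    have h2 : θ - τ θ ≠ 0 := sub_ne_zero.2 (Ne.symm hθ)
    have hτ : τ (θ - τ θ) = -(θ - τ θ) := by rw [map_sub, htt]; ring
    obtain ⟨a, ha⟩ := hfix ((θ - τ θ) * (θ - τ θ)) (by rw [map_mul, hτ]; ring)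
    have ha0 : a ≠ 0 := by
      rintro rfl
      rw [map_zero] at ha
      exact mul_ne_zero h2 h2 ha.symm
    have hy0 : algebraMap K H (θ - τ θ) ≠ 0 := by
      rw [Ne, map_eq_zero]
      exact h2
    have htw : IsScalarTower F K H := hd.tower
    refine ⟨Units.mk0 _ hy0, Units.mk0 a ha0, ?_, fun g => ⟨fun hg => ?_, fun hg => ?_⟩⟩
    · rw [Units.val_mk0, Units.val_mk0, ← map_mul, ← ha, ← IsScalarTower.algebraMap_apply]
    · rw [Units.val_mk0]
      exact hd.one g hg _
    · rw [Units.val_mk0, hd.neg g hg, hτ, map_neg]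

/-- the order of a subgroup and invariants of elements of `F^*` modulo squares -/
theorem card_le_of_inv [IsGaloisGroup G F H] (hG : ∀ g : G, g * g = 1) (E : Subgroup G)
    {Q : Type} [Finite Q] (q : Fˣ → Q)
    (h : ∀ (a a' : Fˣ) (y y' : Hˣ), (y : H) * (y : H) = algebraMap F H (a : F) →
      (y' : H) * (y' : H) = algebraMap F H (a' : F) → q a = q a' →
      ∀ γ ∈ E, γ • ((y : H) * (y' : H)) = (y : H) * (y' : H)) : Nat.card E ≤ Nat.card Q := by
  have hcard : Nat.card (E →* ℂˣ) = Nat.card E :=
    CommGroup.card_monoidHom_of_hasEnoughRootsOfUnity E ℂ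
  have hext : ∀ φ : E →* ℂˣ, ∃ ψ : G →* ℂˣ, ∀ γ : E, ψ (γ : G) = φ γ := by
    intro φ
    obtain ⟨ψ, hψ⟩ := MonoidHom.domRestrict_surjective (M := ℂ) E φ
    exact ⟨ψ, fun γ => congrArg (fun f : E →* ℂˣ => f γ) hψ⟩
  choose ψ hψ using hext
  choose y a hya hy using fun φ : E →* ℂˣ => exists_gen (F := F) (H := H) hG (ψ φ)
  rw [← hcard]
  refine Nat.card_le_card_of_injective (fun φ => q (a φ)) fun φ φ' hq => ?_
  refine MonoidHom.ext fun γ => ?_
  have h1 := h (a φ) (a φ') (y φ) (y φ') (hya φ) (hya φ') hq γ γ.2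
  rw [smul_mul'] at h1
  have hpm : ∀ φ : E →* ℂˣ, ψ φ (γ : G) ≠ 1 → ψ φ (γ : G) = -1 := by
    intro φ hx
    have h3 : ψ φ (γ : G) * ψ φ (γ : G) = 1 := by rw [← map_mul, hG, map_one]
    rcases pm_of_sq h3 with h4 | h4
    · exact absurd (Units.ext h4) hx
    · exact Units.ext h4
  have hy0 : (y φ : H) * (y φ' : H) ≠ 0 := mul_ne_zero (y φ).ne_zero (y φ').ne_zero
  have h20 : (2 : H) ≠ 0 := two_ne_zero
  rw [← hψ φ γ, ← hψ φ' γ]
  by_cases c1 : ψ φ (γ : G) = 1
  · by_cases c2 : ψ φ' (γ : G) = 1
    · rw [c1, c2]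
    · exfalso
      rw [((hy φ) γ).1 c1, ((hy φ') γ).2 c2] at h1
      have h5 : 2 * ((y φ : H) * (y φ' : H)) = 0 := by linear_combination -h1
      exact mul_ne_zero h20 hy0 h5
  · by_cases c2 : ψ φ' (γ : G) = 1
    · exfalso
      rw [((hy φ) γ).2 c1, ((hy φ') γ).1 c2] at h1
      have h5 : 2 * ((y φ : H) * (y φ' : H)) = 0 := by linear_combination -h1
      exact mul_ne_zero h20 hy0 h5
    · rw [hpm φ c1, hpm φ' c2]

/-- the elements which fix `z` -/
theorem closure_fix {X : Set G} (z : H) (h : ∀ γ ∈ X, γ • z = z) :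
    ∀ γ ∈ Subgroup.closure X, γ • z = z := by
  have h1 : Subgroup.closure X ≤ MulAction.stabilizer G z := (Subgroup.closure_le _).2 h
  exact fun γ hγ => h1 hγ

end kummer

section inf

variable {F H G : Type} [Field F] [NumberField F] [Field H] [NumberField H]
  [Algebra F H] [CommGroup G] [Finite G] [MulSemiringAction G H]

open Classical in
/-- the decomposition groups of the infinite places -/
theorem card_inf_le [IsGaloisGroup G F H] (hG : ∀ g : G, g * g = 1) (v : InfinitePlace F) :
    Nat.card (decAt G H (Sum.inl v : Place F)) ≤ 2 := by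
  have hB : Nat.card Bool = 2 := by simp
  rw [← hB]
  refine card_le_of_inv (F := F) (H := H) hG _
    (fun a => decide (0 < (v.embedding (a : F)).re)) ?_
  intro a a' y y' hy hy' hq
  refine closure_fix _ ?_
  rintro γ ⟨w, hb, hγ⟩
  rcases w with w | w
  swap
  · exact absurd hb (by simp [Below])
  have hw : w.comap (algebraMap F H) = v := hb
  set Z : H := (y : H) * (y' : H) with hZ
  have hZ0 : Z ≠ 0 := mul_ne_zero y.ne_zero y'.ne_zero
  have hZZ : Z * Z = algebraMap F H ((a : F) * (a' : F)) := by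
    rw [map_mul, ← hy, ← hy', hZ]
    ring
  have : SMulCommClass G F H := (inferInstance : IsGaloisGroup G F H).commutes
  have hF : ∀ x : F, γ • algebraMap F H x = algebraMap F H x := fun x => smul_algebraMap γ x
  have h1 : γ • Z * γ • Z = Z * Z := by
    rw [← smul_mul', hZZ, hF]
  rcases mul_self_eq_mul_self_iff.1 h1 with h2 | h2
  · exact h2
  · exfalso
    -- the norms
    have hn : ∀ x : H, ‖w.embedding (γ • x)‖ = ‖w.embedding x‖ := by
      intro x
      have h3 := hγ x
      change w (γ • x) ^ w.mult = w x ^ w.mult at h3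
      have h4 := (pow_left_inj₀ (apply_nonneg w _) (apply_nonneg w _) w.mult_ne_zero).1 h3
      rw [InfinitePlace.norm_embedding_eq, InfinitePlace.norm_embedding_eq]
      exact h4
    set Φ := w.embedding with hΦ
    have hre : ∀ c : F, (Φ Z * (starRingEnd ℂ) (Φ (algebraMap F H c))).re = 0 := by
      intro c
      have h3 := hn (Z + algebraMap F H c)
      rw [smul_add, h2, hF, map_add, map_add, map_neg] at h3
      have h4 : Complex.normSq (-Φ Z + Φ (algebraMap F H c)) =
          Complex.normSq (Φ Z + Φ (algebraMap F H c)) := by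
        rw [Complex.normSq_eq_norm_sq, Complex.normSq_eq_norm_sq, h3]
      simp only [Complex.normSq_apply, Complex.add_re, Complex.add_im, Complex.neg_re,
        Complex.neg_im] at h4
      simp only [Complex.mul_re, Complex.conj_re, Complex.conj_im]
      nlinarith
    have h3 : (Φ Z).re = 0 := by
      have := hre 1
      rw [map_one, map_one, map_one, mul_one] at this
      exact this
    have hΦZ : Φ Z ≠ 0 := by
      rw [Ne, map_eq_zero]
      exact hZ0
    have him : (Φ Z).im ≠ 0 := fun h => hΦZ (Complex.ext h3 h)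
    have hreal : ∀ c : F, (Φ (algebraMap F H c)).im = 0 := by
      intro c
      have h4 := hre c
      simp only [Complex.mul_re, Complex.conj_re, Complex.conj_im, h3] at h4
      have h5 : (Φ Z).im * (Φ (algebraMap F H c)).im = 0 := by linarith
      exact (mul_eq_zero.1 h5).resolve_left him
    have hvr : ComplexEmbedding.IsReal (Φ.comp (algebraMap F H)) := by
      rw [ComplexEmbedding.isReal_iff]
      ext c
      rw [ComplexEmbedding.conjugate_coe_eq]
      exact Complex.conj_eq_iff_im.2 (hreal c)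
    have hmk : InfinitePlace.mk (Φ.comp (algebraMap F H)) = v := by
      rw [← hw, ← InfinitePlace.comap_mk, hΦ, InfinitePlace.mk_embedding]
    have hemb : v.embedding = Φ.comp (algebraMap F H) := by
      rw [← hmk]
      exact InfinitePlace.embedding_mk_eq_of_isReal hvr
    -- the sign
    have hneg : (Φ (algebraMap F H ((a : F) * (a' : F)))).re < 0 := by
      rw [← hZZ, map_mul, Complex.mul_re, h3]
      have : 0 < (Φ Z).im * (Φ Z).im := mul_self_pos.2 him
      linarith
    have hprod : (Φ (algebraMap F H ((a : F) * (a' : F)))).re =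
        (v.embedding (a : F)).re * (v.embedding (a' : F)).re := by
      rw [hemb]
      simp only [map_mul, RingHom.comp_apply, Complex.mul_re, hreal]
      ring
    rw [hprod] at hneg
    have hq' : (0 < (v.embedding (a : F)).re) ↔ (0 < (v.embedding (a' : F)).re) :=
      decide_eq_decide.1 hq
    by_cases h5 : 0 < (v.embedding (a : F)).re
    · have h6 := hq'.1 h5
      have := mul_pos h5 h6
      linarith
    · have h6 : ¬ 0 < (v.embedding (a' : F)).re := fun h => h5 (hq'.2 h)
      push Not at h5 h6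
      have := mul_nonneg_of_nonpos_of_nonpos h5 h6
      linarith

end inf

end Pool.Agent.Helper9.RS
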