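import Pool.Agent.Helper9.RS.Kum

/-!
# Squares modulo powers of a prime ideal
-/

set_option autoImplicit false
set_option linter.unusedSectionVars false

open NumberField IsDedekindDomain Filter Topology
open scoped nonZeroDivisors

noncomputable section

namespace Pool.Agent.Helper9.RS

open Pool.Agent.K3h30.RS Pool.Agent.K3h56.E2 Pool.Agent.K3h92.E2

section local_

variable {F : Type} [Field F] [NumberField F]

/-- the multiplicity of `v` in `2` -/
def ord2 (v : HeightOneSpectrum (𝓞 F)) : ℕ := multiplicity v.asIdeal (Ideal.span {(2 : 𝓞 F)})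

theorem two_span_ne : Ideal.span {(2 : 𝓞 F)} ≠ 0 := by
  rw [Ne, Ideal.zero_eq_bot, Ideal.span_singleton_eq_bot]
  exact two_ne_zero

theorem emult_two (v : HeightOneSpectrum (𝓞 F)) :
    emultiplicity v.asIdeal (Ideal.span {(2 : 𝓞 F)}) = (ord2 v : ℕ∞) :=
  (FiniteMultiplicity.of_prime_left v.prime two_span_ne).emultiplicity_eq_multiplicity

theorem two_dvd (v : HeightOneSpectrum (𝓞 F)) :
    v.asIdeal ^ (ord2 v) ∣ Ideal.span {(2 : 𝓞 F)} := by
  rw [pow_dvd_iff_le_emultiplicity, emult_two]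

theorem two_not_dvd (v : HeightOneSpectrum (𝓞 F)) :
    ¬ v.asIdeal ^ (ord2 v + 1) ∣ Ideal.span {(2 : 𝓞 F)} := by
  rw [pow_dvd_iff_le_emultiplicity, emult_two]
  norm_cast
  omega

/-- the valuation of `2` -/
theorem val_two (v : HeightOneSpectrum (𝓞 F)) {x : 𝓞 F} (hx : x ∈ v.asIdeal ^ (2 * ord2 v + 1)) :
    v.valuation F (x : F) < v.valuation F 2 * v.valuation F 2 := by
  have h0 : v.valuation F (2 : F) = v.intValuation (2 : 𝓞 F) := by
    have h5 : algebraMap (𝓞 F) F 2 = 2 := map_ofNat _ _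
    rw [← h5, v.valuation_of_algebraMap (K := F) (2 : 𝓞 F)]
  have h1 : v.valuation F (x : F) = v.intValuation x := v.valuation_of_algebraMap (K := F) x
  have h2 := (v.intValuation_le_pow_iff_mem x _).2 hx
  have h3 : ¬ v.intValuation (2 : 𝓞 F) ≤ WithZero.exp (-((ord2 v + 1 : ℕ) : ℤ)) := fun h =>
    two_not_dvd v ((v.intValuation_le_pow_iff_dvd _ _).1 h)
  have h4 : v.intValuation (2 : 𝓞 F) ≠ 0 := v.intValuation_ne_zero _ two_ne_zero
  obtain ⟨k, hk⟩ := WithZero.ne_zero_iff_exists.1 h4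
  have hk' : v.intValuation (2 : 𝓞 F) = WithZero.exp (Multiplicative.toAdd k) := hk.symm
  rw [hk', WithZero.exp_le_exp] at h3
  rw [h0, h1, hk', ← WithZero.exp_add]
  refine lt_of_le_of_lt h2 (WithZero.exp_lt_exp.2 ?_)
  push_cast at h3 ⊢
  omega

/-- every element of `F^*` is, modulo squares, a unit at `v` or a uniformizer times a unit -/
theorem exists_norm_form (v : HeightOneSpectrum (𝓞 F)) : ∃ π : Fˣ, ∀ a : Fˣ,
    ∃ (i : Bool) (κ : Fˣ) (s : 𝓞 F), s ∉ v.asIdeal ∧
      (a : F) * (if i then (π : F) else 1) * ((κ : F) * (κ : F)) = (s : F) := by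
  obtain ⟨π, hπ⟩ := v.valuation_exists_uniformizer F
  have hπ0 : π ≠ 0 := by
    rintro rfl
    rw [map_zero] at hπ
    exact WithZero.exp_ne_zero hπ.symm
  refine ⟨Units.mk0 π hπ0, fun a => ?_⟩
  have ha0 : v.valuation F (a : F) ≠ 0 := by
    rw [Ne, map_eq_zero]
    exact a.ne_zero
  obtain ⟨m, hm⟩ := WithZero.ne_zero_iff_exists.1 ha0
  have hm' : v.valuation F (a : F) = WithZero.exp (Multiplicative.toAdd m) := hm.symm
  -- an element of valuation one
  obtain ⟨i, k, hik⟩ : ∃ (i : Bool) (k : ℤ), v.valuation F ((a : F) * (if i then π else 1) *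
      (π ^ k * π ^ k)) = 1 := by
    rcases Int.even_or_odd' (Multiplicative.toAdd m) with ⟨k, hk | hk⟩
    · refine ⟨false, k, ?_⟩
      rw [map_mul, map_mul, map_mul, map_zpow₀, hm', hπ, hk]
      simp only [Bool.false_eq_true, if_false, map_one, mul_one]
      rw [← WithZero.exp_zsmul, ← WithZero.exp_add, ← WithZero.exp_add, ← WithZero.exp_zero]
      congr 1
      simp only [smul_eq_mul]
      ring
    · refine ⟨true, k, ?_⟩
      rw [map_mul, map_mul, map_mul, map_zpow₀, hm', hk]
      simp only [if_true]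
      rw [hπ, ← WithZero.exp_zsmul, ← WithZero.exp_add, ← WithZero.exp_add, ← WithZero.exp_add,
        ← WithZero.exp_zero]
      congr 1
      simp only [smul_eq_mul]
      ring
  -- the numerator and the denominator
  obtain ⟨n, d, hd, hnd⟩ := IsFractionRing.div_surjective (A := 𝓞 F)
    ((a : F) * (if i then π else 1) * (π ^ k * π ^ k))
  have hd' : d ≠ 0 := nonZeroDivisors.ne_zero hd
  have hdF : algebraMap (𝓞 F) F d ≠ 0 := fun h => hd' (RingOfIntegers.ext h)
  have hn0 : n ≠ 0 := by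
    rintro rfl
    rw [map_zero, zero_div] at hnd
    rw [← hnd, map_zero] at hik
    exact zero_ne_one hik
  have hval : v.intValuation n = v.intValuation d := by
    rw [← hnd, map_div₀, v.valuation_of_algebraMap, v.valuation_of_algebraMap] at hik
    exact (div_eq_one_iff_eq (v.intValuation_ne_zero d hd')).1 hik
  obtain ⟨b, b', hb, hb', hbb⟩ := exists_isB ({v}ᶜ : Set (HeightOneSpectrum (𝓞 F))) hn0 hd'
    (fun P hP => by
      have : P = v := by
        by_contra hne
        exact hP hne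
      rw [this]
      exact hval)
  have hvb : ¬ v.asIdeal ∣ b := fun h => hb.2 v h rfl
  rw [Ideal.dvd_iff_le, SetLike.not_le_iff_exists] at hvb
  obtain ⟨β, hβ, hβv⟩ := hvb
  have h1 : n * β ∈ Ideal.span {d} * b' := by
    rw [← hbb]
    exact Ideal.mul_mem_mul (Ideal.mem_span_singleton_self n) hβ
  obtain ⟨z, -, hz⟩ := Ideal.mem_span_singleton_mul.1 h1
  have hβF : (β : F) ≠ 0 := by
    intro h
    apply hβv
    rw [show β = 0 from RingOfIntegers.ext h]
    exact Ideal.zero_mem _
  have hzF : (n : F) * (β : F) = (d : F) * (z : F) := by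
    have := congrArg (fun t : 𝓞 F => (t : F)) hz
    exact this.symm
  have hzv : z ∉ v.asIdeal := by
    intro h
    have h2 : v.intValuation z < 1 := (v.intValuation_lt_one_iff_mem z).2 h
    have h3 : v.intValuation β = 1 := by
      refine le_antisymm (v.intValuation_le_one β) (not_lt.1 fun h6 => hβv ?_)
      exact (v.intValuation_lt_one_iff_mem β).1 h6
    have h4 : v.intValuation d * v.intValuation z = v.intValuation n * v.intValuation β := by
      rw [← map_mul, ← map_mul, hz]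
    rw [h3, mul_one, hval] at h4
    have h5 := mul_left_cancel₀ (v.intValuation_ne_zero d hd') (h4.trans (mul_one _).symm)
    rw [h5] at h2
    exact lt_irrefl _ h2
  refine ⟨i, Units.mk0 (π ^ k * (β : F)) (mul_ne_zero (zpow_ne_zero _ hπ0) hβF), z * β, ?_, ?_⟩
  · intro h
    rcases v.isPrime.mem_or_mem h with h2 | h2
    · exact hzv h2
    · exact hβv h2
  · rw [Units.val_mk0, Units.val_mk0]
    have h6 : (a : F) * (if i then π else 1) * (π ^ k * (β : F) * (π ^ k * (β : F))) =
        ((a : F) * (if i then π else 1) * (π ^ k * π ^ k)) * ((β : F) * (β : F)) := by ring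
    rw [h6, ← hnd]
    show (n : F) / (d : F) * ((β : F) * (β : F)) = (z : F) * (β : F)
    have hdF' : (d : F) ≠ 0 := hdF
    field_simp
    linear_combination hzF

/-- the residue ring -/
abbrev RR (v : HeightOneSpectrum (𝓞 F)) : Type := 𝓞 F ⧸ (v.asIdeal ^ (2 * ord2 v + 1))

instance finite_RR (v : HeightOneSpectrum (𝓞 F)) : Finite (RR v) :=
  Ideal.finiteQuotientOfFreeOfNeBot _ (pow_ne_zero _ v.ne_bot)

theorem isUnit_mk {v : HeightOneSpectrum (𝓞 F)} {s : 𝓞 F} (hs : s ∉ v.asIdeal) :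
    IsUnit (Ideal.Quotient.mk (v.asIdeal ^ (2 * ord2 v + 1)) s) := by
  obtain ⟨t, i, hi, ht⟩ := (v.isMaximal).exists_inv hs
  have h1 : IsNilpotent (Ideal.Quotient.mk (v.asIdeal ^ (2 * ord2 v + 1)) i) :=
    ⟨2 * ord2 v + 1, by
      rw [← map_pow, Ideal.Quotient.eq_zero_iff_mem]
      exact Ideal.pow_mem_pow hi _⟩
  have h2 := h1.isUnit_one_sub
  have h3 : 1 - Ideal.Quotient.mk (v.asIdeal ^ (2 * ord2 v + 1)) i =
      Ideal.Quotient.mk (v.asIdeal ^ (2 * ord2 v + 1)) t *
        Ideal.Quotient.mk (v.asIdeal ^ (2 * ord2 v + 1)) s := by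
    rw [← map_mul, ← map_one (Ideal.Quotient.mk (v.asIdeal ^ (2 * ord2 v + 1))), ← ht, map_add,
      add_sub_cancel_right]
  rw [h3] at h2
  exact isUnit_of_mul_isUnit_right h2

theorem not_mem_of_isUnit {v : HeightOneSpectrum (𝓞 F)} {s : 𝓞 F}
    (hs : IsUnit (Ideal.Quotient.mk (v.asIdeal ^ (2 * ord2 v + 1)) s)) : s ∉ v.asIdeal := by
  intro h
  obtain ⟨u, hu⟩ := hs
  obtain ⟨t, ht⟩ := Ideal.Quotient.mk_surjective (((u⁻¹ : (RR v)ˣ) : RR v))
  have h1 : Ideal.Quotient.mk (v.asIdeal ^ (2 * ord2 v + 1)) (s * t - 1) = 0 := by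
    rw [map_sub, map_mul, ← hu, ht, map_one, Units.mul_inv, sub_self]
  rw [Ideal.Quotient.eq_zero_iff_mem] at h1
  have h2 : s * t - 1 ∈ v.asIdeal := Ideal.pow_le_self (by omega) h1
  have h3 : (1 : 𝓞 F) ∈ v.asIdeal := by
    have h4 := Ideal.sub_mem _ (Ideal.mul_mem_right t _ h) h2
    rwa [sub_sub_cancel] at h4
  exact v.isPrime.ne_top ((Ideal.eq_top_iff_one _).2 h3)

/-- the square roots of one in the residue ring -/
theorem card_sqrt_le (v : HeightOneSpectrum (𝓞 F)) :
    Nat.card (powMonoidHom 2 : (RR v)ˣ →* (RR v)ˣ).ker ≤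
      2 * Ideal.absNorm v.asIdeal ^ ord2 v := by
  classical
  set I : Ideal (𝓞 F) := v.asIdeal ^ (2 * ord2 v + 1) with hI
  set J : Ideal (𝓞 F) := v.asIdeal ^ (ord2 v + 1) with hJ
  have hIJ : I ≤ J := Ideal.pow_le_pow_right (by omega)
  have hN : 0 < Ideal.absNorm v.asIdeal := by
    refine Nat.pos_of_ne_zero ?_
    rw [Ne, Ideal.absNorm_eq_zero_iff]
    exact v.ne_bot
  have hV : Nat.card (Submodule.map (Submodule.mkQ I) J) = Ideal.absNorm v.asIdeal ^ ord2 v := by
    have h1 := Submodule.card_quotient_mul_card_quotient J I hIJ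
    have h2 : Nat.card (𝓞 F ⧸ J) = Ideal.absNorm v.asIdeal ^ (ord2 v + 1) := by
      rw [← Submodule.cardQuot_apply, ← Ideal.absNorm_apply, hJ, map_pow]
    have h3 : Nat.card (𝓞 F ⧸ I) = Ideal.absNorm v.asIdeal ^ (2 * ord2 v + 1) := by
      rw [← Submodule.cardQuot_apply, ← Ideal.absNorm_apply, hI, map_pow]
    rw [h2, h3] at h1
    have h4 : Ideal.absNorm v.asIdeal ^ (2 * ord2 v + 1) =
        Ideal.absNorm v.asIdeal ^ ord2 v * Ideal.absNorm v.asIdeal ^ (ord2 v + 1) := by
      rw [← pow_add]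
      congr 1
      ring
    rw [h4] at h1
    exact Nat.eq_of_mul_eq_mul_right (pow_pos hN _) h1
  have hkey : ∀ u : (powMonoidHom 2 : (RR v)ˣ →* (RR v)ˣ).ker,
      ((u : (RR v)ˣ) : RR v) - 1 ∈ Submodule.map (Submodule.mkQ I) J ∨
      ((u : (RR v)ˣ) : RR v) + 1 ∈ Submodule.map (Submodule.mkQ I) J := by
    rintro ⟨u, hu⟩
    obtain ⟨x, hx⟩ := Ideal.Quotient.mk_surjective (u : RR v)
    have h1 : (u : RR v) * (u : RR v) = 1 := by
      have h2 : u ^ 2 = 1 := hu
      rw [pow_two] at h2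
      rw [← Units.val_mul, h2, Units.val_one]
    have h2 : (x - 1) * (x + 1) ∈ I := by
      rw [← Ideal.Quotient.eq_zero_iff_mem, map_mul, map_sub, map_add, map_one, hx]
      linear_combination h1
    have h3 : x - 1 ∈ J ∨ x + 1 ∈ J := by
      by_contra hcon
      push Not at hcon
      obtain ⟨h4, h5⟩ := hcon
      have key : ∀ z : 𝓞 F, z ∉ J → emultiplicity v.asIdeal (Ideal.span {z}) ≤ (ord2 v : ℕ∞) := by
        intro z hz
        by_contra hcon
        rw [not_le] at hcon
        apply hz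
        have h6 : ((ord2 v + 1 : ℕ) : ℕ∞) ≤ emultiplicity v.asIdeal (Ideal.span {z}) := by
          rw [Nat.cast_add, Nat.cast_one]
          exact Order.add_one_le_of_lt hcon
        rw [← pow_dvd_iff_le_emultiplicity] at h6
        exact (Ideal.dvd_span_singleton).1 h6
      have h6 : v.asIdeal ^ (2 * ord2 v + 1) ∣ Ideal.span {(x - 1) * (x + 1)} :=
        Ideal.dvd_span_singleton.2 h2
      rw [pow_dvd_iff_le_emultiplicity, ← Ideal.span_singleton_mul_span_singleton,
        emultiplicity_mul v.prime] at h6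
      have h7 := h6.trans (add_le_add (key _ h4) (key _ h5))
      norm_cast at h7
      omega
    rcases h3 with h4 | h4
    · left
      refine ⟨x - 1, h4, ?_⟩
      show Ideal.Quotient.mk I (x - 1) = _
      rw [map_sub, map_one, hx]
    · right
      refine ⟨x + 1, h4, ?_⟩
      show Ideal.Quotient.mk I (x + 1) = _
      rw [map_add, map_one, hx]
  let f : (powMonoidHom 2 : (RR v)ˣ →* (RR v)ˣ).ker → Bool × (Submodule.map (Submodule.mkQ I) J) :=
    fun u => if h : ((u : (RR v)ˣ) : RR v) - 1 ∈ Submodule.map (Submodule.mkQ I) J then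
      (true, ⟨_, h⟩) else (false, ⟨_, (hkey u).resolve_left h⟩)
  have hf : Function.Injective f := by
    intro u u' h
    simp only [f] at h
    split_ifs at h with h1 h2 h2
    · have h3 := congrArg (fun z => ((z.2 : Submodule.map (Submodule.mkQ I) J) : RR v)) h
      have h4 : ((u : (RR v)ˣ) : RR v) - 1 = ((u' : (RR v)ˣ) : RR v) - 1 := h3
      exact Subtype.ext (Units.ext (sub_left_injective h4))
    · exact absurd (congrArg Prod.fst h) (by simp)
    · exact absurd (congrArg Prod.fst h) (by simp)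
    · have h3 := congrArg (fun z => ((z.2 : Submodule.map (Submodule.mkQ I) J) : RR v)) h
      have h4 : ((u : (RR v)ˣ) : RR v) + 1 = ((u' : (RR v)ˣ) : RR v) + 1 := h3
      exact Subtype.ext (Units.ext (add_left_injective 1 h4))
  have hfin : Finite (Submodule.map (Submodule.mkQ I) J) :=
    Finite.of_injective (fun z => ((z : Submodule.map (Submodule.mkQ I) J) : RR v))
      Subtype.val_injective
  refine (Nat.card_le_card_of_injective f hf).trans ?_
  rw [Nat.card_prod, hV]
  simp

end local_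

end Pool.Agent.Helper9.RS
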