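import Pool.Agent.Helper9.RS.Kum2

/-!
# The orders of the decomposition groups
-/

set_option autoImplicit false
set_option linter.unusedSectionVars false

open NumberField IsDedekindDomain Filter Topology
open scoped nonZeroDivisors

noncomputable section

namespace Pool.Agent.Helper9.RS

open Pool.Agent.K3h30.RS Pool.Agent.K3h56.E2 Pool.Agent.K3h92.E2

variable {F H G : Type} [Field F] [NumberField F] [Field H] [NumberField H]
  [Algebra F H] [CommGroup G] [Finite G] [MulSemiringAction G H]

/-- the decomposition group and the valuation -/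
theorem fixes_val {w : HeightOneSpectrum (𝓞 H)} {γ : G} (h : Fixes (Sum.inr w : Place H) γ)
    (x : H) : w.valuation H (γ • x) = w.valuation H x := by
  have h1 : HeightOneSpectrum.adicAbv H w (γ • x) = HeightOneSpectrum.adicAbv H w x := h x
  rw [HeightOneSpectrum.adicAbv_def, HeightOneSpectrum.adicAbv_def] at h1
  exact (WithZeroMulInt.toNNReal_strictMono
    (HeightOneSpectrum.one_lt_absNorm_nnreal w)).injective (NNReal.coe_injective h1)

/-- an element which is a square modulo `4 v` gives an extension where `v` splits -/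
theorem fix_of_square [SMulCommClass G F H] {v : HeightOneSpectrum (𝓞 F)}
    {w : HeightOneSpectrum (𝓞 H)} (hw : Above {v} w) {γ : G}
    (hγ : Fixes (Sum.inr w : Place H) γ) {Z : H} {α : F} {β : 𝓞 F} (hβ : β ∉ v.asIdeal)
    (hZ : Z * Z = algebraMap F H α)
    (hα : v.valuation F (α - (β : F) * (β : F)) < v.valuation F 2 * v.valuation F 2) :
    γ • Z = Z := by
  have hF : ∀ x : F, γ • algebraMap F H x = algebraMap F H x := fun x => smul_algebraMap γ x
  have h1 : γ • Z * γ • Z = Z * Z := by
    rw [← smul_mul', hZ, hF]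
  rcases mul_self_eq_mul_self_iff.1 h1 with h2 | h2
  · exact h2
  exfalso
  obtain ⟨v', hv', hP⟩ := hw
  rw [Set.mem_singleton_iff] at hv'
  subst hv'
  have hlies : w.asIdeal.LiesOver v'.asIdeal := ⟨hP.symm⟩
  have hval := fun x : F => HeightOneSpectrum.valuation_liesOver H v' w x
  have he : v'.asIdeal.ramificationIdx' w.asIdeal ≠ 0 :=
    Ideal.IsDedekindDomain.ramificationIdx'_ne_zero_of_liesOver w.asIdeal v'.ne_bot
  set e := v'.asIdeal.ramificationIdx' w.asIdeal with hedef
  set B : H := algebraMap F H (β : F) with hB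
  have hZB : (Z - B) * (Z + B) = algebraMap F H (α - (β : F) * (β : F)) := by
    rw [map_sub, map_mul, ← hZ]
    ring
  have hlt : w.valuation H (Z - B) * w.valuation H (Z + B) <
      w.valuation H 2 * w.valuation H 2 := by
    have h20 : algebraMap F H 2 = 2 := map_ofNat _ _
    rw [← map_mul, hZB, ← hval, ← h20, ← hval, ← mul_pow]
    exact pow_lt_pow_left₀ hα zero_le' he
  have heq : w.valuation H (Z - B) = w.valuation H (Z + B) := by
    have h3 := fixes_val hγ (Z - B)
    rw [smul_sub, h2, hF] at h3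
    rw [← h3, ← Valuation.map_neg]
    congr 1
    ring
  have hm : w.valuation H (Z - B) < w.valuation H 2 := by
    rw [← heq] at hlt
    by_contra hcon
    rw [not_lt] at hcon
    exact absurd hlt (not_lt.2 (mul_le_mul' hcon hcon))
  have hB1 : w.valuation H B = 1 := by
    rw [hB, ← hval]
    have h3 : v'.valuation F (β : F) = v'.intValuation β := v'.valuation_of_algebraMap (K := F) β
    have h4 : v'.intValuation β = 1 := by
      refine le_antisymm (v'.intValuation_le_one β) (not_lt.1 fun h6 => hβ ?_)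
      exact (v'.intValuation_lt_one_iff_mem β).1 h6
    rw [h3, h4, one_pow]
  have h2B : w.valuation H (2 * B) < w.valuation H 2 := by
    have h3 : 2 * B = (Z + B) - (Z - B) := by ring
    rw [h3]
    refine lt_of_le_of_lt (Valuation.map_sub _ _ _) (max_lt ?_ hm)
    rw [← heq]
    exact hm
  rw [map_mul, hB1, mul_one] at h2B
  exact lt_irrefl _ h2B

/-- the decomposition groups of the prime ideals -/
theorem card_fin_le [IsGaloisGroup G F H] (hG : ∀ g : G, g * g = 1)
    (v : HeightOneSpectrum (𝓞 F)) :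
    Nat.card (decAt G H (Sum.inr v : Place F)) ≤ 4 * Ideal.absNorm v.asIdeal ^ ord2 v := by
  classical
  obtain ⟨π, hπ⟩ := exists_norm_form v
  choose i κ s hs hform using hπ
  set I : Ideal (𝓞 F) := v.asIdeal ^ (2 * ord2 v + 1) with hI
  let Q : Type := Bool × ((RR v)ˣ ⧸ (powMonoidHom 2 : (RR v)ˣ →* (RR v)ˣ).range)
  have hQ : Nat.card Q ≤ 4 * Ideal.absNorm v.asIdeal ^ ord2 v := by
    have h1 : Nat.card ((RR v)ˣ ⧸ (powMonoidHom 2 : (RR v)ˣ →* (RR v)ˣ).range) =
        Nat.card (powMonoidHom 2 : (RR v)ˣ →* (RR v)ˣ).ker := by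
      rw [← Subgroup.index_range]
      rfl
    rw [Nat.card_prod, h1]
    have h2 := card_sqrt_le v
    have h3 : Nat.card Bool = 2 := by simp
    rw [h3]
    calc 2 * Nat.card (powMonoidHom 2 : (RR v)ˣ →* (RR v)ˣ).ker ≤
          2 * (2 * Ideal.absNorm v.asIdeal ^ ord2 v) := Nat.mul_le_mul_left 2 h2
      _ = _ := by ring
  refine le_trans ?_ hQ
  let q : Fˣ → Q := fun a => (i a, QuotientGroup.mk (isUnit_mk (hs a)).unit)
  have hcomm : SMulCommClass G F H := (inferInstance : IsGaloisGroup G F H).commutes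
  refine card_le_of_inv (F := F) (H := H) hG _ q ?_
  intro a a' y y' hy hy' hq
  refine closure_fix _ ?_
  rintro γ ⟨w, hb, hγ⟩
  rcases w with w | w
  · exact absurd hb (by simp [Below])
  have hw : Above {v} w := hb
  have hF : ∀ x : F, γ • algebraMap F H x = algebraMap F H x := fun x => smul_algebraMap γ x
  have hi : i a = i a' := congrArg Prod.fst hq
  have hcl : (QuotientGroup.mk (isUnit_mk (hs a)).unit : (RR v)ˣ ⧸ (powMonoidHom 2 : (RR v)ˣ →* (RR v)ˣ).range) =
      QuotientGroup.mk (isUnit_mk (hs a')).unit := congrArg Prod.snd hq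
  rw [QuotientGroup.eq] at hcl
  obtain ⟨ρ, hρ⟩ := hcl
  have hρ' : ρ ^ 2 = (isUnit_mk (hs a)).unit⁻¹ * (isUnit_mk (hs a')).unit := hρ
  -- the square
  have h1 : ((isUnit_mk (hs a)).unit * ρ) ^ 2 =
      (isUnit_mk (hs a)).unit * (isUnit_mk (hs a')).unit := by
    rw [mul_pow, hρ', pow_two]
    group
  obtain ⟨β, hβ⟩ := Ideal.Quotient.mk_surjective
    ((((isUnit_mk (hs a)).unit * ρ : (RR v)ˣ)) : RR v)
  have hβu : β ∉ v.asIdeal := not_mem_of_isUnit (by rw [hβ]; exact Units.isUnit _)
  have h2 : s a * s a' - β * β ∈ I := by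
    rw [← Ideal.Quotient.eq_zero_iff_mem, map_sub, map_mul, map_mul, hβ]
    have h3 := congrArg (fun z : (RR v)ˣ => (z : RR v)) h1
    simp only [pow_two, Units.val_mul, IsUnit.unit_spec] at h3 ⊢
    rw [h3, sub_self]
  -- the product
  set c : F := (if i a then (π : F) else 1) * ((κ a : F) * (κ a' : F)) with hc
  have hc0 : c ≠ 0 := by
    rw [hc]
    refine mul_ne_zero ?_ (mul_ne_zero (κ a).ne_zero (κ a').ne_zero)
    split_ifs
    · exact π.ne_zero
    · exact one_ne_zero
  have hcH : algebraMap F H c ≠ 0 := by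
    rw [Ne, map_eq_zero]
    exact hc0
  have hZ : ((y : H) * (y' : H) * algebraMap F H c) * ((y : H) * (y' : H) * algebraMap F H c) =
      algebraMap F H ((s a : F) * (s a' : F)) := by
    rw [← hform a, ← hform a', ← hi]
    calc _ = ((y : H) * (y : H)) * ((y' : H) * (y' : H)) *
          (algebraMap F H c * algebraMap F H c) := by ring
      _ = _ := by
        rw [hy, hy', ← map_mul, ← map_mul, ← map_mul, hc]
        congr 1
        ring
  have h3 := fix_of_square hw hγ hβu hZ (by
    have h4 := val_two v h2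
    have h5 : ((s a * s a' - β * β : 𝓞 F) : F) = (s a : F) * (s a' : F) - (β : F) * (β : F) := rfl
    rw [h5] at h4
    exact h4)
  rw [smul_mul', hF] at h3
  exact mul_right_cancel₀ hcH h3

end Pool.Agent.Helper9.RS
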