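import Pool.Agent.Helper9.RS.Zeta1
import Pool.Agent.Helper9.RS.Exp2
import Pool.Graph.R_pool_sql_team_seeded_5cf16337.K3h11.E2.LimX
import Pool.Graph.R_pool_sql_team_seeded_5cf16337.K3h66.E2.LimX
import Pool.Graph.R_pool_sql_team_seeded_5cf16337.K3h13.E2.DetIdx
import Pool.Graph.R_pool_sql_team_seeded_5cf16337.K3h17.E2.Rank
import Pool.Graph.R_pool_sql_team_seeded_5cf16337.K3h23.E2.Gt
import Pool.Graph.R_pool_sql_team_seeded_5cf16337.K3h25.E2.Loc
import Pool.Graph.R_pool_sql_team_seeded_5cf16337.K3h3.E2.KH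
import Pool.Graph.R_pool_sql_team_seeded_5cf16337.K3h36.E2x.FACT
import Pool.Graph.R_pool_sql_team_seeded_5cf16337.K3h4.E2.Fund
import Pool.Graph.R_pool_sql_team_seeded_5cf16337.K3h40.E2.Sind
import Pool.Graph.R_pool_sql_team_seeded_5cf16337.K3h41.E2.Dict
import Pool.Graph.R_pool_sql_team_seeded_5cf16337.K3h50.E2.Inf
import Pool.Graph.R_pool_sql_team_seeded_5cf16337.K3h57.E2.Tpart
import Pool.Graph.R_pool_sql_team_seeded_5cf16337.K3h60.E2.Basis
import Pool.Graph.R_pool_sql_team_seeded_5cf16337.K3h64.E2.VAL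
import Pool.Graph.R_pool_sql_team_seeded_5cf16337.K3h72.E2.Finw
import Pool.Graph.R_pool_sql_team_seeded_5cf16337.K3h72.E2.Frob
import Pool.Graph.R_pool_sql_team_seeded_5cf16337.K3h73.E2.Places
import Pool.Graph.R_pool_sql_team_seeded_5cf16337.K3h77.E2.Minus
import Pool.Graph.R_pool_sql_team_seeded_5cf16337.K3h92.E2.Cls
import Pool.Graph.R_pool_sql_team_seeded_5cf16337.K3h93.E2.ZProd

/-!
# Rubin's conjecture for groups of exponent two
-/

set_option autoImplicit false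

open NumberField IsDedekindDomain Filter Topology

noncomputable section

namespace Pool.Agent.Helper9.RS

open Pool.Agent.K3h30.RS Pool.Agent.K3h56.E2

theorem sind : S_SIND := Pool.Agent.K3h40.E2.t_SIND Pool.Agent.K3h64.E2.t_VAL Pool.Agent.K3h13.E2.t_DETIDX

theorem minus' : S_MINUS :=
  Pool.Agent.K3h77.E2.t_MINUS zeta0x (Pool.Agent.K3h93.E2.t_ZPROD Pool.Agent.K3h25.E2.t_LOC)
    Pool.Agent.K3h25.E2.t_LOC Pool.Agent.K3h11.E2.t_LIMX sind
    (Pool.Agent.K3h4.E2.t_FUND Pool.Agent.K3h64.E2.t_VAL) Pool.Agent.K3h36.E2x.t_FACT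
    Pool.Agent.K3h23.E2.t_GT Pool.Agent.K3h17.E2.t_RANK Pool.Agent.K3h92.E2.t_CLS

/-- the statements for the characters -/
theorem charR {F H G : Type} [Field F] [NumberField F] [Field H] [NumberField H]
    [Algebra F H] [CommGroup G] [Finite G] [MulSemiringAction G H] [IsGaloisGroup G F H]
    (D : RubinData F H G) (T : Finset (HeightOneSpectrum (𝓞 F))) (hT : D.Allowed T)
    (hG : ∀ g : G, g * g = 1) (e : ℕ)
    (hdvd : Nat.card G ∣ 2 ^ (e + ((Fintype.card (InfinitePlace F) + D.S.card - (D.r + 1)) +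
      (oddCard T - (D.r + 1))))) (χ : G →* ℂˣ) : CharR D T (2 ^ e) χ := by
  by_cases hχ : χ = 1
  · subst hχ
    exact one2 zeta0x Pool.Agent.K3h66.E2.t_LIM1X sind Pool.Agent.K3h57.E2.t_TPART
      Pool.Agent.K3h60.E2.t_BASIS Pool.Agent.K3h17.E2.t_RANK1 Pool.Agent.K3h3.E2.t_KH1
      Pool.Agent.K3h3.E2.t_AVK Pool.Agent.K3h73.E2.t_PLACES D T hT hG e hdvd
  · exact chi2 zeta0x (Pool.Agent.K3h93.E2.t_ZPROD Pool.Agent.K3h25.E2.t_LOC)
      Pool.Agent.K3h25.E2.t_LOC Pool.Agent.K3h11.E2.t_LIMX Pool.Agent.K3h41.E2.t_DICT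
      (Pool.Agent.K3h72.E2.t_FROB Pool.Agent.K3h25.E2.t_LOC)
      (Pool.Agent.K3h72.E2.t_FINW Pool.Agent.K3h25.E2.t_LOC) Pool.Agent.K3h50.E2.t_INFW
      Pool.Agent.K3h50.E2.t_COUNT Pool.Agent.K3h73.E2.t_PLACES minus'
      Pool.Agent.K3h17.E2.t_RANK Pool.Agent.K3h3.E2.t_KH Pool.Agent.K3h3.E2.t_AVK
      Pool.Agent.K3h60.E2.t_BASIS Pool.Agent.K3h57.E2.t_TPART D T hT hG e hdvd χ hχ

end Pool.Agent.Helper9.RS
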