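import Pool.Agent.Helper9.RS.Exp3
import Pool.Agent.Helper9.RS.Main

/-!
# The condition on the decomposition groups
-/

set_option autoImplicit false
set_option linter.unusedSectionVars false

open NumberField IsDedekindDomain Filter Topology

noncomputable section

namespace Pool.Agent.Helper9.RS

open Pool.Agent.K3h30.RS Pool.Agent.K3h56.E2

/-- the statements for the characters -/
theorem charRX {F H G : Type} [Field F] [NumberField F] [Field H] [NumberField H]
    [Algebra F H] [CommGroup G] [Finite G] [MulSemiringAction G H] [IsGaloisGroup G F H]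
    (D : RubinData F H G) (T : Finset (HeightOneSpectrum (𝓞 F))) (hT : D.Allowed T)
    (hG : ∀ g : G, g * g = 1) (e : ℕ) (χ : G →* ℂˣ)
    (hdvd : D.Active χ → χ.ker.index * Nat.card (decK D χ) ∣
      2 ^ (e + ((Fintype.card (InfinitePlace F) + D.S.card - (D.r + 1)) +
      (oddCard T - (D.r + 1))))) : CharR D T (2 ^ e) χ := by
  by_cases hχ : χ = 1
  · subst hχ
    exact one2X zeta0x Pool.Agent.K3h66.E2.t_LIM1X sind Pool.Agent.K3h57.E2.t_TPART
      Pool.Agent.K3h60.E2.t_BASIS Pool.Agent.K3h17.E2.t_RANK1 Pool.Agent.K3h3.E2.t_KH1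
      Pool.Agent.K3h3.E2.t_AVK Pool.Agent.K3h73.E2.t_PLACES D T hT hG e hdvd
  · exact chi2X zeta0x (Pool.Agent.K3h93.E2.t_ZPROD Pool.Agent.K3h25.E2.t_LOC)
      Pool.Agent.K3h25.E2.t_LOC Pool.Agent.K3h11.E2.t_LIMX Pool.Agent.K3h41.E2.t_DICT
      (Pool.Agent.K3h72.E2.t_FROB Pool.Agent.K3h25.E2.t_LOC)
      (Pool.Agent.K3h72.E2.t_FINW Pool.Agent.K3h25.E2.t_LOC) Pool.Agent.K3h50.E2.t_INFW
      Pool.Agent.K3h50.E2.t_COUNT Pool.Agent.K3h73.E2.t_PLACES sind
      (Pool.Agent.K3h4.E2.t_FUND Pool.Agent.K3h64.E2.t_VAL) Pool.Agent.K3h36.E2x.t_FACT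
      Pool.Agent.K3h23.E2.t_GT
      Pool.Agent.K3h17.E2.t_RANK Pool.Agent.K3h3.E2.t_KH Pool.Agent.K3h3.E2.t_AVK
      Pool.Agent.K3h60.E2.t_BASIS Pool.Agent.K3h57.E2.t_TPART D T hT hG e χ hχ hdvd

section groups

variable {G : Type} [CommGroup G] [Finite G]

theorem card_mul_relIndex' {A B : Subgroup G} (h : A ≤ B) :
    Nat.card A * A.relIndex B = Nat.card B := by
  have h1 := Subgroup.relIndex_mul_relIndex ⊥ A B bot_le h
  rwa [Subgroup.relIndex_bot_left, Subgroup.relIndex_bot_left] at h1

theorem card_sup_dvd (A B : Subgroup G) : Nat.card (A ⊔ B : Subgroup G) ∣ Nat.card A * Nat.card B := by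
  have h1 : Nat.card (A ⊔ B : Subgroup G) = Nat.card B * B.relIndex (A ⊔ B) :=
    (card_mul_relIndex' le_sup_right).symm
  rw [h1, Subgroup.relIndex_sup_right, mul_comm (Nat.card A)]
  exact mul_dvd_mul_left _ (Subgroup.relIndex_dvd_card B A)

theorem card_iSup_dvd {ι : Type} (P : Finset ι) (A : ι → Subgroup G) :
    Nat.card (⨆ p ∈ P, A p : Subgroup G) ∣ ∏ p ∈ P, Nat.card (A p) := by
  classical
  induction P using Finset.induction_on with
  | empty => simp
  | insert a P ha ih =>
    rw [Finset.iSup_insert, Finset.prod_insert ha]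
    exact (card_sup_dvd _ _).trans (mul_dvd_mul_left _ ih)

theorem card_inf_ker (hG : ∀ g : G, g * g = 1) (χ : G →* ℂˣ) (A : Subgroup G)
    (h : ∃ g ∈ A, χ g ≠ 1) : 2 * Nat.card (A ⊓ χ.ker : Subgroup G) = Nat.card A := by
  have h1 : Nat.card (A ⊓ χ.ker : Subgroup G) * (A ⊓ χ.ker).relIndex A = Nat.card A :=
    card_mul_relIndex' inf_le_left
  have h2 : (A ⊓ χ.ker).relIndex A = 2 := by
    rw [Subgroup.inf_relIndex_left]
    obtain ⟨g, hg, hχ⟩ := h
    rw [Subgroup.relIndex, Subgroup.index_eq_two_iff]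
    have hpm : ∀ x : G, χ x ≠ 1 → χ x = -1 := by
      intro x hx
      have h3 : χ x * χ x = 1 := by rw [← map_mul, hG, map_one]
      rcases pm_of_sq h3 with h4 | h4
      · exact absurd (Units.ext h4) hx
      · exact Units.ext h4
    refine ⟨⟨g, hg⟩, fun b => ?_⟩
    rw [Subgroup.mem_subgroupOf, Subgroup.mem_subgroupOf]
    show Xor (χ ((b : G) * g) = 1) (χ (b : G) = 1)
    rw [map_mul, hpm g hχ]
    by_cases hb : χ (b : G) = 1
    · right
      refine ⟨hb, ?_⟩
      rw [hb, one_mul]
      intro h3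
      exact hχ ((hpm g hχ).trans h3)
    · left
      refine ⟨?_, hb⟩
      rw [hpm _ hb]
      simp
  rw [h2] at h1
  rw [← h1, mul_comm]

end groups

section places

variable {F H G : Type} [Field F] [NumberField F] [Field H] [NumberField H]
  [Algebra F H] [CommGroup G] [Finite G] [MulSemiringAction G H]

/-- The decomposition group of the place `p` of `F`: the subgroup of the commutative group `G`
generated by the decomposition groups of the places `w` of `H` over `p` (which are equal). -/
def decAt (G H : Type) [Field H] [NumberField H] [Algebra F H] [CommGroup G]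
    [MulSemiringAction G H] (p : Place F) : Subgroup G :=
  Subgroup.closure {γ : G | ∃ w : Place H, Below w p ∧ Fixes w γ}

/-- the places in `S` -/
def allS (D : RubinData F H G) : Finset (Place F) := Finset.univ.disjSum D.S

theorem mem_allS (D : RubinData F H G) (p : Place F) : p ∈ allS D ↔ InSF D p := by
  rcases p with p | p
  · simp [allS, InSF]
  · simp [allS, InSF]

theorem decK_le (D : RubinData F H G) (χ : G →* ℂˣ) :
    decK D χ ≤ ⨆ p ∈ allS D, (decAt G H p ⊓ χ.ker) := by
  refine (Subgroup.closure_le _).2 ?_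
  rintro γ ⟨h1, w, hw, hγ⟩
  have key : ∀ p : Place F, p ∈ allS D → Below w p → γ ∈ ⨆ p ∈ allS D, (decAt G H p ⊓ χ.ker) := by
    intro p hp hb
    have h2 : decAt G H p ⊓ χ.ker ≤ ⨆ p ∈ allS D, (decAt G H p ⊓ χ.ker) :=
      le_iSup₂_of_le p hp le_rfl
    exact h2 ⟨Subgroup.subset_closure ⟨w, hb, hγ⟩, h1⟩
  rcases w with w | w
  · exact key (Sum.inl (w.comap (algebraMap F H))) ((mem_allS D _).2 trivial) rfl
  · obtain ⟨v, hv, hvw⟩ := hw
    exact key (Sum.inr v) ((mem_allS D _).2 (Finset.mem_coe.1 hv)) ⟨v, rfl, hvw⟩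

/-- the condition on the product of the local degrees implies the conditions for all characters -/
theorem local_cond [IsGaloisGroup G F H] (D : RubinData F H G) (hG : ∀ g : G, g * g = 1) (E : ℕ)
    (hdvd : ∏ p ∈ allS D, Nat.card (decAt G H p) ∣
      2 ^ (2 * (Fintype.card (InfinitePlace F) + D.S.card - (D.r + 1)) + E)) (χ : G →* ℂˣ)
    (ha : D.Active χ) : χ.ker.index * Nat.card (decK D χ) ∣
      2 ^ ((Fintype.card (InfinitePlace F) + D.S.card - (D.r + 1)) + E) := by
  classical
  obtain ⟨f, hfi, hfl, hfr, hfs, ⟨p1, hp1, hp1'⟩, hact, hact1⟩ :=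
    Pool.Agent.K3h73.E2.t_PLACES F H G D
  have hcard : (allS D).card = Fintype.card (InfinitePlace F) + D.S.card := by
    rw [allS, Finset.card_disjSum, Finset.card_univ]
  have hfS : ∀ a, f a ∈ allS D := by
    intro a
    rw [mem_allS]
    rcases hw : D.w a with w | w
    · rw [hfl a w hw]
      trivial
    · obtain ⟨v, h1, h2, -⟩ := hfr a w hw
      rw [h1]
      exact h2
  have himgc : (Finset.univ.image f).card = D.r := by
    rw [Finset.card_image_of_injective _ hfi, Finset.card_univ, Fintype.card_fin]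
  have hsub : insert p1 (Finset.univ.image f) ⊆ allS D := by
    intro p hp
    rw [Finset.mem_insert] at hp
    rcases hp with rfl | hp
    · exact (mem_allS D _).2 hp1
    · obtain ⟨a, -, rfl⟩ := Finset.mem_image.1 hp
      exact hfS a
  have hr1 : D.r + 1 ≤ Fintype.card (InfinitePlace F) + D.S.card := by
    have h2 := Finset.card_le_card hsub
    rw [Finset.card_insert_of_notMem (by simpa using hp1'), himgc, hcard] at h2
    exact h2
  have hK : Nat.card (decK D χ) ∣ ∏ p ∈ allS D, Nat.card (decAt G H p ⊓ χ.ker : Subgroup G) :=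
    (Subgroup.card_dvd_of_le (decK_le D χ)).trans (card_iSup_dvd _ _)
  by_cases hχ : χ = 1
  · subst hχ
    have huniq : ∀ p, InSF D p → p ≠ p1 → p ∈ Set.range f := by
      intro p hp hne
      by_contra hcon
      exact hne (hact1.1 ha p p1 hp hp1 hcon hp1')
    have hr : D.r + 1 = Fintype.card (InfinitePlace F) + D.S.card := by
      have h1 : insert p1 (Finset.univ.image f) = allS D := by
        refine Finset.Subset.antisymm hsub fun x hx => ?_
        simp only [Finset.mem_insert, Finset.mem_image, Finset.mem_univ, true_and]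
        by_cases hxp : x = p1
        · exact Or.inl hxp
        · exact Or.inr (huniq x ((mem_allS D x).1 hx) hxp)
      have h2 := congrArg Finset.card h1
      rw [Finset.card_insert_of_notMem (by simpa using hp1'), himgc, hcard] at h2
      exact h2
    rw [← hr, Nat.sub_self, zero_add]
    rw [← hr, Nat.sub_self, mul_zero, zero_add] at hdvd
    rw [MonoidHom.ker_one, Subgroup.index_top, one_mul]
    refine hK.trans (dvd_trans ?_ hdvd)
    refine Finset.prod_dvd_prod_of_dvd _ _ fun p _ => ?_
    exact Subgroup.card_dvd_of_le inf_le_left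
  · have hidx : χ.ker.index = 2 := by
      have h1 := card_inf_ker hG χ ⊤ (by
        by_contra hcon
        push Not at hcon
        exact hχ (MonoidHom.ext fun g => hcon g (Subgroup.mem_top g)))
      rw [top_inf_eq, Subgroup.card_top, ← Subgroup.card_mul_index χ.ker, mul_comm] at h1
      exact (Nat.eq_of_mul_eq_mul_left Nat.card_pos h1).symm
    have hloc : ∀ p ∈ allS D \ Finset.univ.image f,
        2 * Nat.card (decAt G H p ⊓ χ.ker : Subgroup G) = Nat.card (decAt G H p) := by
      intro p hp
      rw [Finset.mem_sdiff] at hp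
      refine card_inf_ker hG χ _ ?_
      by_contra hcon
      push Not at hcon
      have h1 : SplAt H χ p := by
        rcases p with p | p
        · intro w hw γ hγ
          exact hcon γ (Subgroup.subset_closure ⟨Sum.inl w, hw, hγ⟩)
        · intro w hw γ hγ
          exact hcon γ (Subgroup.subset_closure ⟨Sum.inr w, hw, hγ⟩)
      have h2 := (hact χ hχ).1 ha p ((mem_allS D p).1 hp.1) h1
      obtain ⟨a, rfl⟩ := h2
      exact hp.2 (Finset.mem_image_of_mem f (Finset.mem_univ a))
    set m := Fintype.card (InfinitePlace F) + D.S.card - (D.r + 1) with hm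
    have hcs : (allS D \ Finset.univ.image f).card = m + 1 := by
      rw [Finset.card_sdiff_of_subset (fun p hp => hsub (Finset.mem_insert_of_mem hp)), himgc,
        hcard]
      omega
    have h1 : 2 ^ (m + 1) * ∏ p ∈ allS D, Nat.card (decAt G H p ⊓ χ.ker : Subgroup G) ∣
        ∏ p ∈ allS D, Nat.card (decAt G H p) := by
      have hs : Finset.univ.image f ⊆ allS D := fun p hp => hsub (Finset.mem_insert_of_mem hp)
      rw [← Finset.prod_sdiff hs, ← Finset.prod_sdiff hs, ← mul_assoc, ← hcs,
        ← Finset.prod_const, ← Finset.prod_mul_distrib]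
      refine mul_dvd_mul ?_ ?_
      · exact (Finset.prod_congr rfl hloc).dvd
      · exact Finset.prod_dvd_prod_of_dvd _ _ fun p _ => Subgroup.card_dvd_of_le inf_le_left
    have h2 : 2 ^ m * (2 * Nat.card (decK D χ)) ∣ 2 ^ m * 2 ^ (m + E) := by
      refine dvd_trans ?_ ((h1.trans hdvd).trans (dvd_of_eq ?_))
      · rw [← mul_assoc, ← pow_succ]
        exact mul_dvd_mul_left _ hK
      · rw [← pow_add]
        congr 1
        ring
    rw [hidx]
    exact Nat.dvd_of_mul_dvd_mul_left (by positivity) h2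

end places

end Pool.Agent.Helper9.RS
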