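import Pool.Agent.Helper9.RS.Geo2
import Pool.Agent.Helper9.RS.Exp2
import Pool.Graph.R_pool_sql_team_seeded_5cf16337.K3h77.E2.Minus

/-!
# `MINUS` with an additional factor
The proof is that of `K3h77.E2.t_MINUS`.
-/

set_option autoImplicit false
set_option linter.unusedSectionVars false

open NumberField IsDedekindDomain Filter Topology

noncomputable section

namespace Pool.Agent.Helper9.RS

open Pool.Agent.K3h30.RS Pool.Agent.K3h56.E2 Pool.Agent.K3h77.E2

/-- `MINUS` with an additional factor -/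
theorem minusX (hZ : S_ZETA0X) (hZP : S_ZPROD) (hLoc : S_LOC) (hLim : S_LIMX) (hS : S_SIND)
    (hFund : S_FUND) (hFact : S_FACT) (hGT : S_GT) (hRank : S_RANK)
    (F K : Type) [Field F] [NumberField F] [Field K] [NumberField K] [Algebra F K]
    (τ : K ≃ₐ[F] K) (hQ : Quad F K τ) (S : Finset (HeightOneSpectrum (𝓞 F)))
    (A : Finset (HeightOneSpectrum (𝓞 K))) (hO : Over S A) (n : ℕ)
    (hcls : (CA (S : Set (HeightOneSpectrum (𝓞 F)))).index * n ∣
      (CA (A : Set (HeightOneSpectrum (𝓞 K)))).index *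
        ((SU K A).map ((MonoidHom.id Kˣ) / actK τ)).relIndex (SU K A ⊓ minus τ))
    (r : ℕ) (u : Fin r → Place K) (p : Fin r → Place F) (hB : ∀ a, Below (u a) (p a))
    (hp : Function.Injective p) (hmov : ∀ a, ∃ z : K, av (u a) (τ z) ≠ av (u a) z)
    (huA : ∀ a w, u a = Sum.inr w → w ∈ A)
    (hr : r + (Fintype.card (InfinitePlace F) + S.card) = Fintype.card (InfinitePlace K) + A.card)
    (hr1 : r + 1 ≤ Fintype.card (InfinitePlace F) + S.card)
    (L : ℂ → ℂ) (hL : DifferentiableOn ℂ L {1}ᶜ)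
    (hE : ∀ s : ℂ, 1 < s.re → HasProd (fun v : {v : HeightOneSpectrum (𝓞 F) // v ∉ S} =>
      (1 - ((loc K (v : HeightOneSpectrum (𝓞 F)) : ℤ) : ℂ) *
        (Ideal.absNorm (v : HeightOneSpectrum (𝓞 F)).asIdeal : ℂ) ^ (-s))⁻¹) (L s)) :
    ∃ (q : ℝ) (a : ℕ), Tendsto (fun s : ℂ => (s ^ r)⁻¹ * L s) (𝓝[≠] 0) (𝓝 (q : ℂ)) ∧
      ∀ x : Fin r → Kˣ, (∀ b, x b ∈ SU K A ⊓ minus τ) →
        |q| * Nat.card (mu K ⊓ minus τ : Subgroup Kˣ) *
          (Subgroup.closure (Set.range x) ⊔ (mu K ⊓ minus τ)).relIndex (SU K A ⊓ minus τ) =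
        ((n * a : ℕ) : ℝ) * 2 ^ (Fintype.card (InfinitePlace F) + S.card - (r + 1)) *
          |(logM u x).det| := by
  have hcF : 0 < Fintype.card (InfinitePlace F) := Fintype.card_pos
  have hFK : Fintype.card (InfinitePlace F) ≤ Fintype.card (InfinitePlace K) :=
    Fintype.card_le_of_surjective _ (InfinitePlace.comap_surjective (k := F) (K := K))
  obtain ⟨hle, q, hq, hqe⟩ := hLim hZ hZP hLoc F K τ hQ S A hO L hL hE hFK
  have hr' : (Fintype.card (InfinitePlace K) + A.card) -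
      (Fintype.card (InfinitePlace F) + S.card) = r := by omega
  rw [hr'] at hq
  -- `S`-units of `F`
  obtain ⟨k, hk⟩ : ∃ k : ℕ, k + 1 = Fintype.card (InfinitePlace F) + S.card :=
    ⟨Fintype.card (InfinitePlace F) + S.card - 1, by omega⟩
  have hkc : Fintype.card (Fin k) + 1 = Fintype.card (InfinitePlace F) + S.card := by
    rw [Fintype.card_fin]; exact hk
  obtain ⟨y, hy⟩ := hFund F S (Fin k) hkc
  have hyS : ∀ b, y b ∈ SU F (S : Set (HeightOneSpectrum (𝓞 F))) := by
    intro b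
    rw [← hy]
    exact (le_sup_left : Subgroup.closure (Set.range y) ≤ _) (Subgroup.subset_closure ⟨b, rfl⟩)
  -- the numbers
  obtain ⟨a, ha⟩ := hcls
  refine ⟨q, a, hq, fun x hx => ?_⟩
  have hxA : ∀ b, x b ∈ SU K (A : Set (HeightOneSpectrum (𝓞 K))) := fun b => (hx b).1
  have hxm : ∀ b, x b ∈ minus τ := fun b => (hx b).2
  have hιc : Fintype.card (Fin r) + (Fintype.card (InfinitePlace F) + S.card) =
      Fintype.card (InfinitePlace K) + A.card := by
    rw [Fintype.card_fin]; exact hr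
  obtain ⟨U, V, hU, hV, hUA, hVS, hdet⟩ := hFact F K τ hQ S A hO (Fin k) (Fin r) u p hB hp hmov huA
    hkc hιc y x hyS hxA hxm
  -- the index theorem for `F`
  have hF1 := hS F S (Fin k) V hV hVS hkc y hyS
  rw [hy, Subgroup.relIndex_self, Nat.cast_one, one_mul] at hF1
  -- the index theorem for `K`
  have hKc : Fintype.card (Fin k ⊕ Fin r) + 1 = Fintype.card (InfinitePlace K) + A.card := by
    rw [Fintype.card_sum, Fintype.card_fin, Fintype.card_fin]; omega
  have hzA : ∀ b, (Sum.elim (fun b => Units.map (algebraMap F K : F →* K) (y b)) x :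
      Fin k ⊕ Fin r → Kˣ) b ∈ SU K (A : Set (HeightOneSpectrum (𝓞 K))) := by
    rintro (b | b)
    · exact (inc_mem hO (y b)).2 (hyS b)
    · exact hxA b
  have hK1 := hS K A (Fin k ⊕ Fin r) U hU hUA hKc _ hzA
  -- the groups
  obtain ⟨P, hP⟩ : ∃ P : Subgroup Kˣ,
    P = (SU F (S : Set (HeightOneSpectrum (𝓞 F)))).map (inc F K) := ⟨_, rfl⟩
  obtain ⟨N, hN⟩ : ∃ N : Subgroup Kˣ, N = SU K (A : Set (HeightOneSpectrum (𝓞 K))) ⊓ minus τ :=
    ⟨_, rfl⟩
  obtain ⟨Y, hY⟩ : ∃ Y : Subgroup Kˣ, Y = (Subgroup.closure (Set.range y)).map (inc F K) :=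
    ⟨_, rfl⟩
  obtain ⟨X, hX⟩ : ∃ X : Subgroup Kˣ, X = Subgroup.closure (Set.range x) := ⟨_, rfl⟩
  have hactact : ∀ z : Kˣ, actK τ (actK τ z) = z := fun z => Units.ext (tau_tau hQ (z : K))
  have hUact : ∀ z ∈ SU K (A : Set (HeightOneSpectrum (𝓞 K))),
      actK τ z ∈ SU K (A : Set (HeightOneSpectrum (𝓞 K))) := fun z hz => act_mem hO z hz
  have hPiff : ∀ z, z ∈ P ↔ z ∈ SU K (A : Set (HeightOneSpectrum (𝓞 K))) ∧ actK τ z = z := by
    intro z
    rw [hP]
    constructor
    · rintro ⟨y', hy', rfl⟩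
      refine ⟨(inc_mem hO y').2 hy', Units.ext ?_⟩
      exact τ.commutes (y' : F)
    · rintro ⟨hz, hzt⟩
      have h1 : τ (z : K) = (z : K) := congrArg (fun t : Kˣ => (t : K)) hzt
      obtain ⟨y', hy'⟩ := fixed hQ (z : K) h1
      have hy0 : y' ≠ 0 := by
        rintro rfl
        rw [map_zero] at hy'
        exact z.ne_zero hy'.symm
      have h2 : inc F K (Units.mk0 y' hy0) = z := Units.ext hy'
      rw [← h2] at hz
      exact ⟨Units.mk0 y' hy0, (inc_mem hO _).1 hz, h2⟩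
  have hNiff : ∀ z, z ∈ N ↔ z ∈ SU K (A : Set (HeightOneSpectrum (𝓞 K))) ∧ actK τ z = z⁻¹ := by
    intro z
    rw [hN]
    exact Iff.rfl
  have hmuP : mu K ⊓ P = (mu F).map (inc F K) := by
    ext z
    constructor
    · rintro ⟨hz1, hz2⟩
      rw [hP] at hz2
      obtain ⟨y', _, rfl⟩ := hz2
      refine ⟨y', ?_, rfl⟩
      exact (Function.Injective.isOfFinOrder_iff (inc_inj (F := F) (K := K))).1 hz1
    · rintro ⟨y', hy', rfl⟩
      refine ⟨MonoidHom.isOfFinOrder _ hy', ?_⟩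
      rw [hP]
      exact ⟨y', mu_le F _ hy', rfl⟩
  have hYP : Y ≤ P := by
    rw [hY, hP]
    refine Subgroup.map_mono ?_
    rw [← hy]
    exact le_sup_left
  have hXN : X ≤ N := by
    rw [hX, hN, Subgroup.closure_le]
    rintro _ ⟨b, rfl⟩
    exact hx b
  have hYmu : Y ⊔ (mu K ⊓ P) = P := by
    rw [hmuP, hY, ← Subgroup.map_sup, hy, hP]
  have hmuN : mu K ⊓ N = mu K ⊓ minus τ := by
    rw [hN, ← inf_assoc, inf_eq_left.2 (mu_le K _)]
  have hrank := hRank F K τ hQ S A hO r hr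
  rw [← hN] at hrank
  have hgt := hGT Kˣ (actK τ) hactact (SU K (A : Set (HeightOneSpectrum (𝓞 K)))) (mu K) P N
    hUact (mu_le K _) (finite_mu K)
    (fun z _ ⟨n, hn, hzn⟩ => isOfFinOrder_iff_pow_eq_one.2 ⟨n, hn, hzn⟩) hPiff hNiff (-1)
    (isOfFinOrder_iff_pow_eq_one.2 ⟨2, by norm_num, by simp⟩)
    (by
      intro h
      have h1 := congrArg (fun z : Kˣ => (z : K)) h
      simp only [Units.val_neg, Units.val_one] at h1
      have h2 : (2 : K) = 0 := by linear_combination (-1 : K) * h1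
      exact two_ne_zero h2)
    (by simp)
    (by
      apply Units.ext
      change τ (((-1 : Kˣ)) : K) = ((-1 : Kˣ) : K)
      simp)
    (by
      intro z _ hz
      have h1 : ((z : Kˣ) : K) * (z : K) = 1 := by
        rw [← Units.val_mul, hz, Units.val_one]
      rcases mul_self_eq_one_iff.1 h1 with h2 | h2
      · left; exact Units.ext h2
      · right; exact Units.ext (by rw [h2]; simp))
    r hrank Y X hYP hXN hYmu
  rw [hmuN] at hgt
  have hcl : Subgroup.closure (Set.range (Sum.elim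
      (fun b => Units.map (algebraMap F K : F →* K) (y b)) x : Fin k ⊕ Fin r → Kˣ)) = Y ⊔ X := by
    rw [Set.Sum.elim_range, Subgroup.closure_union, hX, hY, MonoidHom.map_closure,
      ← Set.range_comp]
    rfl
  rw [hcl] at hK1
  -- the conclusion
  have hcardF : Nat.card (mu K ⊓ P : Subgroup Kˣ) = Units.torsionOrder F := by
    rw [hmuP, Subgroup.card_map_of_injective inc_inj, card_mu]
  rw [hcardF, card_mu] at hgt
  have hw := final |q| (Units.torsionOrder K) (Units.torsionOrder F) (classNumber F)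
    (classNumber K) (Units.regulator F) (Units.regulator K)
    (∏ v ∈ S, Real.log (Ideal.absNorm v.asIdeal)) (∏ P ∈ A, Real.log (Ideal.absNorm P.asIdeal))
    (Nat.card (CA (S : Set (HeightOneSpectrum (𝓞 F)))))
    (Nat.card (CA (A : Set (HeightOneSpectrum (𝓞 K)))))
    (CA (S : Set (HeightOneSpectrum (𝓞 F)))).index
    (CA (A : Set (HeightOneSpectrum (𝓞 K)))).index
    (((SU K A).map ((MonoidHom.id Kˣ) / actK τ)).relIndex N : ℕ)
    ((Y ⊔ X ⊔ mu K).relIndex (SU K (A : Set (HeightOneSpectrum (𝓞 K)))) : ℕ)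
    ((X ⊔ (mu K ⊓ minus τ)).relIndex N : ℕ)
    (Nat.card (mu K ⊓ minus τ : Subgroup Kˣ)) _ _ |(logM u x).det|
    ((n * a : ℕ) : ℝ) k r (by omega)
    (by exact_mod_cast Units.torsionOrder_ne_zero K)
    (by exact_mod_cast Units.torsionOrder_ne_zero F)
    (by exact_mod_cast (Nat.pos_of_ne_zero (by
      rw [classNumber]; exact Fintype.card_ne_zero)).ne')
    (Units.regulator_ne_zero F) (log_prod_pos S).ne' hF1 hK1 (by rw [hdet, Fintype.card_fin])
    (by exact_mod_cast hgt) (by rw [← hqe])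
    (by
      rw [classNumber, ← Nat.card_eq_fintype_card]
      exact_mod_cast Subgroup.index_mul_card _)
    (by
      rw [classNumber, ← Nat.card_eq_fintype_card]
      exact_mod_cast Subgroup.index_mul_card _)
    (by
      rw [hN]
      rw [mul_assoc] at ha
      exact_mod_cast ha.symm)
  have hkr : Fintype.card (InfinitePlace F) + S.card - (r + 1) = k - r := by omega
  rw [hkr, ← hN, ← hX]
  exact hw

end Pool.Agent.Helper9.RS
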