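import Pool.Agent.Helper9.RS.Kum3

/-!
# The uniform bound
-/

set_option autoImplicit false
set_option linter.unusedSectionVars false

open NumberField IsDedekindDomain Filter Topology
open scoped nonZeroDivisors

noncomputable section

namespace Pool.Agent.Helper9.RS

open Pool.Agent.K3h30.RS Pool.Agent.K3h56.E2 Pool.Agent.K3h92.E2

/-- the contribution of the primes over two -/
theorem dyadic_dvd {F : Type} [Field F] [NumberField F] (S : Finset (HeightOneSpectrum (𝓞 F))) :
    ∏ v ∈ S, Ideal.absNorm v.asIdeal ^ ord2 v ∣ 2 ^ Module.finrank ℚ F := by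
  have h1 : ∏ v ∈ S, v.asIdeal ^ ord2 v ∣ Ideal.span {(2 : 𝓞 F)} := by
    refine Finset.prod_dvd_of_coprime ?_ fun v _ => two_dvd v
    intro v _ v' _ hne
    refine IsCoprime.pow ?_
    rw [Ideal.isCoprime_iff_sup_eq]
    exact (v.isMaximal).coprime_of_ne (v'.isMaximal) fun h => hne (HeightOneSpectrum.ext h)
  have h2 := map_dvd Ideal.absNorm h1
  rw [map_prod] at h2
  have h3 : Ideal.absNorm (Ideal.span {(2 : 𝓞 F)}) = 2 ^ Module.finrank ℚ F := by
    have h4 := Ideal.absNorm_span_natCast (S := 𝓞 F) 2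
    rw [RingOfIntegers.rank] at h4
    exact_mod_cast h4
  rw [h3] at h2
  simpa only [map_pow] using h2

variable {F H G : Type} [Field F] [NumberField F] [Field H] [NumberField H]
  [Algebra F H] [CommGroup G] [Finite G] [MulSemiringAction G H]

/-- the factor of the place `p` -/
def dy : Place F → ℕ
  | Sum.inl _ => 1
  | Sum.inr v => Ideal.absNorm v.asIdeal ^ ord2 v

theorem dy_pow (p : Place F) : ∃ k : ℕ, dy p = 2 ^ k := by
  rcases p with p | v
  · exact ⟨0, rfl⟩
  · have h := dyadic_dvd {v}
    rw [Finset.prod_singleton] at h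
    obtain ⟨k, -, hk⟩ := (Nat.dvd_prime_pow Nat.prime_two).1 h
    exact ⟨k, hk⟩

theorem card_decAt_dvd [IsGaloisGroup G F H] (hG : ∀ g : G, g * g = 1) (p : Place F) :
    Nat.card (decAt G H p) ∣ 4 * dy p := by
  obtain ⟨k, hk⟩ := dy_pow p
  have hle : Nat.card (decAt G H p) ≤ 4 * dy p := by
    rcases p with p | v
    · refine (card_inf_le hG p).trans ?_
      simp [dy]
    · exact card_fin_le hG v
  have hp : IsPGroup 2 (decAt G H p) := by
    intro g
    refine ⟨1, Subtype.ext ?_⟩
    rw [pow_one, pow_two]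
    exact hG g
  have : Fact (Nat.Prime 2) := ⟨Nat.prime_two⟩
  obtain ⟨a, ha⟩ := IsPGroup.iff_card.1 hp
  have h4 : 4 * dy p = 2 ^ (2 + k) := by rw [hk, pow_add]; norm_num
  rw [h4, ha] at hle ⊢
  exact pow_dvd_pow 2 ((Nat.pow_le_pow_iff_right (by norm_num)).1 hle)

theorem card_decAt_dvd' [IsGaloisGroup G F H] (hG : ∀ g : G, g * g = 1) (p : Place F) :
    Nat.card (decAt G H p) * 2 ^ (if Nat.card (decAt G H p) = 2 then 1 else 0) ∣ 4 * dy p := by
  split_ifs with h
  · rw [h]
    exact ⟨dy p, by norm_num⟩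
  · rw [pow_zero, mul_one]
    exact card_decAt_dvd hG p

open Classical in
/-- the product of the local degrees -/
theorem local_bound [IsGaloisGroup G F H] (D : RubinData F H G) (hG : ∀ g : G, g * g = 1) :
    2 ^ ((allS D).filter fun p => Nat.card (decAt G H p) = 2).card *
      ∏ p ∈ allS D, Nat.card (decAt G H p) ∣
      2 ^ (2 * (Fintype.card (InfinitePlace F) + D.S.card - (D.r + 1)) + 2) *
        ∏ v ∈ D.S, Ideal.absNorm v.asIdeal ^ ord2 v := by
  obtain ⟨f, hfi, hfl, hfr, hfs, ⟨p1, hp1, hp1'⟩, hact, hact1⟩ :=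
    Pool.Agent.K3h73.E2.t_PLACES F H G D
  have hcard : (allS D).card = Fintype.card (InfinitePlace F) + D.S.card := by
    rw [allS, Finset.card_disjSum, Finset.card_univ]
  have hbel : ∀ a, Pool.Agent.K3h73.E2.Below (f a) (D.w a) := by
    intro a
    rcases hw : D.w a with w | w
    · rw [hfl a w hw]
      rfl
    · obtain ⟨v, h1, -, h2⟩ := hfr a w hw
      rw [h1]
      exact h2
  have hfS : ∀ a, f a ∈ allS D := by
    intro a
    rw [mem_allS]
    rcases hw : D.w a with w | w
    · rw [hfl a w hw]
      trivial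
    · obtain ⟨v, h1, h2, -⟩ := hfr a w hw
      rw [h1]
      exact h2
  have hsub : Finset.univ.image f ⊆ allS D := by
    intro p hp
    obtain ⟨a, -, rfl⟩ := Finset.mem_image.1 hp
    exact hfS a
  have himgc : (Finset.univ.image f).card = D.r := by
    rw [Finset.card_image_of_injective _ hfi, Finset.card_univ, Fintype.card_fin]
  have hr1 : D.r + 1 ≤ Fintype.card (InfinitePlace F) + D.S.card := by
    have h1 : insert p1 (Finset.univ.image f) ⊆ allS D := by
      intro p hp
      rw [Finset.mem_insert] at hp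
      rcases hp with rfl | hp
      · exact (mem_allS D _).2 hp1
      · exact hsub hp
    have h2 := Finset.card_le_card h1
    rw [Finset.card_insert_of_notMem (by simpa using hp1'), himgc, hcard] at h2
    exact h2
  -- the places which split
  have hspl : ∀ p ∈ Finset.univ.image f, Nat.card (decAt G H p) = 1 := by
    intro p hp
    obtain ⟨a, -, rfl⟩ := Finset.mem_image.1 hp
    have h1 : decAt G H (f a) = ⊥ := by
      rw [eq_bot_iff]
      refine (Subgroup.closure_le _).2 ?_
      rintro γ ⟨w, hw, hγ⟩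
      have h2 : Pool.Agent.K3h73.E2.Below (f a) w := by
        rcases w with w | w <;> rcases hfa : f a with p | p
        · rw [hfa] at hw
          exact hw
        · rw [hfa] at hw
          exact absurd hw (by simp [Below])
        · rw [hfa] at hw
          exact absurd hw (by simp [Below])
        · rw [hfa] at hw
          exact hw
      have h3 : Conj G (D.w a) w := Pool.Agent.K3h73.E2.conj_of_below (hbel a) h2
      exact D.splits a γ (Pool.Agent.K3h73.E2.fixes_conj h3 hγ)
    rw [h1, Subgroup.card_bot]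
  have hflt : ((allS D).filter fun p => Nat.card (decAt G H p) = 2).card =
      ∑ p ∈ allS D \ Finset.univ.image f, if Nat.card (decAt G H p) = 2 then 1 else 0 := by
    rw [Finset.card_filter, ← Finset.sum_sdiff hsub, Nat.add_eq_left]
    refine Finset.sum_eq_zero fun p hp => ?_
    rw [hspl p hp]
    rfl
  rw [← Finset.prod_sdiff hsub, Finset.prod_eq_one hspl, mul_one, hflt,
    ← Finset.prod_pow_eq_pow_sum, mul_comm, ← Finset.prod_mul_distrib]
  have hcs : (allS D \ Finset.univ.image f).card =
      (Fintype.card (InfinitePlace F) + D.S.card - (D.r + 1)) + 1 := by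
    rw [Finset.card_sdiff_of_subset hsub, himgc, hcard]
    omega
  have h1 : ∏ p ∈ allS D \ Finset.univ.image f, (Nat.card (decAt G H p) *
      2 ^ (if Nat.card (decAt G H p) = 2 then 1 else 0)) ∣
      ∏ p ∈ allS D \ Finset.univ.image f, (4 * dy p) :=
    Finset.prod_dvd_prod_of_dvd _ _ fun p _ => card_decAt_dvd' hG p
  refine h1.trans ?_
  rw [Finset.prod_mul_distrib, Finset.prod_const, hcs]
  have h2 : (4 : ℕ) ^ ((Fintype.card (InfinitePlace F) + D.S.card - (D.r + 1)) + 1) =
      2 ^ (2 * (Fintype.card (InfinitePlace F) + D.S.card - (D.r + 1)) + 2) := by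
    rw [show (4 : ℕ) = 2 ^ 2 by norm_num, ← pow_mul]
    congr 1
  rw [h2]
  refine mul_dvd_mul_left _ ?_
  refine (Finset.prod_dvd_prod_of_subset _ _ dy Finset.sdiff_subset).trans ?_
  rw [allS, Finset.prod_disjSum]
  simp [dy]

end Pool.Agent.Helper9.RS
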