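import Pool.Graph.R_seed8.R362.HkFe
import Pool.Graph.R_pool_sql_team_seeded_5cf16337.K3h56.E2.Stm2
import Pool.Graph.R_pool_sql_team_seeded_5cf16337.K3h93.E2.ZProd

/-!
# The leading term of the Dedekind zeta function at `s = 0`
-/

set_option autoImplicit false
set_option linter.unusedSectionVars false

open NumberField Complex Filter Topology

noncomputable section

namespace Pool.Agent.Helper9.RS

open Pool.Agent.Y773 Pool.Agent.Y773.G Pool.Agent.R362.HL

variable (K : Type) [Field K] [NumberField K]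

open Classical in
/-- the trivial character of the ideals -/
def one : Ideal (𝓞 K) →*₀ ℂ where
  toFun 𝔞 := if 𝔞 = ⊥ then 0 else 1
  map_zero' := if_pos rfl
  map_one' := by
    rw [if_neg]
    rw [Ideal.one_eq_top]
    exact top_ne_bot
  map_mul' 𝔞 𝔟 := by
    by_cases ha : 𝔞 = ⊥
    · rw [if_pos ha, zero_mul, if_pos]
      rw [ha]; exact Ideal.bot_mul 𝔟
    · by_cases hb : 𝔟 = ⊥
      · rw [if_pos hb, mul_zero, if_pos]
        rw [hb]; exact Ideal.mul_bot 𝔞
      · have hab : 𝔞 * 𝔟 ≠ ⊥ := mul_ne_zero ha hb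
        rw [if_neg ha, if_neg hb, if_neg hab, one_mul]

theorem one_apply {𝔞 : Ideal (𝓞 K)} (h : 𝔞 ≠ ⊥) : one K 𝔞 = 1 := if_neg h

theorem isUnr_one : IsUnr (fun _ : InfinitePlace K => 0) (one K) where
  sig_le _ := zero_le_one
  cpx _ _ := rfl
  sig x hx := by
    have h : Ideal.span {x} ≠ ⊥ := by
      rw [Ne, Ideal.span_singleton_eq_bot]
      exact hx
    rw [one_apply K h]
    unfold G.sg
    simp

theorem LI_one {s : ℂ} (hs : 1 < s.re) : LI (one K) s = dedekindZeta K s := by
  rw [← (Pool.Agent.K3h93.E2.hasSum_fI K hs).tsum_eq]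
  unfold LI
  congr 1
  funext 𝔞
  unfold Pool.Agent.K3h93.E2.fI
  by_cases h : 𝔞 = ⊥
  · rw [if_pos h, h, ← Ideal.zero_eq_bot, map_zero, zero_mul]
  · rw [if_neg h, one_apply K h, one_mul]

/-- the gamma factor -/
def gam (s : ℂ) : ℂ := ∏ φ : K →+* ℂ, Gammaℝ (s + ex (fun _ : InfinitePlace K => 0) φ)

/-- the completed zeta function -/
theorem exists_xi : ∃ X : ℂ → ℂ, Differentiable ℂ X ∧
    (∃ w : ℂ, ‖w‖ = 1 ∧ ∀ s : ℂ, X s = w * (starRingEnd ℂ) (X (1 - (starRingEnd ℂ) s))) ∧
    ∀ s : ℂ, 1 < s.re → X s = s * (s - 1) *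
      (((|discr K| : ℤ) : ℂ) ^ (s / 2) * gam K s) * dedekindZeta K s := by
  obtain ⟨X, hX⟩ := xi_unr (isUnr_one K) (r := 1) (Or.inl rfl)
  refine ⟨X, hX.diff, hX.fe, fun s hs => ?_⟩
  have h := hX.eq s hs
  rw [LI_one K hs, pow_one] at h
  rw [h]
  have h2 : (((Ideal.absNorm (differentIdeal ℤ (𝓞 K)) : ℕ) : ℝ) : ℂ) = ((|discr K| : ℤ) : ℂ) := by
    rw [absNorm_differentIdeal K (𝓞 K), Complex.ofReal_natCast, ← Int.natCast_natAbs,
      Int.cast_natCast]
  rw [h2]
  rfl

/-- the number of the embeddings with `ex = 0`, and with `ex = 1` -/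
theorem card_ex : (Finset.univ.filter fun φ : K →+* ℂ => ex (fun _ : InfinitePlace K => 0) φ = 0).card =
    Fintype.card (InfinitePlace K) ∧
    (Finset.univ.filter fun φ : K →+* ℂ => ¬ ex (fun _ : InfinitePlace K => 0) φ = 0).card =
    InfinitePlace.nrComplexPlaces K ∧ ∀ φ : K →+* ℂ, ¬ ex (fun _ : InfinitePlace K => 0) φ = 0 →
      ex (fun _ : InfinitePlace K => 0) φ = 1 := by
  classical
  have hex : ∀ φ : K →+* ℂ, ex (fun _ : InfinitePlace K => 0) φ = 0 ↔
      (InfinitePlace.mk φ).embedding = φ := by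
    intro φ
    unfold ex
    split_ifs with h1 h2
    · simp only [true_iff]
      have h3 : ComplexEmbedding.IsReal φ := by
        rw [InfinitePlace.isReal_iff] at h1
        rcases InfinitePlace.embedding_mk_eq φ with h4 | h4
        · rwa [h4] at h1
        · rw [h4] at h1
          exact (ComplexEmbedding.isReal_conjugate_iff).1 h1
      exact InfinitePlace.embedding_mk_eq_of_isReal h3
    · simpa using h2
    · simpa using h2
  have h0 : (Finset.univ.filter fun φ : K →+* ℂ => ex (fun _ : InfinitePlace K => 0) φ = 0).card =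
      Fintype.card (InfinitePlace K) := by
    rw [← Finset.card_univ]
    refine Finset.card_bij' (fun φ _ => InfinitePlace.mk φ) (fun w _ => w.embedding) ?_ ?_ ?_ ?_
    · intro φ _; exact Finset.mem_univ _
    · intro w _
      rw [Finset.mem_filter]
      refine ⟨Finset.mem_univ _, ?_⟩
      rw [hex, InfinitePlace.mk_embedding]
    · intro φ hφ
      rw [Finset.mem_filter, hex] at hφ
      exact hφ.2
    · intro w _
      exact InfinitePlace.mk_embedding w
  refine ⟨h0, ?_, ?_⟩
  · have h1 := Finset.card_filter_add_card_filter_not (s := (Finset.univ : Finset (K →+* ℂ)))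
      (fun φ => ex (fun _ : InfinitePlace K => 0) φ = 0)
    rw [h0, Finset.card_univ] at h1
    have h2 : Fintype.card (K →+* ℂ) = Module.finrank ℚ K := Embeddings.card K ℂ
    have h3 := InfinitePlace.card_add_two_mul_card_eq_rank K
    have h4 := InfinitePlace.card_eq_nrRealPlaces_add_nrComplexPlaces K
    omega
  · intro φ hφ
    unfold ex at hφ ⊢
    split_ifs with h1 h2
    · simp [h1] at hφ
    · simp [h1, h2] at hφ
    · rfl

theorem Gammaℝ_conj' (z : ℂ) : (starRingEnd ℂ) (Gammaℝ ((starRingEnd ℂ) z)) = Gammaℝ z := by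
  rw [Gammaℝ_def, Gammaℝ_def, map_mul, ← Complex.Gamma_conj, conj_cpow_real Real.pi_pos]
  have h20 : (starRingEnd ℂ) (2 : ℂ) = 2 := map_ofNat (starRingEnd ℂ) 2
  simp only [map_div₀, map_neg, Complex.conj_conj, h20]

theorem gam_conj (s : ℂ) : (starRingEnd ℂ) (gam K ((starRingEnd ℂ) s)) = gam K s := by
  unfold gam
  rw [map_prod]
  refine Finset.prod_congr rfl fun φ _ => ?_
  rw [← Gammaℝ_conj' (s + _), map_add, Complex.conj_natCast]

theorem zeta_conj {s : ℂ} (hs : 1 < s.re) :
    (starRingEnd ℂ) (dedekindZeta K ((starRingEnd ℂ) s)) = dedekindZeta K s := by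
  have hs' : 1 < ((starRingEnd ℂ) s).re := by rwa [Complex.conj_re]
  have h1 := (Pool.Agent.K3h93.E2.hasSum_fI K hs').map (starRingEnd ℂ) Complex.continuous_conj
  have h2 := Pool.Agent.K3h93.E2.hasSum_fI K hs
  refine h1.unique ?_
  convert h2 using 1
  funext 𝔞
  simp only [Function.comp, Pool.Agent.K3h93.E2.fI]
  split_ifs with h
  · exact map_zero _
  · have h3 : (0 : ℝ) < (Ideal.absNorm 𝔞 : ℝ) := by
      have : Ideal.absNorm 𝔞 ≠ 0 := by rwa [Ne, Ideal.absNorm_eq_zero_iff]
      exact_mod_cast Nat.pos_of_ne_zero this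
    have h4 := conj_cpow_real h3 (-(starRingEnd ℂ) s)
    rw [Complex.ofReal_natCast] at h4
    rw [h4, map_neg, Complex.conj_conj]

end Pool.Agent.Helper9.RS
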