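import Pool.Agent.Helper9.RS.Zeta0

/-!
# The leading term of the Dedekind zeta function at `s = 0`, part 2
-/

set_option autoImplicit false
set_option linter.unusedSectionVars false

open NumberField Complex Filter Topology

noncomputable section

namespace Pool.Agent.Helper9.RS

open Pool.Agent.Y773 Pool.Agent.Y773.G Pool.Agent.R362.HL Pool.Agent.K3h56.E2

variable (K : Type) [Field K] [NumberField K]

/-- the exponents -/
abbrev cc (φ : K →+* ℂ) : ℕ := ex (fun _ : InfinitePlace K => 0) φ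

theorem cc_cases (φ : K →+* ℂ) : cc K φ = 0 ∨ cc K φ = 1 := by
  by_cases h : cc K φ = 0
  · exact Or.inl h
  · exact Or.inr ((card_ex K).2.2 φ h)

theorem Gammaℝ_continuousAt {z : ℂ} (hz : Gammaℝ z ≠ 0) : ContinuousAt Gammaℝ z := by
  have h := (differentiable_Gammaℝ_inv z).continuousAt.inv₀ (inv_ne_zero hz)
  have h2 : (fun s : ℂ => (Gammaℝ s)⁻¹)⁻¹ = Gammaℝ := by
    funext s
    exact inv_inv _
  rwa [h2] at h

theorem Gammaℝ_two : Gammaℝ 2 = 1 / Real.pi := by
  have h := Gammaℝ_mul_Gammaℝ_add_one 1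
  rw [Gammaℝ_one, one_mul, Gammaℂ_one] at h
  norm_num at h
  rw [h]
  norm_num

theorem gam_pos {s : ℂ} (hs : 0 < s.re) : gam K s ≠ 0 := by
  unfold gam
  rw [Finset.prod_ne_zero_iff]
  intro φ _
  refine Gammaℝ_ne_zero_of_re_pos ?_
  rw [Complex.add_re, Complex.natCast_re]
  positivity

theorem gam_one : gam K 1 = (1 / (Real.pi : ℂ)) ^ (InfinitePlace.nrComplexPlaces K) := by
  classical
  unfold gam
  rw [← Finset.prod_filter_mul_prod_filter_not Finset.univ (fun φ : K →+* ℂ => cc K φ = 0)]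
  have h1 : ∏ φ ∈ Finset.univ.filter (fun φ : K →+* ℂ => cc K φ = 0), Gammaℝ (1 + (cc K φ : ℂ)) = 1 := by
    refine Finset.prod_eq_one fun φ hφ => ?_
    rw [Finset.mem_filter] at hφ
    rw [hφ.2, Nat.cast_zero, add_zero, Gammaℝ_one]
  have h2 : ∏ φ ∈ Finset.univ.filter (fun φ : K →+* ℂ => ¬ cc K φ = 0), Gammaℝ (1 + (cc K φ : ℂ)) =
      (1 / (Real.pi : ℂ)) ^ (InfinitePlace.nrComplexPlaces K) := by
    rw [← (card_ex K).2.1, ← Finset.prod_const]
    refine Finset.prod_congr rfl fun φ hφ => ?_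
    rw [Finset.mem_filter] at hφ
    have hc : cc K φ = 1 := (card_ex K).2.2 φ hφ.2
    rw [hc, Nat.cast_one, one_add_one_eq_two, Gammaℝ_two]
  rw [h1, h2, one_mul]

theorem gam_continuousAt {s : ℂ} (hs : 0 < s.re) : ContinuousAt (gam K) s := by
  have h : gam K = fun s => ∏ φ : K →+* ℂ, Gammaℝ (s + cc K φ) := rfl
  rw [h]
  refine tendsto_finsetProd _ fun φ _ => ?_
  have h1 : Gammaℝ (s + (cc K φ : ℂ)) ≠ 0 := by
    refine Gammaℝ_ne_zero_of_re_pos ?_
    rw [Complex.add_re, Complex.natCast_re]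
    positivity
  have h2 := Gammaℝ_continuousAt h1
  have h3 : ContinuousAt (fun s : ℂ => s + (cc K φ : ℂ)) s := by fun_prop
  exact ContinuousAt.comp (f := fun s : ℂ => s + (cc K φ : ℂ)) (g := Gammaℝ) h2 h3

theorem gam_zero : Tendsto (fun s : ℂ => s ^ (Fintype.card (InfinitePlace K)) * gam K s) (𝓝[≠] 0)
    (𝓝 (2 ^ (Fintype.card (InfinitePlace K)))) := by
  classical
  have h0 : ∀ s : ℂ, s ^ (Fintype.card (InfinitePlace K)) * gam K s =
      (∏ φ ∈ Finset.univ.filter (fun φ : K →+* ℂ => cc K φ = 0), s * Gammaℝ s) *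
      ∏ φ ∈ Finset.univ.filter (fun φ : K →+* ℂ => ¬ cc K φ = 0), Gammaℝ (s + 1) := by
    intro s
    have h1 : gam K s = (∏ φ ∈ Finset.univ.filter (fun φ : K →+* ℂ => cc K φ = 0), Gammaℝ s) *
      ∏ φ ∈ Finset.univ.filter (fun φ : K →+* ℂ => ¬ cc K φ = 0), Gammaℝ (s + 1) := by
      unfold gam
      rw [← Finset.prod_filter_mul_prod_filter_not Finset.univ (fun φ : K →+* ℂ => cc K φ = 0)]
      congr 1
      · refine Finset.prod_congr rfl fun φ hφ => ?_
        rw [Finset.mem_filter] at hφ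
        have hc : ex (fun _ : InfinitePlace K => 0) φ = 0 := hφ.2
        rw [hc, Nat.cast_zero, add_zero]
      · refine Finset.prod_congr rfl fun φ hφ => ?_
        rw [Finset.mem_filter] at hφ
        rw [(card_ex K).2.2 φ hφ.2, Nat.cast_one]
    rw [h1, Finset.prod_mul_distrib, Finset.prod_const (s := Finset.univ.filter
      (fun φ : K →+* ℂ => cc K φ = 0)) s, (card_ex K).1, mul_assoc]
  have h2 : Tendsto (fun s : ℂ => (∏ φ ∈ Finset.univ.filter (fun φ : K →+* ℂ => cc K φ = 0), s * Gammaℝ s) *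
      ∏ φ ∈ Finset.univ.filter (fun φ : K →+* ℂ => ¬ cc K φ = 0), Gammaℝ (s + 1)) (𝓝[≠] 0)
      (𝓝 ((∏ φ ∈ Finset.univ.filter (fun φ : K →+* ℂ => cc K φ = 0), 2) *
      ∏ φ ∈ Finset.univ.filter (fun φ : K →+* ℂ => ¬ cc K φ = 0), 1)) := by
    refine Tendsto.mul (tendsto_finsetProd _ fun φ _ => Gammaℝ_residue_zero)
      (tendsto_finsetProd _ fun φ _ => ?_)
    have h3 : ContinuousAt Gammaℝ 1 := Gammaℝ_continuousAt (by rw [Gammaℝ_one]; exact one_ne_zero)
    have h4 : Tendsto (fun s : ℂ => s + 1) (𝓝[≠] 0) (𝓝 1) := by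
      have h5 : Tendsto (fun s : ℂ => s + 1) (𝓝 0) (𝓝 (0 + 1)) := Continuous.tendsto (by fun_prop) 0
      rw [zero_add] at h5
      exact h5.mono_left nhdsWithin_le_nhds
    have h6 := h3.tendsto.comp h4
    rw [Gammaℝ_one] at h6
    exact h6
  rw [Finset.prod_const, (card_ex K).1, Finset.prod_const_one, mul_one] at h2
  refine h2.congr fun s => ?_
  exact (h0 s).symm

/-- the discriminant -/
abbrev DD : ℝ := ((|discr K| : ℤ) : ℝ)

theorem DD_pos : 0 < DD K := by
  have h := abs_pos.mpr (discr_ne_zero K)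
  exact Int.cast_pos.2 h

theorem main_X {X : ℂ → ℂ} (hX : Differentiable ℂ X)
    (hfe : ∃ w : ℂ, ‖w‖ = 1 ∧ ∀ s : ℂ, X s = w * (starRingEnd ℂ) (X (1 - (starRingEnd ℂ) s)))
    (heq : ∀ s : ℂ, 1 < s.re → X s = s * (s - 1) *
      (((|discr K| : ℤ) : ℂ) ^ (s / 2) * gam K s) * dedekindZeta K s) :
    ∃ x : ℝ, X 0 = x ∧ |x| = 2 ^ (Fintype.card (InfinitePlace K)) *
      (Units.regulator K * classNumber K / Units.torsionOrder K) := by
  have hD := DD_pos K
  have hDc : ((|discr K| : ℤ) : ℂ) = ((DD K : ℝ) : ℂ) := (Complex.ofReal_intCast _).symm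
  rw [hDc] at heq
  -- the conjugate
  have hconj : X = fun s => (starRingEnd ℂ) (X ((starRingEnd ℂ) s)) := by
    refine entire_eq hX (diff_conj_conj hX) fun s hs => ?_
    have hs' : 1 < ((starRingEnd ℂ) s).re := by rwa [Complex.conj_re]
    rw [heq s hs, heq _ hs']
    simp only [map_mul, map_sub, map_one, Complex.conj_conj]
    rw [zeta_conj K hs, gam_conj, conj_cpow_real hD]
    have h20 : (starRingEnd ℂ) (2 : ℂ) = 2 := map_ofNat (starRingEnd ℂ) 2
    simp only [map_div₀, Complex.conj_conj, h20]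
  have hreal : (starRingEnd ℂ) (X 0) = X 0 := by
    have h := congrFun hconj 0
    simp only [map_zero] at h
    exact h.symm
  obtain ⟨x, hx⟩ := Complex.conj_eq_iff_real.1 hreal
  -- the value at `1`
  have h1 : X 1 = ((Real.sqrt (DD K) * (1 / Real.pi) ^ (InfinitePlace.nrComplexPlaces K) *
      dedekindZeta_residue K : ℝ) : ℂ) := by
    have ht1 : Tendsto (fun s : ℝ => X (s : ℂ)) (𝓝[>] 1) (𝓝 (X 1)) := by
      have h2 : ContinuousAt (fun s : ℝ => X (s : ℂ)) 1 :=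
        (hX.continuous.comp Complex.continuous_ofReal).continuousAt
      have h3 := h2.tendsto
      rw [Complex.ofReal_one] at h3
      exact h3.mono_left nhdsWithin_le_nhds
    have ht2 : Tendsto (fun s : ℝ => (s : ℂ) * (((DD K : ℝ) : ℂ) ^ ((s : ℂ) / 2) * gam K s) *
        (((s : ℂ) - 1) * dedekindZeta K s)) (𝓝[>] 1)
        (𝓝 (1 * (((DD K : ℝ) : ℂ) ^ ((1 : ℂ) / 2) * gam K 1) * (dedekindZeta_residue K : ℂ))) := by
      have h4 : Tendsto (fun s : ℝ => (s : ℂ)) (𝓝[>] 1) (𝓝 1) := by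
        have := (Complex.continuous_ofReal.tendsto (1 : ℝ))
        rw [Complex.ofReal_one] at this
        exact this.mono_left nhdsWithin_le_nhds
      have h5 : ContinuousAt (fun s : ℂ => ((DD K : ℝ) : ℂ) ^ (s / 2)) 1 := by
        have hne : ((DD K : ℝ) : ℂ) ≠ 0 := by exact_mod_cast hD.ne'
        exact ContinuousAt.const_cpow (by fun_prop) (Or.inl hne)
      have h6 : ContinuousAt (gam K) 1 := gam_continuousAt K (by norm_num)
      exact (h4.mul ((h5.tendsto.comp h4).mul (h6.tendsto.comp h4))).mul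
        (tendsto_sub_one_mul_dedekindZeta_nhdsGT K)
    have h7 : X 1 = 1 * (((DD K : ℝ) : ℂ) ^ ((1 : ℂ) / 2) * gam K 1) * (dedekindZeta_residue K : ℂ) := by
      refine tendsto_nhds_unique_of_eventuallyEq ht1 ht2 ?_
      filter_upwards [self_mem_nhdsWithin] with s hs
      have hs' : 1 < ((s : ℝ) : ℂ).re := by rw [Complex.ofReal_re]; exact hs
      rw [heq _ hs']
      ring
    have h8 : ((DD K : ℝ) : ℂ) ^ ((1 : ℂ) / 2) = ((Real.sqrt (DD K) : ℝ) : ℂ) := by
      rw [Real.sqrt_eq_rpow, Complex.ofReal_cpow hD.le]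
      push_cast
      rfl
    rw [h7, h8, gam_one]
    push_cast
    ring
  obtain ⟨w, hw, hfe⟩ := hfe
  have h2 := hfe 0
  rw [map_zero, sub_zero, h1, Complex.conj_ofReal] at h2
  have hpos : 0 < Real.sqrt (DD K) * (1 / Real.pi) ^ (InfinitePlace.nrComplexPlaces K) *
      dedekindZeta_residue K := by
    have h3 := dedekindZeta_residue_pos K
    have h4 := Real.sqrt_pos.2 hD
    have h5 := Real.pi_pos
    positivity
  refine ⟨x, hx, ?_⟩
  have h3 : |x| = Real.sqrt (DD K) * (1 / Real.pi) ^ (InfinitePlace.nrComplexPlaces K) *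
      dedekindZeta_residue K := by
    have h4 := congrArg norm h2
    rw [norm_mul, hw, one_mul, hx, Complex.norm_real, Complex.norm_real, Real.norm_eq_abs,
      Real.norm_eq_abs, abs_of_pos hpos] at h4
    exact h4
  rw [h3, dedekindZeta_residue_def, InfinitePlace.card_eq_nrRealPlaces_add_nrComplexPlaces]
  have h4 : (0 : ℝ) < Real.sqrt |(discr K : ℝ)| := by
    refine Real.sqrt_pos.2 (abs_pos.2 ?_)
    exact_mod_cast discr_ne_zero K
  have h5 : Real.sqrt (DD K) = Real.sqrt |(discr K : ℝ)| := by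
    unfold DD
    push_cast
    rfl
  rw [h5]
  have h6 : (Units.torsionOrder K : ℝ) ≠ 0 := by exact_mod_cast (Units.torsionOrder_pos K).ne'
  have h7 := Real.pi_ne_zero
  rw [mul_pow, pow_add, one_div, inv_pow]
  field_simp

/-- **The leading term of the Dedekind zeta function at `0`.** -/
theorem zeta0x : S_ZETA0X := by
  classical
  intro K _ _
  obtain ⟨X, hX, hfe, heq⟩ := exists_xi K
  obtain ⟨x, hx, hxa⟩ := main_X K hX hfe heq
  have hD := DD_pos K
  have hDc : ((|discr K| : ℤ) : ℂ) = ((DD K : ℝ) : ℂ) := (Complex.ofReal_intCast _).symm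
  rw [hDc] at heq
  have hDne : ((DD K : ℝ) : ℂ) ≠ 0 := by exact_mod_cast hD.ne'
  have hcard : 0 < Fintype.card (InfinitePlace K) := Fintype.card_pos
  obtain ⟨φ0, hφ0⟩ : ∃ φ0 : K →+* ℂ, cc K φ0 = 0 := by
    have h1 := (card_ex K).1
    have h2 : 0 < (Finset.univ.filter fun φ : K →+* ℂ => ex (fun _ : InfinitePlace K => 0) φ = 0).card := by
      rw [h1]; exact hcard
    obtain ⟨φ, hφ⟩ := Finset.card_pos.1 h2
    exact ⟨φ, (Finset.mem_filter.1 hφ).2⟩
  set Z : ℂ → ℂ := fun s => X s * ((DD K : ℝ) : ℂ) ^ (-(s / 2)) * (s - 1)⁻¹ *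
    ((2 * (Real.pi : ℂ))⁻¹ * (Gammaℝ (s + 2))⁻¹) *
      ∏ φ ∈ Finset.univ.erase φ0, (Gammaℝ (s + cc K φ))⁻¹ with hZ
  have hpi : (Real.pi : ℂ) ≠ 0 := by exact_mod_cast Real.pi_ne_zero
  have hZ1 : ∀ s : ℂ, s ≠ 0 → Z s = X s * ((DD K : ℝ) : ℂ) ^ (-(s / 2)) * (s - 1)⁻¹ *
      (s⁻¹ * (gam K s)⁻¹) := by
    intro s hs
    have h1 : (2 * (Real.pi : ℂ))⁻¹ * (Gammaℝ (s + 2))⁻¹ = s⁻¹ * (Gammaℝ (s + cc K φ0))⁻¹ := by
      rw [Gammaℝ_add_two hs, hφ0, Nat.cast_zero, add_zero, ← mul_inv, ← mul_inv]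
      congr 1
      field_simp
    have h2 : (gam K s)⁻¹ = (Gammaℝ (s + cc K φ0))⁻¹ *
        ∏ φ ∈ Finset.univ.erase φ0, (Gammaℝ (s + cc K φ))⁻¹ := by
      unfold gam
      rw [← Finset.prod_inv_distrib]
      exact (Finset.mul_prod_erase Finset.univ (fun φ : K →+* ℂ => (Gammaℝ (s + cc K φ))⁻¹)
        (Finset.mem_univ φ0)).symm
    simp only [hZ]
    rw [h1, h2]
    ring
  refine ⟨Z, ⟨?_, ?_⟩, ?_⟩
  · intro s hs
    have hs1 : s - 1 ≠ 0 := sub_ne_zero.2 hs
    have h1 : DifferentiableAt ℂ (fun s : ℂ => ((DD K : ℝ) : ℂ) ^ (-(s / 2))) s :=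
      DifferentiableAt.const_cpow (by fun_prop) (Or.inl hDne)
    have h2 : DifferentiableAt ℂ (fun s : ℂ => (s - 1)⁻¹) s :=
      DifferentiableAt.inv (by fun_prop) hs1
    have h3 : ∀ c : ℂ, DifferentiableAt ℂ (fun s : ℂ => (Gammaℝ (s + c))⁻¹) s := fun c =>
      (differentiable_Gammaℝ_inv (s + c)).comp s (f := fun s : ℂ => s + c) (by fun_prop)
    have h4 : DifferentiableAt ℂ (fun s : ℂ => ∏ φ ∈ Finset.univ.erase φ0,
        (Gammaℝ (s + cc K φ))⁻¹) s := by
      have h5 := DifferentiableAt.finsetProd (𝕜 := ℂ) (u := Finset.univ.erase φ0)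
        (f := fun (φ : K →+* ℂ) (s : ℂ) => (Gammaℝ (s + cc K φ))⁻¹) (x := s)
        (fun φ _ => h3 (cc K φ))
      have h6 : (∏ φ ∈ Finset.univ.erase φ0, fun s : ℂ => (Gammaℝ (s + cc K φ))⁻¹) =
          fun s : ℂ => ∏ φ ∈ Finset.univ.erase φ0, (Gammaℝ (s + cc K φ))⁻¹ := by
        funext s
        exact Finset.prod_apply s _ _
      rwa [h6] at h5
    exact ((((hX s).mul h1).mul h2).mul ((h3 2).const_mul _)).mul h4
  · intro s hs
    have hs0 : s ≠ 0 := by
      rintro rfl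
      norm_num at hs
    have hs1 : s - 1 ≠ 0 := by
      intro h
      rw [sub_eq_zero] at h
      rw [h] at hs
      norm_num at hs
    have hg : gam K s ≠ 0 := gam_pos K (by linarith)
    have hc : ((DD K : ℝ) : ℂ) ^ (s / 2) ≠ 0 := by
      rw [Ne, Complex.cpow_eq_zero_iff]
      exact fun h => hDne h.1
    rw [hZ1 s hs0, heq s hs, Complex.cpow_neg]
    field_simp
  · have hreg : 0 < Units.regulator K := Units.regulator_pos K
    have htor : (0 : ℝ) < Units.torsionOrder K := by exact_mod_cast Units.torsionOrder_pos K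
    refine ⟨-x / 2 ^ (Fintype.card (InfinitePlace K)) / Units.regulator K, ?_, ?_⟩
    · rw [abs_div, abs_div, abs_neg, hxa, abs_of_pos hreg, abs_of_pos (by positivity)]
      field_simp
    · have e1 : ((-x / 2 ^ (Fintype.card (InfinitePlace K)) / Units.regulator K *
          Units.regulator K : ℝ) : ℂ) =
          X 0 * ((DD K : ℝ) : ℂ) ^ (-((0 : ℂ) / 2)) * ((0 : ℂ) - 1)⁻¹ *
            (2 ^ (Fintype.card (InfinitePlace K)))⁻¹ := by
        rw [div_mul_cancel₀ _ hreg.ne', hx]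
        simp only [zero_div, neg_zero, Complex.cpow_zero]
        push_cast
        norm_num
        ring
      rw [e1]
      have h1 : Tendsto (fun s : ℂ => X s * ((DD K : ℝ) : ℂ) ^ (-(s / 2)) * (s - 1)⁻¹) (𝓝[≠] 0)
          (𝓝 (X 0 * ((DD K : ℝ) : ℂ) ^ (-((0 : ℂ) / 2)) * ((0 : ℂ) - 1)⁻¹)) := by
        have h2 : ContinuousAt (fun s : ℂ => X s * ((DD K : ℝ) : ℂ) ^ (-(s / 2)) * (s - 1)⁻¹) 0 := by
          have h3 : ContinuousAt (fun s : ℂ => ((DD K : ℝ) : ℂ) ^ (-(s / 2))) 0 :=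
            ContinuousAt.const_cpow (by fun_prop) (Or.inl hDne)
          have h4 : ContinuousAt (fun s : ℂ => (s - 1)⁻¹) 0 :=
            ContinuousAt.inv₀ (by fun_prop) (by norm_num)
          exact (hX.continuous.continuousAt.mul h3).mul h4
        exact h2.tendsto.mono_left nhdsWithin_le_nhds
      have h5 := h1.mul ((gam_zero K).inv₀ (pow_ne_zero _ two_ne_zero))
      refine h5.congr' ?_
      filter_upwards [self_mem_nhdsWithin] with s hs
      have hs0 : s ≠ 0 := hs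
      rw [hZ1 s hs0, mul_inv]
      have h6 : (s ^ (Fintype.card (InfinitePlace K)))⁻¹ =
          (s ^ (Fintype.card (InfinitePlace K) - 1))⁻¹ * s⁻¹ := by
        rw [← mul_inv, ← pow_succ, Nat.sub_add_cancel hcard]
      rw [h6]
      ring

end Pool.Agent.Helper9.RS
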